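import Pool.Agent.Lib.MP_b5021c_nt.BP.H90.Ts

/-!
# MP_b5021c_nt, ALL THETA, BpS: row T2S (helper90)

`H` over `Eis` of class `V(|N - eta|)` and rank `2N - 2`, a ray with the load `eta H_b = - g`
(`g` integral), a small non pure factor of the closing: `g = 1` or both coefficients are binomials.
-/

namespace Pool.Agent.B5.BP90

open Polynomial Metric Pool.Agent.B5
open scoped Topology ComplexConjugate LaurentPolynomial
open Pool.Agent.MP_b5021c_nt (Eis)

set_option linter.unusedSectionVars false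

/-- A primitive sixth root of unity. -/
structure Et (et : Eis) : Prop where
  re : (Coef.emb et : ℂ).re = 1 / 2
  im : (Coef.emb et : ℂ).im ^ 2 = 3 / 4

theorem et_g6 : Et Eis.g6 := by
  have h1 := Eis.emb_re Eis.g6
  have h2 := Eis.emb_im Eis.g6
  have h3 : Eis.g6.re = 1 := rfl
  have h4 : Eis.g6.im = 1 := rfl
  rw [h3, h4] at h1
  rw [h4] at h2
  refine ⟨?_, ?_⟩
  · change (Eis.emb Eis.g6).re = _
    rw [h1]; norm_num
  · change (Eis.emb Eis.g6).im ^ 2 = _
    rw [h2]
    have := Eis.sqrt3_sq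
    push_cast
    nlinarith

theorem embN (n : ℤ) : (Coef.emb ((n : ℤ) : Eis) : ℂ) = (n : ℂ) := map_intCast _ _

/-- The integral polynomial over `Eis`. -/
noncomputable abbrev pE (p : ℤ[X]) : Eis[X] := p.map (Int.castRingHom Eis)

theorem pE_inj {p q : ℤ[X]} (h : pE p = pE q) : p = q := by
  refine Polynomial.map_injective _ ?_ h
  intro a b hab
  have h1 : ((a : ℤ) : Eis) = ((b : ℤ) : Eis) := hab
  have h2 := congrArg (Coef.emb : Eis →+* ℂ) h1
  rw [embN, embN] at h2
  exact_mod_cast h2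

theorem et_im_ne {et : Eis} (he : Et et) : (Coef.emb et : ℂ).im ≠ 0 := by
  intro h
  have := he.im
  rw [h] at this
  norm_num at this

/-- `a - et b = 0` with integers: both vanish. -/
theorem et_zero {et : Eis} (he : Et et) {a b : ℤ} (h : ((a : ℤ) : Eis) - et * ((b : ℤ) : Eis) = 0) :
    b = 0 := by
  have h1 := congrArg (Coef.emb : Eis →+* ℂ) h
  rw [map_sub, map_mul, embN, embN, map_zero] at h1
  have h2 := congrArg Complex.im h1
  simp only [Complex.sub_im, Complex.mul_im, Complex.intCast_im, Complex.intCast_re, mul_zero,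
    zero_add, Complex.zero_im, zero_sub, neg_eq_zero] at h2
  rcases mul_eq_zero.mp h2 with h3 | h3
  · exact absurd h3 (et_im_ne he)
  · exact_mod_cast h3

/-- The exhausted case over `Eis`. -/
theorem exhE (hU : UnitRS) (hM1 : M1S) (hMV : MVS) {et : Eis} (he : Et et) {t : RO Eis}
    {p g : ℤ[X]} {n : ℕ} {c : ℝ} {N : ℕ}
    (h : Exh t (pE p - C et * pE g) (pE p - C et * pE g - pE g) n c) (hN : 3 ≤ N)
    (hp0 : p.coeff 0 = N) (hg0 : g.coeff 0 = 1)
    (hz : ∀ z : ℂ, ‖z‖ ≤ 1 → ((pE p - C et * pE g).map (Coef.emb : Eis →+* ℂ)).eval z ≠ 0) :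
    g = 1 := by
  obtain ⟨q, hq⟩ : ∃ q : Eis[X], q = pE p - C et * pE g := ⟨_, rfl⟩
  obtain ⟨v, hv⟩ : ∃ v : Eis[X], v = q - pE g := ⟨_, rfl⟩
  rw [← hq, ← hv] at h
  rw [← hq] at hz
  have cg : (pE g).coeff 0 = 1 := by rw [coeff_map, hg0]; rfl
  have cp : (pE p).coeff 0 = ((N : ℤ) : Eis) := by rw [coeff_map, hp0]; rfl
  have cq : q.coeff 0 = ((N : ℤ) : Eis) - et := by
    rw [hq, coeff_sub, coeff_C_mul, cg, cp, mul_one]
  have cv : v.coeff 0 = ((N : ℤ) : Eis) - et - 1 := by
    rw [hv, coeff_sub, cg, cq]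
  have ecq : (Coef.emb (q.coeff 0) : ℂ) = (N : ℂ) - Coef.emb et := by
    rw [cq, map_sub, embN]; push_cast; rfl
  have ecv : (Coef.emb (v.coeff 0) : ℂ) = (N : ℂ) - Coef.emb et - 1 := by
    rw [cv, map_sub, map_sub, embN, map_one]; push_cast; rfl
  have hre := he.re
  have him := he.im
  have hN3 : N = 3 := by
    have h1 := h.eq0
    rw [← Complex.normSq_eq_norm_sq, Complex.normSq_apply, ecq, ecv] at h1
    simp only [Complex.mul_re, Complex.conj_re, Complex.conj_im, Complex.sub_re, Complex.sub_im,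
      Complex.natCast_re, Complex.natCast_im, Complex.one_re, Complex.one_im, hre] at h1
    have h6 : (3 : ℝ) ≤ N := by exact_mod_cast hN
    have h7 : ((N : ℝ) - 2) * (N - 3) = 0 := by nlinarith
    rcases mul_eq_zero.mp h7 with h8 | h8
    · linarith
    · have : (N : ℝ) = 3 := by linarith
      exact_mod_cast this
  subst hN3
  obtain ⟨be, hbe⟩ : ∃ be : Eis, be = ((3 : ℤ) : Eis) - et - 1 := ⟨_, rfl⟩
  have cq3 : q.coeff 0 = be + 1 := by rw [cq, hbe]; push_cast; ring
  have cv3 : v.coeff 0 = be := by rw [cv, hbe]; rfl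
  have hbe0 : be ≠ 0 := by
    intro h1
    have h2 := congrArg (Coef.emb : Eis →+* ℂ) h1
    rw [hbe, map_sub, map_sub, embN, map_one, map_zero] at h2
    have h3 := congrArg Complex.im h2
    simp at h3
    exact et_im_ne he h3
  have hbec : (Coef.emb be : ℂ) ≠ 0 := by
    intro h1
    exact hbe0 (emb_inj (h1.trans (map_zero _).symm))
  have heq := h.eq
  -- the constant
  have hk : (3 + (c : ℂ) * Complex.I) * Coef.emb be = 2 * (Coef.emb be + 1) := by
    have h1 := congrArg (fun f : ℂ[X] => f.coeff 0) heq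
    simp only [mul_coeff_zero, coeff_C_zero, coeff_add, coeff_map, tO_coeff0, map_zero, mul_zero,
      add_zero, cq3, cv3, map_add, map_one] at h1
    exact h1.symm
  have hmain : C be * q = (C (be + 1) + C be * tO t n) * v := by
    apply Polynomial.map_injective (Coef.emb : Eis →+* ℂ) emb_inj
    rw [Polynomial.map_mul, Polynomial.map_mul, Polynomial.map_add, Polynomial.map_mul, map_C,
      map_C, map_add, map_one]
    have h2 : (C (2 : ℂ) : ℂ[X]) ≠ 0 := by rw [Ne, C_eq_zero]; exact two_ne_zero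
    apply mul_left_cancel₀ h2
    have h3 : (C (Coef.emb be : ℂ) : ℂ[X]) * C (3 + (c : ℂ) * Complex.I) =
        C 2 * C ((Coef.emb be : ℂ) + 1) := by
      rw [← C_mul, ← C_mul, ← hk, mul_comm]
    calc C (2 : ℂ) * (C (Coef.emb be) * q.map (Coef.emb : Eis →+* ℂ))
        = C (Coef.emb be) * (C 2 * q.map (Coef.emb : Eis →+* ℂ)) := by ring
      _ = (C (Coef.emb be) * C (3 + (c : ℂ) * Complex.I) +
            C 2 * (C (Coef.emb be) * (tO t n).map (Coef.emb : Eis →+* ℂ))) *
            v.map (Coef.emb : Eis →+* ℂ) := by rw [heq]; ring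
      _ = _ := by rw [h3]; ring
  obtain ⟨s, hs⟩ : ∃ s : Eis[X], s = q - tO t n * v - v := ⟨_, rfl⟩
  have hC1 : (C (be + 1) : Eis[X]) = C be + 1 := by rw [C_add, C_1]
  have hvs : v = C be * s := by
    rw [hs]
    rw [hC1] at hmain
    linear_combination (-1 : Eis[X]) * hmain
  have hbC : (C be : Eis[X]) ≠ 0 := by rwa [Ne, C_eq_zero]
  have hqs : q = (C (be + 1) + C be * tO t n) * s := by
    apply mul_left_cancel₀ hbC
    rw [hmain]
    conv_lhs => rw [hvs]
    ring
  have hs0 : s.coeff 0 = 1 := by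
    rw [hs, coeff_sub, coeff_sub, mul_coeff_zero, tO_coeff0, zero_mul, cq3, cv3]
    ring
  have hs1 : s = 1 := by
    refine BP57.one_of_zf hU hM1 hMV hs0 fun z hz1 h5 => ?_
    apply hz z hz1
    rw [hqs, Polynomial.map_mul, eval_mul, h5, mul_zero]
  rw [hs1, mul_one] at hvs
  have hco : ∀ k : ℕ, g.coeff (k + 1) = 0 := by
    intro k
    have h1 := congrArg (fun f : Eis[X] => f.coeff (k + 1)) hvs
    simp only [hv, hq, coeff_sub, coeff_C_mul, coeff_map, coeff_C_succ] at h1
    refine et_zero he (a := p.coeff (k + 1) - g.coeff (k + 1)) ?_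
    have h2 : (Int.castRingHom Eis) (p.coeff (k + 1)) = ((p.coeff (k + 1) : ℤ) : Eis) := rfl
    have h3 : (Int.castRingHom Eis) (g.coeff (k + 1)) = ((g.coeff (k + 1) : ℤ) : Eis) := rfl
    rw [h2, h3] at h1
    rw [Int.cast_sub]
    linear_combination h1
  ext k
  rcases k with _ | k
  · rw [hg0, coeff_one_zero]
  · rw [hco k, coeff_one, if_neg (by omega)]

/-- **T2S.** -/
theorem t2s (hQc : Qc3S) (hE2 : E2S) (hNd : Nd3vS) (hDv : Dv3S) (hQm : Qm3S) (hNr : Nr3S)
    (hHp : HpgS) (hTa : Ta3S) (hUm : Um3vS) (hSt : St3S) (hSw : Sw3S) (hEv : EvRS)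
    (hZ : ZfinS) (hNn : Nn3S) (hU : UnitRS) (hVZ : VZS) (hM1 : M1S) (hMV : MVS)
    (hV1 : BP57.V1S)
    {P L : Type} [Fintype P] [DecidableEq P] [AddCommGroup L] [Module.Free ℤ L]
    [Module.Finite ℤ L] {phi : L →+ (P → ℤ)} {H : AO Eis L} {S : L} {i0 : P} {eta : (RO Eis)ˣ}
    {h : co phi i0 S = 1} {c : RO Eis} {n : ℕ} {G : Fin n → AO Eis (Ker (co phi i0))}
    (fd : FD phi H S i0 eta h c n G) (hMc : M c = 1) (hsn : (snp phi S i0 G).Nonempty)
    {et : Eis} (he : Et et) {w : (RO Eis)ˣ} {p g : ℤ[X]} {N : ℕ} {NV : ℝ} (hN : 3 ≤ N)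
    (hcv : ClassV NV (H.coeff 0)) (hr : Module.finrank ℤ L + 2 = 2 * N)
    (hp : (w : RO Eis) * H.coeff 0 = toLaurent (pE p - C et * pE g)) (hp0 : p.coeff 0 = N)
    (hg : (w : RO Eis) * ((eta : RO Eis) * H.coeff S) = -toLaurent (pE g))
    (hg0 : g.coeff 0 = 1) : g = 1 ∨ Bpf N p g := by
  have cg : (pE g).coeff 0 = 1 := by rw [coeff_map, hg0]; rfl
  have cp : (pE p).coeff 0 = ((N : ℤ) : Eis) := by rw [coeff_map, hp0]; rfl
  have cq : (pE p - C et * pE g).coeff 0 = ((N : ℤ) : Eis) - et := by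
    rw [coeff_sub, coeff_C_mul, cg, cp, mul_one]
  have ecq : (Coef.emb (((N : ℤ) : Eis) - et) : ℂ) = (N : ℂ) - Coef.emb et := by
    rw [map_sub, embN]; push_cast; rfl
  have ecv : (Coef.emb (((N : ℤ) : Eis) - et - 1) : ℂ) = (N : ℂ) - Coef.emb et - 1 := by
    rw [map_sub, ecq, map_one]
  have hre := he.re
  have him := he.im
  have hN3 : (3 : ℝ) ≤ N := by exact_mod_cast hN
  have him0 := et_im_ne he
  obtain ⟨zp, zp1, h1⟩ := swn hQc hE2 hNd hDv hQm hNr hHp hTa hUm hSt hSw hEv hZ hNn hU hVZ fd hMc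
    hsn hcv hp hg cg (by
      rw [cq]
      intro h2
      have h3 := congrArg (Coef.emb : Eis →+* ℂ) h2
      rw [ecq, map_zero] at h3
      have h4 := congrArg Complex.im h3
      simp at h4
      exact him0 h4) (by
      rw [cq, ecq, ecv, ← Complex.normSq_eq_norm_sq, Complex.normSq_apply]
      simp only [Complex.mul_re, Complex.conj_re, Complex.conj_im, Complex.sub_re, Complex.sub_im,
        Complex.natCast_re, Complex.natCast_im, Complex.one_re, Complex.one_im, hre]
      nlinarith [mul_nonneg (by linarith : (0 : ℝ) ≤ (N : ℝ) - 2)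
        (by linarith : (0 : ℝ) ≤ (N : ℝ) - 3)]) (by
      rw [cq]
      intro h2
      have h3 := congrArg (Coef.emb : Eis →+* ℂ) h2
      rw [ecq] at h3
      have h4 := congrArg Complex.im h3
      have h5 : (Coef.emb (2 : Eis) : ℂ) = 2 := by
        have := embN 2
        push_cast at this
        exact this
      rw [h5] at h4
      simp at h4
      exact him0 h4)
  rcases h1 with ⟨zg, D1, b1, e1, hDD, hR, hc0, hcl⟩ | ⟨t, n', c', hex⟩
  · rcases hV1 Eis P L phi D1 b1 e1 0 (pE p - C et * pE g) (pE g) hDD (by omega) hR hc0 hcl zp zg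
      cg (by
        rw [cq, ecq, Complex.sub_re, Complex.natCast_re, hre]
        have h2 : ((Module.finrank ℤ L : ℕ) : ℝ) + 2 = 2 * N := by exact_mod_cast hr
        linarith) with h2 | ⟨d, u, hd, -, h2, h3⟩
    · left
      apply pE_inj
      rw [h2, pE, Polynomial.map_one]
    · right
      left
      have hu : u = -(((g.coeff d : ℤ)) : Eis) := by
        have h4 := congrArg (fun f : Eis[X] => f.coeff d) h2
        simp only [coeff_map, coeff_sub, coeff_C_mul, coeff_X_pow, if_true, mul_one,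
          coeff_one, if_neg (by omega : ¬ d = 0)] at h4
        have h5 : (Int.castRingHom Eis) (g.coeff d) = ((g.coeff d : ℤ) : Eis) := rfl
        rw [h5] at h4
        rw [h4]
        ring
      refine ⟨d, ((N : ℤ) - 1) * g.coeff d, g.coeff d, hd, ?_, ?_⟩
      · apply pE_inj
        have h4 : pE p = (pE p - C et * pE g) + C et * pE g := by ring
        rw [h4, h3, cq, h2, hu]
        simp only [pE, Polynomial.map_add, Polynomial.map_mul, Polynomial.map_pow, map_C, map_X]
        have h5 : (Int.castRingHom Eis) (((N : ℤ) - 1) * g.coeff d) =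
            (((N : ℤ) : Eis) - 1) * ((g.coeff d : ℤ) : Eis) := by
          rw [map_mul, map_sub, map_one]; rfl
        have h6 : (Int.castRingHom Eis) ((N : ℤ)) = ((N : ℤ) : Eis) := rfl
        rw [h5, h6]
        simp only [C_sub, C_mul, C_neg, C_1]
        ring
      · apply pE_inj
        rw [h2, hu]
        simp only [pE, Polynomial.map_add, Polynomial.map_mul, Polynomial.map_pow, map_C, map_X,
          Polynomial.map_one]
        have h5 : (Int.castRingHom Eis) (g.coeff d) = ((g.coeff d : ℤ) : Eis) := rfl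
        rw [h5, C_neg]
        ring
  · left
    exact exhE hU hM1 hMV he hex hN hp0 hg0 zp1

end Pool.Agent.B5.BP90
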