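import Pool.Agent.Lib.MP_b5021c_nt.E.H29.Va
import Pool.Agent.Lib.MP_b5021c_nt.E.H12.B2
import Pool.Agent.Lib.MP_b5021c_nt.E.H78.Zfa
import Pool.Agent.Lib.MP_b5021c_nt.IfaceSF

/-!
# MP_b5021c_nt, ALL THETA, BpS: the mass of a small factor, `N ≥ 3` (helper90)

As `T03vS`, with `2 Re (q(0) conj v(0)) ≤ 3 |v(0)|²` instead of the strict inequality
`2 |b(0)| < |v(0)|`: either the mass is one, or it has the mean two, equality holds, and
`2 q = (3 + i c + 2 tau_+) v`.
-/

namespace Pool.Agent.B5.BP90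

open scoped LaurentPolynomial
open Polynomial Metric
open Pool.Agent.B5

/-- Zero real part at the centre: the quotient is an imaginary constant. -/
theorem imag_const {v W : ℂ[X]} (hv : ∀ s : ℂ, ‖s‖ < 1 → v.eval s ≠ 0)
    (hW : ∀ s : ℂ, ‖s‖ < 1 → 0 ≤ (W.eval s * (starRingEnd ℂ) (v.eval s)).re)
    (h0 : (W.eval 0 * (starRingEnd ℂ) (v.eval 0)).re = 0) :
    ∃ c : ℝ, W = C ((c : ℂ) * Complex.I) * v := by
  have hsq : ∀ s : ℂ, ‖(v + W).eval s‖ ^ 2 =
      ‖(v - W).eval s‖ ^ 2 + 4 * (W.eval s * (starRingEnd ℂ) (v.eval s)).re := by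
    intro s
    rw [← Complex.normSq_eq_norm_sq, ← Complex.normSq_eq_norm_sq, eval_add, eval_sub]
    simp only [Complex.normSq_apply, Complex.add_re, Complex.add_im, Complex.sub_re,
      Complex.sub_im, Complex.mul_re, Complex.conj_re, Complex.conj_im]
    ring
  have hle : ∀ s : ℂ, ‖s‖ < 1 → ‖(v - W).eval s‖ ≤ ‖(v + W).eval s‖ := by
    intro s hs
    have h1 := hsq s
    have h2 := hW s hs
    exact le_of_sq_le_sq (by linarith) (norm_nonneg _)
  have hne : ∀ s : ℂ, ‖s‖ < 1 → (v + W).eval s ≠ 0 := by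
    intro s hs h1
    have h2 := hle s hs
    rw [h1, norm_zero] at h2
    have h3 : (v - W).eval s = 0 := norm_eq_zero.mp (le_antisymm h2 (norm_nonneg _))
    apply hv s hs
    rw [eval_add] at h1
    rw [eval_sub] at h3
    have h4 : v.eval s + v.eval s = 0 := by linear_combination h1 + h3
    have h5 : (2 : ℂ) * v.eval s = 0 := by rw [two_mul]; exact h4
    exact (mul_eq_zero.mp h5).resolve_left two_ne_zero
  set φ : ℂ → ℂ := fun s => (v - W).eval s / (v + W).eval s with hφ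
  have hdiff : DifferentiableOn ℂ φ (ball 0 1) := by
    refine DifferentiableOn.div (v - W).differentiable.differentiableOn
      (v + W).differentiable.differentiableOn fun s hs => ?_
    exact hne s (by simpa using hs)
  have hn1 : ∀ s : ℂ, ‖s‖ < 1 → ‖φ s‖ ≤ 1 := by
    intro s hs
    rw [hφ]
    simp only
    rw [norm_div]
    exact div_le_one_of_le₀ (hle s hs) (norm_nonneg _)
  have hn0 : ‖φ 0‖ = 1 := by
    have h1 := hsq 0
    rw [h0, mul_zero, add_zero] at h1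
    have h2 : ‖(v + W).eval 0‖ = ‖(v - W).eval 0‖ := by
      rw [sq_eq_sq₀ (norm_nonneg _) (norm_nonneg _)] at h1
      exact h1
    rw [hφ]
    simp only
    rw [norm_div, ← h2, div_self]
    exact norm_ne_zero_iff.mpr (hne 0 (by simp))
  have hconst : Set.EqOn φ (Function.const ℂ (φ 0)) (ball 0 1) := by
    refine Complex.eqOn_of_isPreconnected_of_isMaxOn_norm
      (convex_ball (0 : ℂ) 1).isPreconnected isOpen_ball hdiff (by simp) ?_
    intro s hs
    simp only [Set.mem_setOf_eq, Function.comp_apply]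
    rw [hn0]
    exact hn1 s (by simpa using hs)
  obtain ⟨ph, hph⟩ : ∃ ph : ℂ, ph = φ 0 := ⟨_, rfl⟩
  have hpoly : v - W = C ph * (v + W) := by
    refine Polynomial.eq_of_infinite_eval_eq _ _ ?_
    have hinf : (ball (0 : ℂ) 1).Infinite := by
      have h1 : (ball (0 : ℂ) 1).Nonempty := ⟨0, by simp⟩
      exact infinite_of_mem_nhds (0 : ℂ) (ball_mem_nhds 0 one_pos)
    refine hinf.mono fun s hs => ?_
    have hs1 : ‖s‖ < 1 := by simpa using hs
    have h1 : φ s = ph := by rw [hph]; exact hconst hs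
    have h2 : (v - W).eval s = φ s * (v + W).eval s := by
      rw [hφ]
      simp only
      rw [div_mul_cancel₀ _ (hne s hs1)]
    change (v - W).eval s = (C ph * (v + W)).eval s
    rw [h2, h1, eval_mul, eval_C]
  have hv0 : v ≠ 0 := by
    rintro rfl
    exact hv 0 (by simp) (by simp)
  have hph1 : 1 + ph ≠ 0 := by
    intro h1
    have h2 : ph = -1 := by linear_combination h1
    rw [h2] at hpoly
    have h3 : (2 : ℂ[X]) * v = 0 := by
      have h4 : (C (-1 : ℂ)) = -1 := by simp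
      rw [h4] at hpoly
      linear_combination hpoly
    rcases mul_eq_zero.mp h3 with h4 | h4
    · exact two_ne_zero h4
    · exact hv0 h4
  have hW2 : C (1 + ph) * W = C (1 - ph) * v := by
    rw [C_add, C_sub, C_1]
    linear_combination -hpoly
  have hnph : ‖ph‖ = 1 := by rw [hph]; exact hn0
  obtain ⟨r, hr⟩ : ∃ r : ℂ, r = (1 - ph) / (1 + ph) := ⟨_, rfl⟩
  have hrW : W = C r * v := by
    have h1 : C (1 + ph) * W = C (1 + ph) * (C r * v) := by
      rw [hW2, ← mul_assoc, ← C_mul, hr, mul_div_cancel₀ _ hph1]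
    exact mul_left_cancel₀ (by rwa [Ne, C_eq_zero]) h1
  have hre : r.re = 0 := by
    have h1 : W.eval 0 * (starRingEnd ℂ) (v.eval 0) =
        r * ((‖v.eval 0‖ ^ 2 : ℝ) : ℂ) := by
      rw [hrW, eval_mul, eval_C, mul_assoc, Complex.mul_conj, Complex.normSq_eq_norm_sq]
    rw [h1, Complex.re_mul_ofReal] at h0
    rcases mul_eq_zero.mp h0 with h2 | h2
    · exact h2
    · exfalso
      exact hv 0 (by simp) (norm_eq_zero.mp ((pow_eq_zero_iff two_ne_zero).mp h2))
  refine ⟨r.im, ?_⟩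
  have h1 : r = (r.im : ℂ) * Complex.I := by
    apply Complex.ext
    · simp [hre]
    · simp
  rw [← h1]
  exact hrW

/-- The polynomial `sum_{1 ≤ k ≤ n} t_k X^k`. -/
noncomputable def tO {O : Type} [CommRing O] (t : RO O) (n : ℕ) : O[X] :=
  ∑ k ∈ Finset.range n, monomial (k + 1) (t.coeff ((k : ℤ) + 1))

theorem tO_map {O : Type} [CommRing O] [Coef O] (t : RO O) (n : ℕ) :
    (tO t n).map (Coef.emb : O →+* ℂ) = H03.tpl t n := by
  unfold tO H03.tpl
  rw [Polynomial.map_sum]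
  exact Finset.sum_congr rfl fun k _ => map_monomial _

theorem tO_coeff {O : Type} [CommRing O] (t : RO O) (n k : ℕ) :
    (tO t n).coeff (k + 1) = if k < n then t.coeff ((k : ℤ) + 1) else 0 := by
  unfold tO
  rw [finsetSum_coeff]
  split_ifs with h
  · rw [Finset.sum_eq_single k]
    · rw [coeff_monomial, if_pos rfl]
    · intro j _ hj
      rw [coeff_monomial, if_neg (by omega)]
    · intro h1
      exact absurd (Finset.mem_range.mpr h) h1
  · apply Finset.sum_eq_zero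
    intro j hj
    rw [coeff_monomial, if_neg]
    have := Finset.mem_range.mp hj
    omega

theorem tO_coeff0 {O : Type} [CommRing O] (t : RO O) (n : ℕ) : (tO t n).coeff 0 = 0 := by
  unfold tO
  rw [finsetSum_coeff]
  apply Finset.sum_eq_zero
  intro k _
  rw [coeff_monomial, if_neg (by omega)]

/-- The exhausted case. -/
structure Exh {O : Type} [CommRing O] [Coef O] (t : RO O) (q v : O[X]) (n : ℕ) (c : ℝ) : Prop where
  nn : NnR t
  t0 : (Coef.emb (t.coeff 0) : ℂ) = 2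
  eq0 : 2 * ((Coef.emb (q.coeff 0) : ℂ) * (starRingEnd ℂ) (Coef.emb (v.coeff 0))).re =
    3 * ‖(Coef.emb (v.coeff 0) : ℂ)‖ ^ 2
  eq : C 2 * q.map (Coef.emb : O →+* ℂ) =
    (C (3 + (c : ℂ) * Complex.I) + C 2 * (tO t n).map Coef.emb) * v.map (Coef.emb : O →+* ℂ)

/-- (T03W) the mass of a small factor, weak inequality. -/
theorem t03w (hNr : Nr3S) (hHp : HpgS) {O : Type} [CommRing O] [IsDomain O]
    [IsPrincipalIdealRing O] [Coef O] (t : RO O) (q b : O[X]) (ht0 : t ≠ 0) (hnn : NnR t)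
    (hq : ∀ z : ℂ, ‖z‖ ≤ 1 → (q.map (Coef.emb : O →+* ℂ)).eval z ≠ 0)
    (hvz : ZF ((q + b).map (Coef.emb : O →+* ℂ)))
    (hle : ∀ z : ℂ, ‖z‖ = 1 → ‖(b.map (Coef.emb : O →+* ℂ)).eval z‖ ≤
      ‖(q.map (Coef.emb : O →+* ℂ)).eval z‖)
    (hyp : ∀ z : Circle, (evR z t).re * ‖((q + b).map (Coef.emb : O →+* ℂ)).eval (z : ℂ)‖ ^ 2 ≤
      2 * ((q.map (Coef.emb : O →+* ℂ)).eval (z : ℂ) *
        (starRingEnd ℂ) (((q + b).map (Coef.emb : O →+* ℂ)).eval (z : ℂ))).re -
        ‖((q + b).map (Coef.emb : O →+* ℂ)).eval (z : ℂ)‖ ^ 2)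
    (h3 : 2 * ((Coef.emb (q.coeff 0) : ℂ) * (starRingEnd ℂ) (Coef.emb ((q + b).coeff 0))).re ≤
      3 * ‖(Coef.emb ((q + b).coeff 0) : ℂ)‖ ^ 2) :
    t = 1 ∨ ∃ (n : ℕ) (c : ℝ), Exh t q (q + b) n c := by
  by_cases hne : t = 1
  · exact Or.inl hne
  right
  obtain ⟨him, hco, hor⟩ := hNr O t ht0 hnn
  have ht2 : 2 ≤ (Coef.emb (t.coeff 0) : ℂ).re := by
    rcases hor with h | h
    · exact absurd h hne
    · exact h
  set t0 : ℝ := (Coef.emb (t.coeff 0) : ℂ).re with ht0def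
  obtain ⟨n, hre⟩ := H03.re_evR t (fun k hk => (hco k hk).2)
  set tp : ℂ[X] := H03.tpl t n with htp
  set qc : ℂ[X] := q.map (Coef.emb : O →+* ℂ) with hqcdef
  set bc : ℂ[X] := b.map (Coef.emb : O →+* ℂ) with hbcdef
  set vc : ℂ[X] := (q + b).map (Coef.emb : O →+* ℂ) with hvcdef
  have hvc : vc = qc + bc := by rw [hvcdef, Polynomial.map_add]
  set W : ℂ[X] := C 2 * qc - vc - (C (t0 : ℂ) + C 2 * tp) * vc with hW
  have hWe : ∀ s : ℂ, W.eval s = 2 * qc.eval s - vc.eval s - (t0 + 2 * tp.eval s) * vc.eval s := by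
    intro s
    rw [hW]
    simp only [eval_sub, eval_mul, eval_add, eval_C]
  have hWre : ∀ s : ℂ, (W.eval s * (starRingEnd ℂ) (vc.eval s)).re =
      2 * (qc.eval s * (starRingEnd ℂ) (vc.eval s)).re - ‖vc.eval s‖ ^ 2 -
        (t0 + 2 * (tp.eval s).re) * ‖vc.eval s‖ ^ 2 := by
    intro s
    have h4 : vc.eval s * (starRingEnd ℂ) (vc.eval s) = ((‖vc.eval s‖ ^ 2 : ℝ) : ℂ) := by
      rw [Complex.mul_conj, Complex.normSq_eq_norm_sq]
    have h5 : W.eval s * (starRingEnd ℂ) (vc.eval s) =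
        ((2 : ℝ) : ℂ) * (qc.eval s * (starRingEnd ℂ) (vc.eval s)) -
          ((‖vc.eval s‖ ^ 2 : ℝ) : ℂ) -
          (t0 + ((2 : ℝ) : ℂ) * tp.eval s) * ((‖vc.eval s‖ ^ 2 : ℝ) : ℂ) := by
      rw [← h4, hWe]
      push_cast
      ring
    rw [h5, Complex.sub_re, Complex.sub_re, Complex.re_ofReal_mul, Complex.ofReal_re,
      Complex.re_mul_ofReal, Complex.add_re, Complex.ofReal_re, Complex.re_ofReal_mul]
  set C0 : ℝ := t0 + 2 * ∑ k ∈ Finset.range n, ‖(Coef.emb (t.coeff ((k : ℤ) + 1)) : ℂ)‖ with hC0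
  have key := hHp vc W C0 hvz ?_ ?_
  · have key0 := key 0 (by simp)
    rw [hWre 0] at key0
    have h6 : (tp.eval 0).re = 0 := by
      rw [← coeff_zero_eq_eval_zero, htp, H03.tpl_coeff_zero, Complex.zero_re]
    rw [h6] at key0
    have e1 : (Coef.emb (q.coeff 0) : ℂ) = qc.eval 0 := by
      rw [← coeff_zero_eq_eval_zero, hqcdef, coeff_map]
    have e2 : (Coef.emb ((q + b).coeff 0) : ℂ) = vc.eval 0 := by
      rw [← coeff_zero_eq_eval_zero, hvcdef, coeff_map]
    rw [e1, e2] at h3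
    have hv0 : 0 < ‖vc.eval 0‖ ^ 2 := pow_pos (norm_pos_iff.mpr (hvz 0 (by simp))) 2
    have ht2' : t0 = 2 := by
      have h7 : t0 * ‖vc.eval 0‖ ^ 2 ≤ 2 * ‖vc.eval 0‖ ^ 2 := by linarith
      exact le_antisymm (le_of_mul_le_mul_right h7 hv0) ht2
    have heq : 2 * (qc.eval 0 * (starRingEnd ℂ) (vc.eval 0)).re = 3 * ‖vc.eval 0‖ ^ 2 := by
      rw [ht2'] at key0
      linarith
    obtain ⟨c, hc⟩ := imag_const (v := vc) (W := W) (fun s hs => hvz s hs) key (by
      rw [hWre 0, h6, heq, ht2']; ring)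
    refine ⟨n, c, hnn, ?_, ?_, ?_⟩
    · apply Complex.ext
      · rw [← ht0def, ht2']; rfl
      · rw [him]; rfl
    · rw [e1, e2]; exact heq
    · rw [tO_map, ← htp, ← hqcdef, ← hvcdef]
      rw [hW, ht2'] at hc
      have h8 : (C (3 + (c : ℂ) * Complex.I) : ℂ[X]) = C 1 + C ((2 : ℝ) : ℂ) +
          C ((c : ℂ) * Complex.I) := by
        rw [← C_add, ← C_add]
        congr 1
        push_cast
        ring
      rw [h8, C_1]
      linear_combination hc
  · intro s hs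
    rw [hWre s]
    have h1 := H29.mxp (q := qc) (v := vc) hq (fun z hz => by
      rw [hvc, eval_add, add_sub_cancel_left]
      exact hle z hz) s hs.le
    have h2 : 0 ≤ 2 * (qc.eval s * (starRingEnd ℂ) (vc.eval s)).re - ‖vc.eval s‖ ^ 2 := by
      have h4 : ‖vc.eval s - qc.eval s‖ ^ 2 ≤ ‖qc.eval s‖ ^ 2 :=
        pow_le_pow_left₀ (norm_nonneg _) h1 2
      have h5 : ‖vc.eval s - qc.eval s‖ ^ 2 = ‖vc.eval s‖ ^ 2 -
          2 * (qc.eval s * (starRingEnd ℂ) (vc.eval s)).re + ‖qc.eval s‖ ^ 2 := by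
        rw [← Complex.normSq_eq_norm_sq, ← Complex.normSq_eq_norm_sq, ← Complex.normSq_eq_norm_sq]
        simp only [Complex.normSq_apply, Complex.sub_re, Complex.sub_im, Complex.mul_re,
          Complex.conj_re, Complex.conj_im]
        ring
      linarith
    have h6 : (tp.eval s).re ≤ ∑ k ∈ Finset.range n, ‖(Coef.emb (t.coeff ((k : ℤ) + 1)) : ℂ)‖ := by
      refine (Complex.re_le_norm _).trans ?_
      rw [htp, H03.tpl_eval]
      refine (norm_sum_le _ _).trans (Finset.sum_le_sum fun k _ => ?_)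
      rw [norm_mul, norm_pow]
      exact mul_le_of_le_one_right (norm_nonneg _) (pow_le_one₀ (norm_nonneg _) hs.le)
    have h7 : 0 ≤ ‖vc.eval s‖ ^ 2 := sq_nonneg _
    nlinarith
  · intro s hs
    rw [hWre s]
    obtain ⟨w, rfl⟩ : ∃ w : Circle, (w : ℂ) = s := ⟨⟨s, mem_sphere_zero_iff_norm.mpr hs⟩, rfl⟩
    have h1 := hyp w
    have h2 := hre w
    rw [h2] at h1
    linarith

end Pool.Agent.B5.BP90
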