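import Pool.Agent.Lib.MP_b5021c_nt.BP.H90.T2s1
import Pool.Agent.Lib.MP_b5021c_nt.BP.H57.Ind

/-!
# MP_b5021c_nt, ALL THETA, BpS: row T2S1, end (helper90)

`one_fac2`: a closing without small factors whose apex and coefficient at a ray are coprime has one
factor. `ind2`: then it is in `DD` on its lattice. `t2s1_fin`: the closing `V_b` with the apex
`p - 1` and a ray with the coefficient `-(p - 2)`: `p = N` or `p = N ± X^d`.
-/

namespace Pool.Agent.B5.BP90

open Polynomial Metric Pool.Agent.B5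
open scoped Topology ComplexConjugate LaurentPolynomial
open Pool.Agent.MP_b5021c_nt (Eis)
open Pool.Agent.MP_b5021c_nt.Ire (bc)
open Pool.Agent.B5.H25.Bch
open Pool.Agent.B5.BP57 (bigO binO)

set_option linter.unusedSectionVars false

section

variable {O : Type} [CommRing O] [IsDomain O] [IsPrincipalIdealRing O]
    [Coef O] {P L : Type} [Fintype P] [DecidableEq P] [AddCommGroup L] [Module.Free ℤ L]
    [Module.Finite ℤ L] {phi : L →+ (P → ℤ)} {D : AO O L} {S : L} {i0 : P} {eta : (RO O)ˣ}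
    {h : co phi i0 S = 1} {c : RO O} {n : ℕ} {G : Fin n → AO O (Ker (co phi i0))}

/-- ONE FACTOR, coprime coefficients. -/
theorem one_fac2 (hG0 : G0S) (hC0 : Coeff0S) (hMm : MmulS)
    (hW : WWfS) (hRF : RayFacS) (fd : FD phi D S i0 eta h c n G) (hI : ImS phi S)
    (hs : snp phi S i0 G = ∅)
    {R : Ker (co phi i0)} (hR : Ray (cl (co phi i0) S h eta D) R)
    (hc : ∀ x : RO O, x ∣ (cl (co phi i0) S h eta D).coeff 0 →
      x ∣ (cl (co phi i0) S h eta D).coeff R → IsUnit x) :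
    IsUnit c ∧ ∃ l, (∀ i, i = l) ∧ cl (co phi i0) S h eta D = cst c * G l := by
  classical
  obtain ⟨mm1, mm2, mm3⟩ := hMm O
  have inj := BP57.injO (i0 := i0) hI h
  have hbig := bigO hI fd hs
  have hG00 : ∀ i, (G i).coeff 0 ≠ 0 := fun i => (fd.st i).1
  obtain ⟨l, hl⟩ := hRF O P L phi D S i0 eta h c n G fd R hR
  set H : AO O (Ker (co phi i0)) := cst c * ∏ i ∈ Finset.univ.erase l, G i with hH
  have hsplit : cl (co phi i0) S h eta D = G l * H := by
    rw [fd.eq, hH, ← Finset.mul_prod_erase Finset.univ G (Finset.mem_univ l)]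
    ring
  have hG0s := hG0 O P L phi D S i0 eta h fd.cc
  obtain ⟨-, lam, hpos, -⟩ := id hG0s.1
  have hGpos : ∀ i, Pos lam (G i) := fun i => (fd.full i lam hpos).2.1
  have hprod0 := fun s : Finset (Fin n) => H29.prod_coeff_zero hC0 G lam hGpos s
  have hH0 : H.coeff 0 = c * ∏ i ∈ Finset.univ.erase l, (G i).coeff 0 := by
    rw [hH, H56.cstm, (hprod0 _).1]
  have hP0 : ∏ i ∈ Finset.univ.erase l, (G i).coeff 0 ≠ 0 :=
    Finset.prod_ne_zero_iff.mpr fun i _ => hG00 i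
  have hH00 : H.coeff 0 ≠ 0 := by
    rw [hH0]
    exact mul_ne_zero fd.c0 hP0
  have hbinV : ∀ a ∈ supp (G l * H), Bin (phO phi S i0) a := by
    intro a ha
    rw [← hsplit] at ha
    exact binO a (hG0s.2.2.2.1 a ha)
  have hco : (cl (co phi i0) S h eta D).coeff R = (G l).coeff R * H.coeff 0 := by
    rw [hsplit]
    exact H67.coeff_disj hW (phO phi S i0) inj (G l) H hbinV (hG00 l) hH00 R hl
  have hV0 : (cl (co phi i0) S h eta D).coeff 0 = H.coeff 0 * (G l).coeff 0 := by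
    rw [hG0s.2.2.1, fd.v00, hH0, ← Finset.mul_prod_erase Finset.univ (fun i => (G i).coeff 0)
      (Finset.mem_univ l)]
    ring
  have hHu : IsUnit (H.coeff 0) := hc _ (by rw [hV0]; exact dvd_mul_right _ _)
    (by rw [hco]; exact dvd_mul_left _ _)
  rw [hH0, IsUnit.mul_iff] at hHu
  obtain ⟨hcu, hPu⟩ := hHu
  have huniq : ∀ i, i = l := by
    intro i
    by_contra hi
    have hmem : i ∈ Finset.univ.erase l := Finset.mem_erase.mpr ⟨hi, Finset.mem_univ i⟩
    rw [← Finset.mul_prod_erase (Finset.univ.erase l) (fun i => (G i).coeff 0) hmem,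
      IsUnit.mul_iff] at hPu
    have h1 := hbig i
    rw [mm3 _ hPu.1] at h1
    exact lt_irrefl _ h1
  have hprod : ∏ i, G i = G l := by
    rw [Finset.prod_eq_single l]
    · intro i _ hi
      exact absurd (huniq i) hi
    · intro hi
      exact absurd (Finset.mem_univ l) hi
  exact ⟨hcu, l, huniq, by rw [fd.eq, hprod]⟩

/-- Then the closing is in `DD` on its lattice. -/
theorem ind2 (hG0 : G0S) (hC0 : Coeff0S) (hMm : MmulS)
    (hW : WWfS) (hRF : RayFacS) (hRs : ResWDS)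
    (hRS : ResStS) (fd : FD phi D S i0 eta h c n G) (hI : ImS phi S)
    (hs : snp phi S i0 G = ∅)
    {R : Ker (co phi i0)} (hR : Ray (cl (co phi i0) S h eta D) R)
    (hc : ∀ x : RO O, x ∣ (cl (co phi i0) S h eta D).coeff 0 →
      x ∣ (cl (co phi i0) S h eta D).coeff R → IsUnit x) :
    ∃ (P' L' : Type) (_ : Fintype P') (_ : DecidableEq P') (_ : AddCommGroup L')
      (_ : Module.Free ℤ L') (_ : Module.Finite ℤ L') (phi' : L' →+ (P' → ℤ)) (E' : AO O L')
      (S' : L') (w' : (RO O)ˣ), DD phi' E' ∧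
        Module.finrank ℤ L' = rk (supp (cl (co phi i0) S h eta D)) ∧ Ray E' S' ∧
        (w' : RO O) * E'.coeff 0 = (cl (co phi i0) S h eta D).coeff 0 ∧
        (w' : RO O) * E'.coeff S' = (cl (co phi i0) S h eta D).coeff R := by
  obtain ⟨hcu, l, -, hVG⟩ := one_fac2 hG0 hC0 hMm hW hRF fd hI hs hR hc
  obtain ⟨cu, rfl⟩ := hcu
  obtain ⟨U, hUs, hUr, hDD⟩ := BP57.res_facO hRs hRS hI fd l
  have hsup : supp (cl (co phi i0) S h eta D) = supp (G l) := by
    rw [hVG, H78.supp_cst_mul fd.c0]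
  have hxU : R ∈ U := hUs R (by rw [← hsup]; exact hR.1)
  have hco : ∀ a, (cl (co phi i0) S h eta D).coeff a = (cu : RO O) * (G l).coeff a := by
    intro a
    rw [hVG, H78.cstm]
  obtain ⟨hx0, hxne, lam, hlx, hlam⟩ := hR
  refine ⟨P, U, inferInstance, inferInstance, inferInstance, inferInstance, inferInstance,
    (phO phi S i0).comp (incl U), res U (G l), ⟨R, hxU⟩, cu, hDD, ?_, ?_, ?_, ?_⟩
  · rw [hUr, ← hsup]
  · refine ⟨?_, ?_, lam.comp (incl U), hlx, ?_⟩
    · intro h1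
      have h2 : (G l).coeff R = 0 := h1
      apply hx0
      rw [hco, h2, mul_zero]
    · intro h1
      exact hxne (congrArg (fun y : U => (y : Ker (co phi i0))) h1)
    · intro a ha a0 ax
      change 0 < lam (a : Ker (co phi i0))
      refine hlam _ ?_ (fun h1 => a0 (Subtype.ext h1)) (fun h1 => ax (Subtype.ext h1))
      rw [hsup]
      exact ha
  · rw [hco]; rfl
  · rw [hco]; rfl

end

section

variable {P L : Type} [Fintype P] [DecidableEq P] [AddCommGroup L] [Module.Free ℤ L]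
    [Module.Finite ℤ L]

/-- **The end of T2S1.** -/
theorem t2s1_fin (hG0 : G0S) (hC0 : Coeff0S) (hMm : MmulS) (hU : UnitRS) (hE2 : E2S)
    (hVZ : VZS) (hW : WWfS) (hRF : RayFacS) (hRs : ResWDS) (hRS : ResStS) (hRk : RkS)
    (hEv : EvRS) (hV1 : BP57.V1zS) {phi : L →+ (P → ℤ)} {E : AO ℤ L} {b : L} {ib : P}
    {eb : (RO ℤ)ˣ} {hib : co phi ib b = 1} {c : RO ℤ} {n : ℕ}
    {G : Fin n → AO ℤ (Ker (co phi ib))} (fd : FD phi E b ib eb hib c n G)
    (hI : ImS phi b) (hs : snp phi b ib G = ∅) {N : ℕ} (hN : 3 ≤ N)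
    (hcv : ClassV N (E.coeff 0)) (hrL : Module.finrank ℤ L + 1 = 2 * N) {w : (RO ℤ)ˣ}
    {p : ℤ[X]} (hp : (w : RO ℤ) * E.coeff 0 = toLaurent p) (hp0 : p.coeff 0 = N)
    (hgb : (w : RO ℤ) * ((eb : RO ℤ) * E.coeff b) = -1)
    (hrk : rk (supp (cl (co phi ib) b hib eb E)) + 1 = Module.finrank ℤ (Ker (co phi ib)))
    {X : Ker (co phi ib)} {e2 : (RO ℤ)ˣ} (hX : Ray (cl (co phi ib) b hib eb E) X)
    (hV0 : (w : RO ℤ) * (cl (co phi ib) b hib eb E).coeff 0 = toLaurent (p - 1))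
    (hVX : (w : RO ℤ) * ((e2 : RO ℤ) * (cl (co phi ib) b hib eb E).coeff X) =
      -toLaurent (p - 2)) :
    p = C (N : ℤ) ∨ ∃ (d : ℕ) (u : ℤ), 1 ≤ d ∧ (u = 1 ∨ u = -1) ∧
      p = C (N : ℤ) + C u * Polynomial.X ^ d := by
  have hN3 : (3 : ℝ) ≤ N := by exact_mod_cast hN
  have hN1z : ((N - 1 : ℕ) : ℤ) = (N : ℤ) - 1 := by
    rw [Nat.cast_sub (by omega)]
    push_cast
    ring
  have hpne : p.coeff 0 ≠ 0 := by rw [hp0]; exact_mod_cast (by omega : N ≠ 0)
  obtain ⟨hpz, -⟩ := BP57.zf_of_unit hU hcv hp hpne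
  obtain ⟨hpcl, hle, hlt⟩ := BP57.ray_polyU (f := 1) hE2 hVZ fd.cc.dd fd.cc.two fd.cc.ray hp
    (by rw [hgb, map_one]) hpz
  -- coprime
  have hcop : ∀ x : RO ℤ, x ∣ (cl (co phi ib) b hib eb E).coeff 0 →
      x ∣ (cl (co phi ib) b hib eb E).coeff X → IsUnit x := by
    intro x h0 h1
    have h2 : x ∣ toLaurent (p - 1) := by rw [← hV0]; exact h0.mul_left _
    have h3 : x ∣ -toLaurent (p - 2) := by
      rw [← hVX]
      exact (h1.mul_left _).mul_left _
    have h4 := dvd_add h2 h3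
    have h5 : (toLaurent (p - 1) + -toLaurent (p - 2) : RO ℤ) = 1 := by
      have h6 : (toLaurent (2 : ℤ[X]) : RO ℤ) = 2 := by
        have h7 := map_natCast (toLaurent : ℤ[X] →+* RO ℤ) 2
        exact_mod_cast h7
      rw [map_sub, map_sub, map_one, h6]
      ring
    rw [h5] at h4
    exact isUnit_of_dvd_one h4
  obtain ⟨P', L', _, _, _, _, _, phi', E', S', w', hDD, hfr, hR', hE0, hES⟩ :=
    ind2 hG0 hC0 hMm hW hRF hRs hRS fd hI hs hX hcop
  have hker := BP57.finrank_kerO hRk hib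
  have hfr' : Module.finrank ℤ L' + 1 = 2 * (N - 1) := by omega
  have hwu : IsUnit (w * w' : RO ℤ) := (w * w').isUnit
  have hzq : ZF ((p - 1).map Coef.emb) := by
    intro z hz h0
    rw [Polynomial.map_sub, eval_sub, Polynomial.map_one, eval_one] at h0
    have h2 := hlt z hz
    rw [Polynomial.map_one, eval_one, sub_eq_zero.mp h0] at h2
    rw [norm_one] at h2
    exact lt_irrefl _ h2
  have hz1 : ZF ((1 : ℤ[X]).map Coef.emb) := by
    intro z _ h0
    rw [Polynomial.map_one, eval_one] at h0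
    exact one_ne_zero h0
  have h1 := hV1 P' L' phi' (cst (w * w' : RO ℤ) * E') S' e2 0 (p - 1) 1 (N - 1)
    (H78.dd_cst hwu (fun z => (hwu.map (evR z)).ne_zero) hDD) (by omega)
    (ray_cst hwu.ne_zero hR') (by
      rw [H78.cstm, mul_assoc, hE0, hV0, LaurentPolynomial.T_zero, one_mul]) (by
      rw [H78.cstm, H78.cstm, mul_assoc, mul_assoc, hE0, hES, hV0, LaurentPolynomial.T_zero,
        one_mul]
      have h6 : (toLaurent (2 : ℤ[X]) : RO ℤ) = 2 := by
        have h7 := map_natCast (toLaurent : ℤ[X] →+* RO ℤ) 2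
        exact_mod_cast h7
      have h7 : (e2 : RO ℤ) * ((w : RO ℤ) * (cl (co phi ib) b hib eb E).coeff X) =
          -toLaurent (p - 2) := by rw [← hVX]; ring
      rw [h7, map_sub, map_sub, map_one, h6]
      ring) hzq hz1 coeff_one_zero (by rw [coeff_sub, hp0, coeff_one_zero, hN1z]) hfr'
  have hC1 : (C ((N - 1 : ℕ) : ℤ) : ℤ[X]) = C (N : ℤ) - 1 := by
    rw [hN1z, C_sub, C_1]
  rcases h1 with ⟨-, h2⟩ | ⟨d, u, hd, hu, ⟨-, h2⟩ | ⟨h2, -⟩⟩
  · left
    rw [hC1] at h2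
    linear_combination h2
  · right
    refine ⟨d, u, hd, hu, ?_⟩
    rw [hC1] at h2
    linear_combination h2
  · exfalso
    have h3 := congrArg (fun f : ℤ[X] => f.coeff d) h2
    simp only [coeff_sub, coeff_C_mul, coeff_X_pow, if_true, mul_one, coeff_one,
      if_neg (by omega : ¬ d = 0)] at h3
    omega

end

end Pool.Agent.B5.BP90
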