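import Pool.Agent.Lib.MP_b5021c_nt.BP.H90.T2s

/-!
# MP_b5021c_nt, ALL THETA, BpS: row T2S, binomial form (helper90)
-/

namespace Pool.Agent.B5.BP90

open Polynomial Metric Pool.Agent.B5
open scoped Topology ComplexConjugate LaurentPolynomial
open Pool.Agent.MP_b5021c_nt (Eis)

set_option linter.unusedSectionVars false

/-- **T2S**, binomial form. -/
theorem t2s_bin (hQc : Qc3S) (hE2 : E2S) (hNd : Nd3vS) (hDv : Dv3S) (hQm : Qm3S) (hNr : Nr3S)
    (hHp : HpgS) (hTa : Ta3S) (hUm : Um3vS) (hSt : St3S) (hSw : Sw3S) (hEv : EvRS)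
    (hZ : ZfinS) (hNn : Nn3S) (hU : UnitRS) (hVZ : VZS) (hM1 : M1S) (hMV : MVS)
    (hV1 : BP57.V1S)
    {P L : Type} [Fintype P] [DecidableEq P] [AddCommGroup L] [Module.Free ℤ L]
    [Module.Finite ℤ L] {phi : L →+ (P → ℤ)} {H : AO Eis L} {S : L} {i0 : P} {eta : (RO Eis)ˣ}
    {h : co phi i0 S = 1} {c : RO Eis} {n : ℕ} {G : Fin n → AO Eis (Ker (co phi i0))}
    (fd : FD phi H S i0 eta h c n G) (hMc : M c = 1) (hsn : (snp phi S i0 G).Nonempty)
    {et : Eis} (he : Et et) {w : (RO Eis)ˣ} {p g : ℤ[X]} {N : ℕ} {NV : ℝ} (hN : 3 ≤ N)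
    (hcv : ClassV NV (H.coeff 0)) (hr : Module.finrank ℤ L + 2 = 2 * N)
    (hp : (w : RO Eis) * H.coeff 0 = toLaurent (pE p - C et * pE g)) (hp0 : p.coeff 0 = N)
    (hg : (w : RO Eis) * ((eta : RO Eis) * H.coeff S) = -toLaurent (pE g))
    (hg0 : g.coeff 0 = 1) : g = 1 ∨ ∃ (d : ℕ) (t r : ℤ), 1 ≤ d ∧ p = C (N : ℤ) + C t * X ^ d ∧
      g = 1 + C r * X ^ d := by
  have cg : (pE g).coeff 0 = 1 := by rw [coeff_map, hg0]; rfl
  have cp : (pE p).coeff 0 = ((N : ℤ) : Eis) := by rw [coeff_map, hp0]; rfl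
  have cq : (pE p - C et * pE g).coeff 0 = ((N : ℤ) : Eis) - et := by
    rw [coeff_sub, coeff_C_mul, cg, cp, mul_one]
  have ecq : (Coef.emb (((N : ℤ) : Eis) - et) : ℂ) = (N : ℂ) - Coef.emb et := by
    rw [map_sub, embN]; push_cast; rfl
  have ecv : (Coef.emb (((N : ℤ) : Eis) - et - 1) : ℂ) = (N : ℂ) - Coef.emb et - 1 := by
    rw [map_sub, ecq, map_one]
  have hre := he.re
  have him := he.im
  have hN3 : (3 : ℝ) ≤ N := by exact_mod_cast hN
  have him0 := et_im_ne he
  obtain ⟨zp, zp1, h1⟩ := swn hQc hE2 hNd hDv hQm hNr hHp hTa hUm hSt hSw hEv hZ hNn hU hVZ fd hMc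
    hsn hcv hp hg cg (by
      rw [cq]
      intro h2
      have h3 := congrArg (Coef.emb : Eis →+* ℂ) h2
      rw [ecq, map_zero] at h3
      have h4 := congrArg Complex.im h3
      simp at h4
      exact him0 h4) (by
      rw [cq, ecq, ecv, ← Complex.normSq_eq_norm_sq, Complex.normSq_apply]
      simp only [Complex.mul_re, Complex.conj_re, Complex.conj_im, Complex.sub_re, Complex.sub_im,
        Complex.natCast_re, Complex.natCast_im, Complex.one_re, Complex.one_im, hre]
      nlinarith [mul_nonneg (by linarith : (0 : ℝ) ≤ (N : ℝ) - 2)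
        (by linarith : (0 : ℝ) ≤ (N : ℝ) - 3)]) (by
      rw [cq]
      intro h2
      have h3 := congrArg (Coef.emb : Eis →+* ℂ) h2
      rw [ecq] at h3
      have h4 := congrArg Complex.im h3
      have h5 : (Coef.emb (2 : Eis) : ℂ) = 2 := by
        have := embN 2
        push_cast at this
        exact this
      rw [h5] at h4
      simp at h4
      exact him0 h4)
  rcases h1 with ⟨zg, D1, b1, e1, hDD, hR, hc0, hcl⟩ | ⟨t, n', c', hex⟩
  · rcases hV1 Eis P L phi D1 b1 e1 0 (pE p - C et * pE g) (pE g) hDD (by omega) hR hc0 hcl zp zg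
      cg (by
        rw [cq, ecq, Complex.sub_re, Complex.natCast_re, hre]
        have h2 : ((Module.finrank ℤ L : ℕ) : ℝ) + 2 = 2 * N := by exact_mod_cast hr
        linarith) with h2 | ⟨d, u, hd, -, h2, h3⟩
    · left
      apply pE_inj
      rw [h2, pE, Polynomial.map_one]
    · right
      have hu : u = -(((g.coeff d : ℤ)) : Eis) := by
        have h4 := congrArg (fun f : Eis[X] => f.coeff d) h2
        simp only [coeff_map, coeff_sub, coeff_C_mul, coeff_X_pow, if_true, mul_one,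
          coeff_one, if_neg (by omega : ¬ d = 0)] at h4
        have h5 : (Int.castRingHom Eis) (g.coeff d) = ((g.coeff d : ℤ) : Eis) := rfl
        rw [h5] at h4
        rw [h4]
        ring
      refine ⟨d, ((N : ℤ) - 1) * g.coeff d, g.coeff d, hd, ?_, ?_⟩
      · apply pE_inj
        have h4 : pE p = (pE p - C et * pE g) + C et * pE g := by ring
        rw [h4, h3, cq, h2, hu]
        simp only [pE, Polynomial.map_add, Polynomial.map_mul, Polynomial.map_pow, map_C, map_X]
        have h5 : (Int.castRingHom Eis) (((N : ℤ) - 1) * g.coeff d) =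
            (((N : ℤ) : Eis) - 1) * ((g.coeff d : ℤ) : Eis) := by
          rw [map_mul, map_sub, map_one]; rfl
        have h6 : (Int.castRingHom Eis) ((N : ℤ)) = ((N : ℤ) : Eis) := rfl
        rw [h5, h6]
        simp only [C_sub, C_mul, C_neg, C_1]
        ring
      · apply pE_inj
        rw [h2, hu]
        simp only [pE, Polynomial.map_add, Polynomial.map_mul, Polynomial.map_pow, map_C, map_X,
          Polynomial.map_one]
        have h5 : (Int.castRingHom Eis) (g.coeff d) = ((g.coeff d : ℤ) : Eis) := rfl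
        rw [h5, C_neg]
        ring
  · left
    exact exhE hU hM1 hMV he hex hN hp0 hg0 zp1

end Pool.Agent.B5.BP90
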