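import Pool.Agent.Lib.MP_b5021c_nt.BP.H90.Sm

/-!
# MP_b5021c_nt, ALL THETA, BpS: row TYPE S (helper90)

A small non pure factor at the good load of a unit ray of an element of class `V(N)` and
rank `2N - 1`, `N ≥ 3`: the two coefficients are binomials.
-/

namespace Pool.Agent.B5.BP90

open Polynomial Metric Pool.Agent.B5
open scoped Topology ComplexConjugate LaurentPolynomial

set_option linter.unusedSectionVars false

theorem embZ' (x : ℤ) : (Coef.emb x : ℂ) = (x : ℂ) := H12.emb_int x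

theorem wt_zero {e m j : ℤ} (h0 : j ≠ 0) (h1 : j ≠ m) (h2 : j ≠ -m) :
    (H12.wt e m).coeff j = 0 := by
  unfold H12.wt
  rw [AddMonoidAlgebra.coeff_add, AddMonoidAlgebra.coeff_add, Finsupp.add_apply,
    Finsupp.add_apply, AddMonoidAlgebra.coeff_single, AddMonoidAlgebra.coeff_single,
    AddMonoidAlgebra.coeff_single, Finsupp.single_eq_of_ne h0, Finsupp.single_eq_of_ne h1,
    Finsupp.single_eq_of_ne h2]
  rfl

theorem tO_two (hZf : ZfinS) (hEv : EvRS) (hLin : E1.LinS) {t : RO ℤ} (hn : NnR t)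
    (h2 : t.coeff 0 = 2) (n : ℕ) :
    ∃ (k : ℕ) (r : ℤ), 1 ≤ k ∧ tO t n = C r * X ^ k := by
  have hNz : H12.Nz t := by
    refine ⟨?_, fun z => (hn z).2⟩
    rw [← sub_eq_zero]
    refine H71.evR_zero hZf _ fun z => ?_
    rw [map_sub, (hEv ℤ).2.2.1, Complex.conj_eq_iff_im.mpr (hn z).1, sub_self]
  rcases hNz.two hLin h2 with h3 | ⟨m, e, hm, -, h3⟩
  · refine ⟨1, 0, le_rfl, ?_⟩
    rw [C_0, zero_mul]
    ext k
    rw [coeff_zero]
    rcases k with _ | k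
    · exact tO_coeff0 t n
    · rw [tO_coeff, h3]
      split_ifs
      · rw [AddMonoidAlgebra.coeff_single, Finsupp.single_eq_of_ne (by omega)]
      · rfl
  · refine ⟨m.natAbs, (tO t n).coeff m.natAbs, by omega, ?_⟩
    ext k
    rw [coeff_C_mul, coeff_X_pow]
    by_cases hk : k = m.natAbs
    · rw [if_pos hk, hk, mul_one]
    · rw [if_neg hk, mul_zero]
      rcases k with _ | k
      · exact tO_coeff0 t n
      · rw [tO_coeff, h3]
        split_ifs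
        · exact wt_zero (by omega) (by omega) (by omega)
        · rfl

/-- The exhausted case over `ℤ`. -/
theorem exhZ (hZf : ZfinS) (hEv : EvRS) (hLin : E1.LinS) {t : RO ℤ} {p g : ℤ[X]} {n : ℕ}
    {c : ℝ} {N : ℕ} (h : Exh t p (p - g) n c) (hN : 3 ≤ N) (hp0 : p.coeff 0 = N)
    (hg0 : g.coeff 0 = 1)
    (hz : ∀ z : ℂ, ‖z‖ ≤ 1 → (p.map (Coef.emb : ℤ →+* ℂ)).eval z ≠ 0) : Bpf N p g := by
  have hN3 : N = 3 := by
    have h1 := h.eq0
    rw [coeff_sub, hp0, hg0, embZ', embZ'] at h1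
    have h2 : (((N : ℤ) : ℂ) * (starRingEnd ℂ) ((((N : ℤ) - 1 : ℤ)) : ℂ)).re =
        (N : ℝ) * ((N : ℝ) - 1) := by
      have h3 : (starRingEnd ℂ) ((((N : ℤ) - 1 : ℤ)) : ℂ) = ((((N : ℤ) - 1 : ℤ)) : ℂ) :=
        Complex.conj_eq_iff_real.mpr ⟨(((N : ℤ) - 1 : ℤ) : ℝ), by push_cast; rfl⟩
      rw [h3]
      have h4 : ((N : ℤ) : ℂ) * ((((N : ℤ) - 1 : ℤ)) : ℂ) = (((N : ℝ) * ((N : ℝ) - 1) : ℝ) : ℂ) := by
        push_cast; ring
      rw [h4, Complex.ofReal_re]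
    have h5 : ‖((((N : ℤ) - 1 : ℤ)) : ℂ)‖ = (N : ℝ) - 1 := by
      rw [Complex.norm_intCast]
      push_cast
      rw [abs_of_nonneg]
      have : (3 : ℝ) ≤ N := by exact_mod_cast hN
      linarith
    rw [h2, h5] at h1
    have h6 : (3 : ℝ) ≤ N := by exact_mod_cast hN
    have h7 : ((N : ℝ) - 1) * (N - 3) = 0 := by nlinarith
    rcases mul_eq_zero.mp h7 with h8 | h8
    · linarith
    · have : (N : ℝ) = 3 := by linarith
      exact_mod_cast this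
  subst hN3
  have hp3 : p.coeff 0 = 3 := by rw [hp0]; norm_num
  have heq := h.eq
  have hc0 : c = 0 := by
    have h1 := congrArg (fun f : ℂ[X] => f.coeff 0) heq
    simp only [mul_coeff_zero, coeff_C_zero, coeff_add, coeff_map, tO_coeff0, coeff_sub, hp3,
      hg0, map_zero, mul_zero, add_zero] at h1
    rw [embZ', embZ'] at h1
    have h2 := congrArg Complex.im h1
    simp at h2
    linarith
  have hmain : C 2 * p = (C 3 + C 2 * tO t n) * (p - g) := by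
    apply Polynomial.map_injective (Coef.emb : ℤ →+* ℂ) emb_inj
    rw [Polynomial.map_mul, Polynomial.map_mul, Polynomial.map_add, Polynomial.map_mul, map_C,
      map_C]
    have e2 : (Coef.emb (2 : ℤ) : ℂ) = 2 := by rw [embZ']; norm_num
    have e3 : (Coef.emb (3 : ℤ) : ℂ) = 3 := by rw [embZ']; norm_num
    rw [e2, e3, heq, hc0]
    simp
  obtain ⟨s, hs⟩ : ∃ s : ℤ[X], s = p - tO t n * (p - g) - (p - g) := ⟨_, rfl⟩
  have h2 : (C 2 : ℤ[X]) = 2 := rfl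
  have h3 : (C 3 : ℤ[X]) = 3 := rfl
  rw [h2, h3] at hmain
  have hv : p - g = 2 * s := by
    rw [hs]
    linear_combination (-1 : ℤ[X]) * hmain
  have hps : p = (3 + 2 * tO t n) * s := by
    have h4 : (2 : ℤ[X]) * p = 2 * ((3 + 2 * tO t n) * s) := by
      rw [hmain, hv]; ring
    exact mul_left_cancel₀ two_ne_zero h4
  have hs0 : s.coeff 0 = 1 := by
    have h4 := congrArg (fun f : ℤ[X] => f.coeff 0) hv
    simp only [coeff_sub, hp3, hg0] at h4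
    rw [show (2 : ℤ[X]) = C 2 from rfl, coeff_C_mul] at h4
    omega
  have hs1 : s = 1 := by
    have h4 := H78.const_of_roots s (Or.inl hs0) (fun z h5 => by
      by_contra hle
      push Not at hle
      apply hz z hle
      have h6 : (p.map (Coef.emb : ℤ →+* ℂ)).eval z =
          (((3 + 2 * tO t n) : ℤ[X]).map (Coef.emb : ℤ →+* ℂ)).eval z *
            (s.map (Coef.emb : ℤ →+* ℂ)).eval z := by
        rw [← eval_mul, ← Polynomial.map_mul, ← hps]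
      rw [h6]
      have h7 : (s.map (Coef.emb : ℤ →+* ℂ)).eval z = 0 := h5
      rw [h7, mul_zero])
    rw [h4, hs0, C_1]
  obtain ⟨k, r, hk, hr⟩ := tO_two hZf hEv hLin h.nn (by
    have h4 := h.t0
    rw [embZ'] at h4
    exact_mod_cast h4) n
  left
  refine ⟨k, 2 * r, 2 * r, hk, ?_, ?_⟩
  · rw [hps, hs1, hr, mul_one, C_mul, h2]
    have h4 : (C (((3 : ℕ) : ℤ)) : ℤ[X]) = 3 := rfl
    rw [h4]; ring
  · have h4 : g = p - 2 * s := by rw [← hv]; ring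
    rw [h4, hps, hs1, hr, mul_one, C_mul, h2]
    ring

/-- **TYPE S.** -/
theorem type_s (hQc : Qc3S) (hE2 : E2S) (hNd : Nd3vS) (hDv : Dv3S) (hQm : Qm3S) (hNr : Nr3S)
    (hHp : HpgS) (hTa : Ta3S) (hUm : Um3vS) (hSt : St3S) (hSw : Sw3S) (hEv : EvRS)
    (hZ : ZfinS) (hNn : Nn3S) (hU : UnitRS) (hVZ : VZS) (hLin : E1.LinS) (hV1 : BP57.V1zS)
    {P L : Type} [Fintype P] [DecidableEq P] [AddCommGroup L] [Module.Free ℤ L]
    [Module.Finite ℤ L] {phi : L →+ (P → ℤ)} {D : AO ℤ L} {S : L} {i0 : P} {eta : (RO ℤ)ˣ}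
    {h : co phi i0 S = 1} {c : RO ℤ} {n : ℕ} {G : Fin n → AO ℤ (Ker (co phi i0))}
    (fd : FD phi D S i0 eta h c n G) (hMc : M c = 1) (hsn : (snp phi S i0 G).Nonempty)
    {w : (RO ℤ)ˣ} {p g : ℤ[X]} {N : ℕ} (hN : 3 ≤ N) (hcv : ClassV N (D.coeff 0))
    (hr : Module.finrank ℤ L + 1 = 2 * N) (hp : (w : RO ℤ) * D.coeff 0 = toLaurent p)
    (hp0 : p.coeff 0 = N) (hg : (w : RO ℤ) * ((eta : RO ℤ) * D.coeff S) = -toLaurent g)
    (hg0 : g.coeff 0 = 1) : Bpf N p g := by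
  have hN3 : (3 : ℝ) ≤ N := by exact_mod_cast hN
  obtain ⟨zp, zp1, h1⟩ := swn hQc hE2 hNd hDv hQm hNr hHp hTa hUm hSt hSw hEv hZ hNn hU hVZ fd hMc
    hsn hcv hp hg hg0 (by rw [hp0]; exact_mod_cast (by omega : N ≠ 0)) (by
      rw [hp0, embZ', embZ']
      have h3 : (starRingEnd ℂ) ((((N : ℤ) - 1 : ℤ)) : ℂ) = ((((N : ℤ) - 1 : ℤ)) : ℂ) :=
        Complex.conj_eq_iff_real.mpr ⟨(((N : ℤ) - 1 : ℤ) : ℝ), by push_cast; rfl⟩
      have h4 : ((N : ℤ) : ℂ) * ((((N : ℤ) - 1 : ℤ)) : ℂ) = (((N : ℝ) * ((N : ℝ) - 1) : ℝ) : ℂ) := by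
        push_cast; ring
      rw [h3, h4, Complex.ofReal_re, Complex.norm_intCast]
      push_cast
      rw [abs_of_nonneg (by linarith : (0 : ℝ) ≤ (N : ℝ) - 1)]
      nlinarith) (by rw [hp0]; exact_mod_cast (by omega : N ≠ 2))
  rcases h1 with ⟨zg, D1, b1, e1, hDD, hR, hc0, hcl⟩ | ⟨t, n', c', hex⟩
  · rcases hV1 P L phi D1 b1 e1 0 p g N hDD (by omega) hR hc0 hcl zp zg hg0 hp0 hr with
      ⟨h2, h3⟩ | ⟨d, u, hd, -, ⟨h2, h3⟩ | ⟨h2, h3⟩⟩
    · left
      exact ⟨1, 0, 0, le_rfl, by rw [h3]; simp, by rw [h2]; simp⟩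
    · left
      exact ⟨d, u, 0, hd, h3, by rw [h2]; simp⟩
    · left
      refine ⟨d, -(((N : ℤ) - 1) * u), -u, hd, ?_, ?_⟩
      · rw [h3, C_neg]; ring
      · rw [h2, C_neg]; ring
  · exact exhZ hZ hEv hLin hex hN hp0 hg0 zp1

end Pool.Agent.B5.BP90
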