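import Pool.Agent.Lib.MP_b5021c_nt.BP.H90.SwpF
import Pool.Agent.Lib.MP_b5021c_nt.BP.H90.Ts
import Pool.Agent.Lib.MP_b5021c_nt.BP.H57.Ofac
import Pool.Agent.Lib.MP_b5021c_nt.UF.H83.Ns
import Pool.Agent.Lib.MP_b5021c_nt.O1.H12.Dvk
import Pool.Agent.Lib.MP_b5021c_nt.IfaceBPR

/-!
# MP_b5021c_nt, ALL THETA, BpS: row TYS (helper90)

A binomial divisor at the good load of a unit ray of an element of class `V(N)`, rank `2N - 1`,
`N ≥ 3`: the pair of the two coefficients is of TYPE S. The integer content of the closing is one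
(`K1S`), so the masses are integral for every content (`dvK` and Gauss).
-/

namespace Pool.Agent.B5.BP90

open Polynomial Metric Pool.Agent.B5 Pool.Agent.B5.BPR
open scoped Topology ComplexConjugate LaurentPolynomial

set_option linter.unusedSectionVars false

/-! ### Gauss -/

theorem prime_CL {l : ℤ} (hl : Prime l) : Prime (LaurentPolynomial.C l : RO ℤ) := by
  have hl0 : (LaurentPolynomial.C l : RO ℤ) ≠ 0 := by
    intro h
    have h1 := congrArg (fun p : RO ℤ => p.coeff 0) h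
    simp only [LaurentPolynomial.C_apply] at h1
    exact hl.ne_zero (by simpa using h1)
  have hdv : ∀ (k : ℤ) (a : ℤ[X]), (LaurentPolynomial.C l : RO ℤ) ∣
      LaurentPolynomial.T k * toLaurent a ↔ C l ∣ a := by
    intro k a
    constructor
    · rintro ⟨z, hz⟩
      rw [C_dvd_iff_dvd_coeff]
      intro i
      have h1 : (toLaurent a : RO ℤ) = LaurentPolynomial.C l * (LaurentPolynomial.T (-k) * z) := by
        have h2 := congrArg (fun p : RO ℤ => LaurentPolynomial.T (-k) * p) hz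
        simp only [← mul_assoc, ← LaurentPolynomial.T_add, neg_add_cancel,
          LaurentPolynomial.T_zero, one_mul] at h2
        rw [h2]
        ring
      have h2 := congrArg (fun p : RO ℤ => p.coeff (i : ℤ)) h1
      simp only [H78.toLaurent_coeff] at h2
      rw [if_pos (Int.natCast_nonneg i), Int.toNat_natCast] at h2
      rw [h2]
      refine ⟨(LaurentPolynomial.T (-k) * z).coeff (i : ℤ), ?_⟩
      have h3 : (LaurentPolynomial.C l : RO ℤ) = AddMonoidAlgebra.single 0 l := rfl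
      rw [h3, AddMonoidAlgebra.coeff_single_zero_mul]
    · rintro ⟨z, rfl⟩
      rw [map_mul, toLaurent_C]
      exact ⟨LaurentPolynomial.T k * toLaurent z, by ring⟩
  refine ⟨hl0, ?_, ?_⟩
  · intro hu
    have h1 : (LaurentPolynomial.C l : RO ℤ) ∣ LaurentPolynomial.T 0 * toLaurent (1 : ℤ[X]) := by
      rw [map_one, mul_one, LaurentPolynomial.T_zero]
      exact hu.dvd
    rw [hdv, C_dvd_iff_dvd_coeff] at h1
    have h2 := h1 0
    rw [coeff_one_zero] at h2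
    exact hl.not_unit (isUnit_of_dvd_one h2)
  · intro x y hxy
    by_cases hx : x = 0
    · left; rw [hx]; exact dvd_zero _
    by_cases hy : y = 0
    · right; rw [hy]; exact dvd_zero _
    obtain ⟨i, a, -, rfl⟩ := H70.normalO x hx
    obtain ⟨j, b, -, rfl⟩ := H70.normalO y hy
    have h1 : LaurentPolynomial.T i * toLaurent a * (LaurentPolynomial.T j * toLaurent b) =
        (LaurentPolynomial.T (i + j) * toLaurent (a * b) : RO ℤ) := by
      rw [LaurentPolynomial.T_add, map_mul]; ring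
    rw [h1, hdv] at hxy
    rw [hdv, hdv]
    exact (Polynomial.prime_C_iff.mpr hl).dvd_or_dvd hxy

/-- Gauss: `k x = g y` with `g` primitive. -/
theorem gaussk {g : RO ℤ} (hg : ∀ l : ℤ, Prime l → ¬ (LaurentPolynomial.C l : RO ℤ) ∣ g)
    (k : ℕ) (hk : k ≠ 0) : ∀ x y : RO ℤ, LaurentPolynomial.C (k : ℤ) * x = g * y →
      (LaurentPolynomial.C (k : ℤ) : RO ℤ) ∣ y := by
  induction k using Nat.recOnMul with
  | zero => exact absurd rfl hk
  | one =>
    intro x y _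
    exact (by simp : IsUnit (LaurentPolynomial.C ((1 : ℕ) : ℤ) : RO ℤ)).dvd
  | prime p hp =>
    intro x y h
    have hp' := prime_CL (Nat.prime_iff_prime_int.mp hp)
    rcases hp'.dvd_or_dvd (Dvd.intro _ h) with h1 | h1
    · exact absurd h1 (hg _ (Nat.prime_iff_prime_int.mp hp))
    · exact h1
  | mul a b ha hb =>
    intro x y h
    have ha0 : a ≠ 0 := left_ne_zero_of_mul hk
    have hb0 : b ≠ 0 := right_ne_zero_of_mul hk
    have hab : (LaurentPolynomial.C ((a * b : ℕ) : ℤ) : RO ℤ) =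
        LaurentPolynomial.C (a : ℤ) * LaurentPolynomial.C (b : ℤ) := by
      rw [Nat.cast_mul, map_mul]
    rw [hab, mul_assoc] at h
    obtain ⟨y', rfl⟩ := ha ha0 _ y h
    have hC : (LaurentPolynomial.C (a : ℤ) : RO ℤ) ≠ 0 := by
      intro h0
      have h1 := congrArg (fun p : RO ℤ => p.coeff 0) h0
      simp only [LaurentPolynomial.C_apply] at h1
      exact ha0 (by exact_mod_cast (by simpa using h1 : (a : ℤ) = 0))
    obtain ⟨y'', rfl⟩ := hb hb0 x y' (mul_left_cancel₀ hC (by rw [h]; ring))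
    rw [hab]
    exact ⟨y'', by ring⟩

/-- The exhausted case over `ℤ`. -/
theorem exhZ3 (hZf : ZfinS) (hEv : EvRS) (hLin : E1.LinS) {t : RO ℤ} {p g : ℤ[X]} {n : ℕ}
    {c : ℝ} {N : ℕ} (h : Exh t p (p - g) n c) (hN : 3 ≤ N) (hp0 : p.coeff 0 = N)
    (hg0 : g.coeff 0 = 1)
    (hz : ∀ z : ℂ, ‖z‖ ≤ 1 → (p.map (Coef.emb : ℤ →+* ℂ)).eval z ≠ 0) :
    N = 3 ∧ ∃ (d : ℕ) (r : ℤ), 1 ≤ d ∧ p = 3 + C (2 * r) * X ^ d ∧
      g = 1 + C (2 * r) * X ^ d := by
  have hN3 : N = 3 := by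
    have h1 := h.eq0
    rw [coeff_sub, hp0, hg0, embZ', embZ'] at h1
    have h2 : (((N : ℤ) : ℂ) * (starRingEnd ℂ) ((((N : ℤ) - 1 : ℤ)) : ℂ)).re =
        (N : ℝ) * ((N : ℝ) - 1) := by
      have h3 : (starRingEnd ℂ) ((((N : ℤ) - 1 : ℤ)) : ℂ) = ((((N : ℤ) - 1 : ℤ)) : ℂ) :=
        Complex.conj_eq_iff_real.mpr ⟨(((N : ℤ) - 1 : ℤ) : ℝ), by push_cast; rfl⟩
      rw [h3]
      have h4 : ((N : ℤ) : ℂ) * ((((N : ℤ) - 1 : ℤ)) : ℂ) = (((N : ℝ) * ((N : ℝ) - 1) : ℝ) : ℂ) := by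
        push_cast; ring
      rw [h4, Complex.ofReal_re]
    have h5 : ‖((((N : ℤ) - 1 : ℤ)) : ℂ)‖ = (N : ℝ) - 1 := by
      rw [Complex.norm_intCast]
      push_cast
      rw [abs_of_nonneg]
      have : (3 : ℝ) ≤ N := by exact_mod_cast hN
      linarith
    rw [h2, h5] at h1
    have h6 : (3 : ℝ) ≤ N := by exact_mod_cast hN
    have h7 : ((N : ℝ) - 1) * (N - 3) = 0 := by nlinarith
    rcases mul_eq_zero.mp h7 with h8 | h8
    · linarith
    · have : (N : ℝ) = 3 := by linarith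
      exact_mod_cast this
  subst hN3
  have hp3 : p.coeff 0 = 3 := by rw [hp0]; norm_num
  have heq := h.eq
  have hc0 : c = 0 := by
    have h1 := congrArg (fun f : ℂ[X] => f.coeff 0) heq
    simp only [mul_coeff_zero, coeff_C_zero, coeff_add, coeff_map, tO_coeff0, coeff_sub, hp3,
      hg0, map_zero, mul_zero, add_zero] at h1
    rw [embZ', embZ'] at h1
    have h2 := congrArg Complex.im h1
    simp at h2
    linarith
  have hmain : C 2 * p = (C 3 + C 2 * tO t n) * (p - g) := by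
    apply Polynomial.map_injective (Coef.emb : ℤ →+* ℂ) emb_inj
    rw [Polynomial.map_mul, Polynomial.map_mul, Polynomial.map_add, Polynomial.map_mul, map_C,
      map_C]
    have e2 : (Coef.emb (2 : ℤ) : ℂ) = 2 := by rw [embZ']; norm_num
    have e3 : (Coef.emb (3 : ℤ) : ℂ) = 3 := by rw [embZ']; norm_num
    rw [e2, e3, heq, hc0]
    simp
  obtain ⟨s, hs⟩ : ∃ s : ℤ[X], s = p - tO t n * (p - g) - (p - g) := ⟨_, rfl⟩
  have h2 : (C 2 : ℤ[X]) = 2 := rfl
  have h3 : (C 3 : ℤ[X]) = 3 := rfl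
  rw [h2, h3] at hmain
  have hv : p - g = 2 * s := by
    rw [hs]
    linear_combination (-1 : ℤ[X]) * hmain
  have hps : p = (3 + 2 * tO t n) * s := by
    have h4 : (2 : ℤ[X]) * p = 2 * ((3 + 2 * tO t n) * s) := by
      rw [hmain, hv]; ring
    exact mul_left_cancel₀ two_ne_zero h4
  have hs0 : s.coeff 0 = 1 := by
    have h4 := congrArg (fun f : ℤ[X] => f.coeff 0) hv
    simp only [coeff_sub, hp3, hg0] at h4
    rw [show (2 : ℤ[X]) = C 2 from rfl, coeff_C_mul] at h4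
    omega
  have hs1 : s = 1 := by
    have h4 := H78.const_of_roots s (Or.inl hs0) (fun z h5 => by
      by_contra hle
      push Not at hle
      apply hz z hle
      have h6 : (p.map (Coef.emb : ℤ →+* ℂ)).eval z =
          (((3 + 2 * tO t n) : ℤ[X]).map (Coef.emb : ℤ →+* ℂ)).eval z *
            (s.map (Coef.emb : ℤ →+* ℂ)).eval z := by
        rw [← eval_mul, ← Polynomial.map_mul, ← hps]
      rw [h6]
      have h7 : (s.map (Coef.emb : ℤ →+* ℂ)).eval z = 0 := h5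
      rw [h7, mul_zero])
    rw [h4, hs0, C_1]
  obtain ⟨k, r, hk, hr⟩ := tO_two hZf hEv hLin h.nn (by
    have h4 := h.t0
    rw [embZ'] at h4
    exact_mod_cast h4) n
  refine ⟨rfl, k, r, hk, ?_, ?_⟩
  · rw [hps, hs1, hr, mul_one, C_mul, h2]
    ring
  · have h4 : g = p - 2 * s := by rw [← hv]; ring
    rw [h4, hps, hs1, hr, mul_one, C_mul, h2]
    ring


/-! ### A binomial divisor gives a small factor -/

/-- A closing with a binomial divisor has a small factor. -/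
theorem small_of_bin (hG0 : G0S) (hU : UnitAS) (hMin : MinS) (hC1 : C1bS) (hMm : MmulS)
    {P L : Type} [Fintype P] [DecidableEq P] [AddCommGroup L] [Module.Free ℤ L]
    [Module.Finite ℤ L] {phi : L →+ (P → ℤ)} {E : AO ℤ L} {S : L} {i0 : P}
    {h : co phi i0 S = 1} {eta : (RO ℤ)ˣ} {c : RO ℤ} {n : ℕ}
    {G : Fin n → AO ℤ (Ker (co phi i0))} (fd : FD phi E S i0 eta h c n G)
    {b : Ker (co phi i0)} (hb : b ≠ 0) {e : (RO ℤ)ˣ}
    (hd : (1 - AddMonoidAlgebra.single b (e : RO ℤ)) ∣ cl (co phi i0) S h eta E) :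
    ∃ j, ¬ 1 < M ((G j).coeff 0) := by
  classical
  by_contra hcon
  push Not at hcon
  have : UniqueFactorizationMonoid (AO ℤ (Ker (co phi i0))) :=
    H25.Bch.ufdL ℤ (Ker (co phi i0))
  obtain ⟨lam, hlam, hlb⟩ := Uf.exists_lam hG0 (h := h) fd.cc b hb
  set x : AO ℤ (Ker (co phi i0)) := 1 - AddMonoidAlgebra.single b (e : RO ℤ) with hx
  have hx1 : x.coeff 0 = 1 := by
    rw [hx, Uf.bin_coeff, if_pos rfl, if_neg (Ne.symm hb), sub_zero]
  have hx0 : x ≠ 0 := by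
    intro h0
    rw [h0] at hx1
    exact zero_ne_one hx1
  have hxp : Prim x := by
    intro a ha
    have h1 := (H96.cst_dvd_iff a x).mp ha 0
    rw [hx1] at h1
    exact isUnit_of_dvd_one h1
  have hxu : ¬ IsUnit x := by
    intro hu
    obtain ⟨a, d, -, hxa⟩ := (hU ℤ _ x).1 hu
    have h2 : x.coeff b = -(e : RO ℤ) := by
      rw [hx, Uf.bin_coeff, if_neg hb, if_pos rfl, zero_sub]
    have h1 := hx1
    rw [hxa, AddMonoidAlgebra.coeff_single, Finsupp.single_apply] at h1 h2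
    by_cases h3 : a = 0
    · rw [if_neg (by rw [h3]; exact Ne.symm hb)] at h2
      exact neg_ne_zero.2 e.ne_zero h2.symm
    · rw [if_neg h3] at h1
      exact zero_ne_one h1
  rw [fd.eq] at hd
  have hd2 := hC1 ℤ _ _ _ _ hxp fd.c0 hd
  obtain ⟨y, hyi, hyx⟩ := WfDvdMonoid.exists_irreducible_factor hxu hx0
  have hyp : Prime y := UniqueFactorizationMonoid.irreducible_iff_prime.1 hyi
  obtain ⟨j, -, hj⟩ := (hyp.dvd_finsetProd_iff _).1 (hyx.trans hd2)
  have haj : Associated y (G j) := hyi.associated_of_dvd (fd.irr j) hj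
  obtain ⟨H, hH⟩ : G j ∣ x := (haj.symm.dvd).trans hyx
  have hfull := fd.full j lam hlam
  have hnu : ¬ IsUnit ((G j).coeff 0) := by
    intro hu
    have hbig := hcon j
    rw [(hMm ℤ).2.2 _ hu] at hbig
    exact lt_irrefl _ hbig
  rcases lt_or_gt_of_ne hlb with hneg | hpos
  · apply hnu
    have h1 : 0 < lam (-b) := by
      rw [map_neg]
      omega
    refine Uf.low_unit hMin hfull.2.1 hfull.1 h1 (H := -(AddMonoidAlgebra.single (-b)
      ((e⁻¹ : (RO ℤ)ˣ) : RO ℤ)) * H) (e := ((e⁻¹ : (RO ℤ)ˣ) : RO ℤ)) ?_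
    have h2 : -(AddMonoidAlgebra.single (-b) ((e⁻¹ : (RO ℤ)ˣ) : RO ℤ)) * H * G j =
        -(AddMonoidAlgebra.single (-b) ((e⁻¹ : (RO ℤ)ˣ) : RO ℤ)) * x := by
      rw [hH]
      ring
    have h3 : (AddMonoidAlgebra.single (-b) ((e⁻¹ : (RO ℤ)ˣ) : RO ℤ) : AO ℤ (Ker (co phi i0))) *
        AddMonoidAlgebra.single b (e : RO ℤ) = 1 := by
      rw [AddMonoidAlgebra.single_mul_single, neg_add_cancel, Units.inv_mul,
        ← AddMonoidAlgebra.one_def]
    rw [h2, hx]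
    linear_combination h3
  · apply hnu
    refine Uf.low_unit hMin hfull.2.1 hfull.1 hpos (H := H) (e := (e : RO ℤ)) ?_
    rw [← hx, hH]
    ring

/-! ### The divisibility for a primitive content -/

theorem cstm_apply {L : Type} [AddCommGroup L] [Module.Free ℤ L] [Module.Finite ℤ L]
    (k : ℤ) (z : Circle) (u : AddChar L Circle) (F : AO ℤ L) :
    ev z u (cst (LaurentPolynomial.C k) * F) = (k : ℂ) * ev z u F := by
  rw [H20.ev_cst_mul]
  congr 1
  unfold evR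
  rw [LaurentPolynomial.eval₂_C]
  rfl

/-- The divisibility, the integer content is one. -/
theorem dvf_of (hQp : Qp3S) (hNn : Nn3S) (hKe : KerEvS) (hMm : MmulS) (hMV : MVS) (hE1 : E1S)
    (hDb : Db3S) (hEv : EvRS) (hZ : ZfinS) {P L : Type} [Fintype P] [DecidableEq P]
    [AddCommGroup L] [Module.Free ℤ L] [Module.Finite ℤ L] {phi : L →+ (P → ℤ)} {D : AO ℤ L}
    {S : L} {i0 : P} {eta : (RO ℤ)ˣ} {h : co phi i0 S = 1} {c : RO ℤ} {n : ℕ}
    {G : Fin n → AO ℤ (Ker (co phi i0))} (fd : FD phi D S i0 eta h c n G) {N : ℝ}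
    (hcv : ClassV N (D.coeff 0 + (eta : RO ℤ) * D.coeff S))
    (hc : ∀ l : ℤ, Prime l → ¬ (LaurentPolynomial.C l : RO ℤ) ∣ c) :
    Dvf phi D S i0 eta h c n G := by
  classical
  intro l b j e hj q hq m v hv hd
  have hg0 : c * (G l).coeff 0 ≠ 0 := mul_ne_zero hq.fd.c0 hq.sp.u0.ne_zero
  have hv0 : D.coeff 0 + (eta : RO ℤ) * D.coeff S =
      c * (G l).coeff 0 * ∏ i ∈ Finset.univ.erase l, (G i).coeff 0 := by
    rw [hq.fd.v00, mul_assoc, Finset.mul_prod_erase Finset.univ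
      (fun i => (G i).coeff 0) (Finset.mem_univ l)]
  have hcv' := hcv
  rw [hv0] at hcv'
  obtain ⟨N1, -, hN1, -, -⟩ := (hE1 ℤ).1 _ _ _ hcv'
  obtain ⟨k, F, hk, -, hkF, hF⟩ := O1.H12.dvK hNn hKe hMm hMV hE1 hDb hEv hZ q
    (c * (G l).coeff 0) (∏ i ∈ Finset.univ.erase l, (G i).coeff 0) hq.q0 hg0 N1 hN1 hq.rq
    (hQp ℤ P L phi D S i0 eta h c n G l b j e hj q hq) m v (by rw [← hv0, hv]) hd
  have hgp : ∀ l' : ℤ, Prime l' → ¬ (LaurentPolynomial.C l' : RO ℤ) ∣ c * (G l).coeff 0 := by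
    intro l' hl' h1
    exact hc l' hl' ((hq.sp.u0.dvd_mul_right).mp h1)
  have hkd : cst (LaurentPolynomial.C (k : ℤ) : RO ℤ) ∣ F := by
    rw [H96.cst_dvd_iff]
    intro a
    have h1 := congrArg (fun F : AO ℤ (Ker (co (phK phi (co phi i0)) j)) => F.coeff a) hkF
    simp only [H71.cst_mul_coeff] at h1
    exact gaussk hgp k (by omega) _ _ h1
  obtain ⟨F', hF'⟩ := hkd
  have hkC : (cst (LaurentPolynomial.C (k : ℤ) : RO ℤ) :
      AO ℤ (Ker (co (phK phi (co phi i0)) j))) ≠ 0 := by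
    intro h0
    have h1 := congrArg (fun F : AO ℤ (Ker (co (phK phi (co phi i0)) j)) =>
      (F.coeff 0).coeff 0) h0
    simp only [cst, AddMonoidAlgebra.coeff_single, Finsupp.single_eq_same,
      LaurentPolynomial.C_apply] at h1
    have h2 : (k : ℤ) = 0 := by simpa using h1
    omega
  refine ⟨F', ?_, ?_⟩
  · apply mul_left_cancel₀ hkC
    rw [hkF, hF']
    ring
  · intro z u
    have h1 := hF z u
    rw [hF', cstm_apply] at h1
    have hkp : (0 : ℝ) < (k : ℝ) := by exact_mod_cast hk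
    have h2 : (((k : ℤ) : ℂ)) = (((k : ℝ)) : ℂ) := by push_cast; rfl
    rw [h2, Complex.im_ofReal_mul, Complex.re_ofReal_mul] at h1
    exact ⟨(mul_eq_zero.mp h1.1).resolve_left hkp.ne', nonneg_of_mul_nonneg_right h1.2 hkp⟩

/-- TYPE S for a primitive content. -/
theorem type_sF (hQc : Qc3S) (hE2 : E2S) (hNd : Nd3vS) (hQm : Qm3S) (hNr : Nr3S)
    (hHp : HpgS) (hTa : Ta3S) (hUm : Um3vS) (hSt : St3S) (hSw : Sw3S) (hEv : EvRS)
    (hZ : ZfinS) (hNn : Nn3S) (hU : UnitRS) (hVZ : VZS) (hLin : E1.LinS) (hV1 : BP57.V1zS)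
    {P L : Type} [Fintype P] [DecidableEq P] [AddCommGroup L] [Module.Free ℤ L]
    [Module.Finite ℤ L] {phi : L →+ (P → ℤ)} {D : AO ℤ L} {S : L} {i0 : P} {eta : (RO ℤ)ˣ}
    {h : co phi i0 S = 1} {c : RO ℤ} {n : ℕ} {G : Fin n → AO ℤ (Ker (co phi i0))}
    (fd : FD phi D S i0 eta h c n G) (hDv : Dvf phi D S i0 eta h c n G)
    (hsn : (snp phi S i0 G).Nonempty)
    {w : (RO ℤ)ˣ} {p g : ℤ[X]} {N : ℕ} (hN : 3 ≤ N) (hcv : ClassV N (D.coeff 0))
    (hr : Module.finrank ℤ L + 1 = 2 * N) (hp : (w : RO ℤ) * D.coeff 0 = toLaurent p)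
    (hp0 : p.coeff 0 = N) (hg : (w : RO ℤ) * ((eta : RO ℤ) * D.coeff S) = -toLaurent g)
    (hg0 : g.coeff 0 = 1) : TyC N p g := by
  have hN3 : (3 : ℝ) ≤ N := by exact_mod_cast hN
  obtain ⟨zp, zp1, h1⟩ := swnF hQc hE2 hNd hQm hNr hHp hTa hUm hSt hSw hEv hZ hNn hU hVZ fd hDv
    hsn hcv hp hg hg0 (by rw [hp0]; exact_mod_cast (by omega : N ≠ 0)) (by
      rw [hp0, embZ', embZ']
      have h3 : (starRingEnd ℂ) ((((N : ℤ) - 1 : ℤ)) : ℂ) = ((((N : ℤ) - 1 : ℤ)) : ℂ) :=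
        Complex.conj_eq_iff_real.mpr ⟨(((N : ℤ) - 1 : ℤ) : ℝ), by push_cast; rfl⟩
      have h4 : ((N : ℤ) : ℂ) * ((((N : ℤ) - 1 : ℤ)) : ℂ) = (((N : ℝ) * ((N : ℝ) - 1) : ℝ) : ℂ) := by
        push_cast; ring
      rw [h3, h4, Complex.ofReal_re, Complex.norm_intCast]
      push_cast
      rw [abs_of_nonneg (by linarith : (0 : ℝ) ≤ (N : ℝ) - 1)]
      nlinarith) (by rw [hp0]; exact_mod_cast (by omega : N ≠ 2))
  rcases h1 with ⟨zg, D1, b1, e1, hDD, hR, hc0, hcl⟩ | ⟨t, n', c', hex⟩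
  · rcases hV1 P L phi D1 b1 e1 0 p g N hDD (by omega) hR hc0 hcl zp zg hg0 hp0 hr with
      ⟨h2, h3⟩ | ⟨d, u, hd, hu, ⟨h2, h3⟩ | ⟨h2, h3⟩⟩
    · exact Or.inl ⟨h2, h3⟩
    · exact Or.inr (Or.inl ⟨d, u, hd, hu, h2, h3⟩)
    · exact Or.inr (Or.inr (Or.inl ⟨d, u, hd, hu, h2, h3⟩))
  · exact Or.inr (Or.inr (Or.inr (exhZ3 hZ hEv hLin hex hN hp0 hg0 zp1)))

/-- The closing of a unit ray is of class `V(N - 1)`. -/
theorem cv_closing (hE2 : E2S) (hEv : EvRS) (hU : UnitRS) (hVZ : VZS) {P L : Type} [Fintype P]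
    [DecidableEq P] [AddCommGroup L] [Module.Free ℤ L] [Module.Finite ℤ L] {phi : L →+ (P → ℤ)}
    {E : AO ℤ L} {N : ℕ} {p f : ℤ[X]} {S : L} {i : P} {e : (RO ℤ)ˣ} (hX : Xt N p phi E)
    (hl : Gl phi E S i e f) (hf : f.coeff 0 = 1) :
    ClassV ((N : ℝ) - 1) (E.coeff 0 + (e : RO ℤ) * E.coeff S) := by
  have h2 : 2 ≤ Module.finrank ℤ L := by have := hX.rkL; have := hX.n3; omega
  obtain ⟨d0, -, -, -, -, edge⟩ := hE2 ℤ P L phi E hX.dd h2
  obtain ⟨eS, ne⟩ := edge S hl.ray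
  have hq0 : p.coeff 0 ≠ 0 := by
    rw [hX.p0]; have := hX.n3; omega
  obtain ⟨zq, -⟩ := BP57.zf_of_unit hU (w := 1) hX.cv (by rw [hX.e0, Units.val_one, one_mul]) hq0
  have evq : ∀ z : Circle, ‖(p.map (Coef.emb : ℤ →+* ℂ)).eval (z : ℂ)‖ =
      ‖evR z (E.coeff 0)‖ := by
    intro z
    rw [← H07.evR_toLaurent, ← hX.e0]
  have evg : ∀ z : Circle, ‖(f.map (Coef.emb : ℤ →+* ℂ)).eval (z : ℂ)‖ =
      ‖evR z (E.coeff S)‖ := by
    intro z
    rw [← H07.evR_toLaurent, ← norm_neg, ← map_neg, ← hl.eq, map_mul, norm_mul,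
      (hEv ℤ).2.1 z _ e.isUnit, one_mul]
  have mk : ∀ z : ℂ, ‖z‖ = 1 → ∃ w : Circle, (w : ℂ) = z := fun z hz =>
    ⟨⟨z, mem_sphere_zero_iff_norm.mpr hz⟩, rfl⟩
  have qz : ∀ z : ℂ, ‖z‖ ≤ 1 → (p.map (Coef.emb : ℤ →+* ℂ)).eval z ≠ 0 := by
    intro z hz
    rcases hz.lt_or_eq with h1 | h1
    · exact zq z h1
    · obtain ⟨w', rfl⟩ := mk z h1
      intro h2
      have h3 := evq w'
      rw [h2, norm_zero] at h3
      exact d0 w' (norm_eq_zero.mp h3.symm)
  have hlt := hVZ (p.map (Coef.emb : ℤ →+* ℂ)) (f.map (Coef.emb : ℤ →+* ℂ)) qz (by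
      intro z hz
      obtain ⟨w', rfl⟩ := mk z hz
      rw [evq, evg]
      exact eS w') (by
      obtain ⟨z, hz⟩ := ne
      exact ⟨z, by simp, by rw [evq, evg]; exact hz⟩)
  have hN3 : (3 : ℝ) ≤ N := by exact_mod_cast hX.n3
  refine ⟨by linarith, 0, p - f, ?_, ?_, ?_⟩
  · rw [LaurentPolynomial.T_zero, one_mul, hX.e0, hl.eq, map_sub]
    ring
  · rw [coeff_sub, hX.p0, hf, embZ', Complex.norm_intCast]
    push_cast
    rw [abs_of_nonneg (by linarith)]
  · intro z hz h1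
    rw [Polynomial.map_sub, eval_sub, sub_eq_zero] at h1
    have h2 := hlt z hz
    rw [h1] at h2
    exact lt_irrefl _ h2

/-- **(BPR_TS).** -/
theorem tysS (hK1 : K1S) (hQc : Qc3S) (hE2 : E2S) (hNd : Nd3vS) (hQm : Qm3S) (hNr : Nr3S)
    (hHp : HpgS) (hTa : Ta3S) (hUm : Um3vS) (hSt : St3S) (hSw : Sw3S) (hEv : EvRS)
    (hZ : ZfinS) (hNn : Nn3S) (hU : UnitRS) (hVZ : VZS) (hLin : E1.LinS) (hV1 : BP57.V1zS)
    (hFD : FDS) (hG0 : G0S) (hUA : UnitAS) (hMin : MinS) (hC1 : C1bS) (hMm : MmulS)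
    (hQp : Qp3S) (hKe : KerEvS) (hMV : MVS) (hE1 : E1S) (hDb : Db3S) : TysS := by
  intro P L _ _ _ _ _ phi E N p f S i e hX hl hf hI hnb
  classical
  have h := hl.po
  obtain ⟨b, e', hb, hdv⟩ : ∃ (b : Ker (co phi i)) (e' : (RO ℤ)ˣ), b ≠ 0 ∧
      (1 - AddMonoidAlgebra.single b (e' : RO ℤ)) ∣ cl (co phi i) S h e E := by
    by_contra hcon
    push Not at hcon
    exact hnb fun h b e' hb => hcon b e' hb
  have hcv := cv_closing hE2 hEv hU hVZ hX hl hf
  have hN3 : (3 : ℝ) ≤ N := by exact_mod_cast hX.n3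
  have hV0 : E.coeff 0 + (e : RO ℤ) * E.coeff S ≠ 0 := by
    intro h0
    rw [h0] at hcv
    obtain ⟨-, n, q, hq, hqN, -⟩ := hcv
    have h1 : (toLaurent q : RO ℤ) = 0 := by
      have h2 := congrArg (fun p : RO ℤ => LaurentPolynomial.T (-n) * p) hq
      simp only [← mul_assoc, ← LaurentPolynomial.T_add, neg_add_cancel,
          LaurentPolynomial.T_zero, one_mul, mul_zero] at h2
      exact h2.symm
    have h2 : q = 0 := toLaurent_injective (h1.trans (map_zero _).symm)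
    rw [h2, coeff_zero, map_zero, norm_zero] at hqN
    linarith
  have h2 : 2 ≤ Module.finrank ℤ L := by have := hX.rkL; have := hX.n3; omega
  have hCC : CC phi E S i e := ⟨hX.dd, h2, hl.ray, h, hV0⟩
  obtain ⟨c, n, G, fd⟩ := hFD ℤ P L phi E S i e h hCC
  obtain ⟨j, hj⟩ := small_of_bin hG0 hUA hMin hC1 hMm fd hb hdv
  have hsn : (snp phi S i G).Nonempty := by
    refine ⟨j, ?_⟩
    unfold snp
    exact Finset.mem_filter.mpr ⟨Finset.mem_univ _, hj, BP57.nopureO hI fd j⟩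
  have hc : ∀ l : ℤ, Prime l → ¬ (LaurentPolynomial.C l : RO ℤ) ∣ c := by
    rintro l hl' ⟨c', rfl⟩
    have h3 := hK1 P L phi E N p f S i e h l (cst c' * ∏ i, G i) hX hl hI (by
      rw [fd.eq, H71.cst_mul, mul_assoc])
    rcases h3 with h3 | h3
    · exact hl'.not_unit (by rw [h3]; exact isUnit_one)
    · exact hl'.not_unit (by rw [h3]; exact isUnit_one.neg)
  have hDv := dvf_of hQp hNn hKe hMm hMV hE1 hDb hEv hZ fd hcv hc
  exact type_sF hQc hE2 hNd hQm hNr hHp hTa hUm hSt hSw hEv hZ hNn hU hVZ hLin hV1 fd hDv hsn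
    (w := 1) hX.n3 hX.cv hX.rkL (by rw [hX.e0, Units.val_one, one_mul]) hX.p0
    (by rw [Units.val_one, one_mul, hl.eq]) hf

end Pool.Agent.B5.BP90
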