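import Pool.Agent.Lib.MP_b5021c_nt.BP.H90.Swp
import Pool.Agent.Lib.MP_b5021c_nt.B.H96.E3St
import Pool.Agent.Lib.MP_b5021c_nt.B.H36.H1a

/-!
# MP_b5021c_nt, ALL THETA, BpS: small factors at a load next to a w-drop (helper90)

`resF`: the residue `F` of a small factor (`X = F U'` at `x = 1`). `fs_core`: if a functional kills
the closing at the load `kap * eta`, then it kills the closing at `eta`, or the two apexes are
related through a self-adjoint `t`.
-/

namespace Pool.Agent.B5.BP90

open Polynomial Metric Pool.Agent.B5 Pool.Agent.B5.H71 Pool.Agent.B5.H96 Pool.Agent.B5.H29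
open scoped Topology ComplexConjugate LaurentPolynomial
open Pool.Agent.MP_b5021c_nt (nz)

set_option linter.unusedSectionVars false

section

variable {O : Type} [CommRing O] [IsDomain O] [IsPrincipalIdealRing O]
    [Coef O] {P L : Type} [Fintype P] [DecidableEq P] [AddCommGroup L] [Module.Free ℤ L]
    [Module.Finite ℤ L]

/-- The residue at a small factor. -/
structure ResF (phi : L →+ (P → ℤ)) (D : AO O L) (S : L) (i0 : P) (eta : (RO O)ˣ)
    (h : co phi i0 S = 1) (c : RO O) (n : ℕ) (G : Fin n → AO O (Ker (co phi i0))) (l : Fin n)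
    (b : Ker (co phi i0)) (j : P) (e : (RO O)ˣ) (hj : co (phK phi (co phi i0)) j b = 1)
    (F : AO O (Ker (co (phK phi (co phi i0)) j))) : Prop where
  qc : QC phi D S i0 eta h c n G l b j e hj (cst (c * (G l).coeff 0) * F)
  nnt : NnT F
  sym : sharp F = F
  t0 : F.coeff 0 ≠ 0

/-- Existence of the residue. -/
theorem resF (hQc : Qc3S) (hE2 : E2S) (hNd : Nd3vS) (hDv : Dv3S) (hEv : EvRS) (hZ : ZfinS)
    (hNn : Nn3S) (phi : L →+ (P → ℤ)) (D : AO O L) (S : L) (i0 : P) (eta : (RO O)ˣ)
    (h : co phi i0 S = 1) (c : RO O) (n : ℕ) (G : Fin n → AO O (Ker (co phi i0)))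
    (fd : FD phi D S i0 eta h c n G) (hMc : M c = 1) (hsn : (snp phi S i0 G).Nonempty)
    (m : ℤ) (q f : O[X]) (hq : D.coeff 0 = LaurentPolynomial.T m * toLaurent q)
    (hf : (eta : RO O) * D.coeff S = LaurentPolynomial.T m * toLaurent f)
    (hqf : ZF (q.map Coef.emb)) :
    ∃ (l : Fin n) (b : Ker (co phi i0)) (j : P) (e : (RO O)ˣ)
      (hj : co (phK phi (co phi i0)) j b = 1) (F : AO O (Ker (co (phK phi (co phi i0)) j))),
      ResF phi D S i0 eta h c n G l b j e hj F := by
  obtain ⟨l, b, j, e, hj, Q, hQ⟩ := hQc O P L phi D S i0 eta h c n G fd hsn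
  obtain ⟨d0, -, -, -, -, edge⟩ := hE2 O P L phi D fd.cc.dd fd.cc.two
  have eS := (edge S fd.cc.ray).1
  set g : RO O := c * (G l).coeff 0 with hg
  have hg0 : g ≠ 0 := mul_ne_zero fd.c0 hQ.sp.u0.ne_zero
  set v : O[X] := q + f with hv
  have hV : D.coeff 0 + (eta : RO O) * D.coeff S = LaurentPolynomial.T m * toLaurent v := by
    rw [hq, hf, hv, map_add, mul_add]
  have hv0 : v ≠ 0 := T_mul_ne (m := m) (by rw [← hV]; exact fd.cc.v0)
  have hvm : v.map (Coef.emb : O →+* ℂ) ≠ 0 := by
    rw [Ne, Polynomial.map_eq_zero_iff emb_inj]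
    exact hv0
  have hvmap : v.map (Coef.emb : O →+* ℂ) = q.map (Coef.emb : O →+* ℂ) +
      f.map (Coef.emb : O →+* ℂ) := by
    rw [hv, Polynomial.map_add]
  -- values on the circle
  have evD : ∀ z : Circle, evR z (D.coeff 0) =
      (z : ℂ) ^ m * (q.map (Coef.emb : O →+* ℂ)).eval (z : ℂ) := by
    intro z
    rw [hq, ev_T_mul]
  have evS : ∀ z : Circle, evR z ((eta : RO O) * D.coeff S) =
      (z : ℂ) ^ m * (f.map (Coef.emb : O →+* ℂ)).eval (z : ℂ) := by
    intro z
    rw [hf, ev_T_mul]
  have qz1 : ∀ z : ℂ, ‖z‖ = 1 → (q.map (Coef.emb : O →+* ℂ)).eval z ≠ 0 := by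
    intro z hz
    obtain ⟨w, rfl⟩ := H93.exists_circle hz
    have h1 := d0 w
    rw [evD w] at h1
    exact right_ne_zero_of_mul h1
  have qz : ∀ z : ℂ, ‖z‖ ≤ 1 → (q.map (Coef.emb : O →+* ℂ)).eval z ≠ 0 := by
    intro z hz
    rcases hz.lt_or_eq with h1 | h1
    · exact hqf z h1
    · exact qz1 z h1
  have le1 : ∀ z : ℂ, ‖z‖ = 1 → ‖(f.map (Coef.emb : O →+* ℂ)).eval z‖ ≤
      ‖(q.map (Coef.emb : O →+* ℂ)).eval z‖ := by
    intro z hz
    obtain ⟨w, rfl⟩ := H93.exists_circle hz
    have h1 := eS w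
    have h2 : ‖evR w ((eta : RO O) * D.coeff S)‖ = ‖evR w (D.coeff S)‖ := by
      rw [map_mul, norm_mul, (hEv O).2.1 w _ eta.isUnit, one_mul]
    rw [← h2, evS w, evD w, norm_mul, norm_mul, norm_circle, one_mul, one_mul] at h1
    exact h1
  have veval : ∀ z : ℂ, (v.map (Coef.emb : O →+* ℂ)).eval z =
      (q.map (Coef.emb : O →+* ℂ)).eval z + (f.map (Coef.emb : O →+* ℂ)).eval z := by
    intro z
    rw [hv, Polynomial.map_add, eval_add]
  have re1 : ∀ z : ℂ, ‖z‖ = 1 → 0 ≤ ((v.map (Coef.emb : O →+* ℂ)).eval z *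
      (starRingEnd ℂ) ((q.map (Coef.emb : O →+* ℂ)).eval z)).re := by
    intro z hz
    rw [veval z, add_mul, Complex.add_re, Complex.mul_conj, Complex.normSq_eq_norm_sq,
      Complex.ofReal_re]
    have h1 := le1 z hz
    have h2 := Complex.abs_re_le_norm ((f.map (Coef.emb : O →+* ℂ)).eval z *
      (starRingEnd ℂ) ((q.map (Coef.emb : O →+* ℂ)).eval z))
    rw [norm_mul, Complex.norm_conj] at h2
    have h3 := (abs_le.mp h2).1
    have h4 := norm_nonneg ((q.map (Coef.emb : O →+* ℂ)).eval z)
    nlinarith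
  have nod : ∀ z0 : ℂ, ‖z0‖ = 1 → ¬ (X - C z0) ^ 2 ∣ v.map (Coef.emb : O →+* ℂ) := by
    intro z0 hz0
    exact hNd (q.map (Coef.emb : O →+* ℂ)) (v.map (Coef.emb : O →+* ℂ)) z0 qz re1 hvm hz0
  -- `g` divides `Q`
  obtain ⟨F, hF, hFn⟩ := hDv O P L phi D S i0 eta h c n G l b j e hj Q hQ hMc m v hV nod
  have hF0 : F ≠ 0 := by
    rintro rfl
    apply hQ.q0
    rw [hF, mul_zero]
  -- `F` is selfreciprocal
  have hsF : F = sharp F := by
    have hFg : Q = cst g * F := hF
    have h1 : Q * cst (rsh g) = sharp Q * cst g := hQ.rq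
    have cs : ∀ a : RO O, sharp (cst a : AO O (Ker (co (phK phi (co phi i0)) j))) =
        cst (rsh a) := by
      intro a
      rw [cst, sharp_single, neg_zero]
      rfl
    have h0 : sharp (cst g * F) = cst (rsh g) * sharp F := by rw [map_mul, cs]
    rw [hFg, h0] at h1
    have hgc : (cst g : AO O (Ker (co (phK phi (co phi i0)) j))) ≠ 0 := by
      rw [cst]
      exact AddMonoidAlgebra.single_ne_zero.mpr hg0
    have hgr : (cst (rsh g) : AO O (Ker (co (phK phi (co phi i0)) j))) ≠ 0 := by
      rw [cst]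
      exact AddMonoidAlgebra.single_ne_zero.mpr (rsh_ne hEv hZ g hg0)
    have h2 : (cst g * cst (rsh g)) * F = (cst g * cst (rsh g)) * sharp F := by
      linear_combination h1
    exact mul_left_cancel₀ (mul_ne_zero hgc hgr) h2
  have FnC : ∀ z : Circle, spec z F ≠ 0 → 0 < (evR z (F.coeff 0)).re := by
    intro z hz
    have h1 := (hNn _ (spec z F) hz (fun u => hFn z u)).1
    rw [spec_coeff] at h1
    exact h1
  have tne : F.coeff 0 ≠ 0 := by
    intro h0
    have hex : ∃ a, F.coeff a ≠ 0 := by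
      by_contra hcon
      apply hF0
      apply AddMonoidAlgebra.coeff_injective
      apply Finsupp.ext
      intro a
      by_contra h1
      exact hcon ⟨a, h1⟩
    obtain ⟨a, ha⟩ := hex
    have hex2 : ∃ z : Circle, evR z (F.coeff a) ≠ 0 := by
      by_contra hcon
      apply ha
      apply evR_zero hZ
      intro z
      by_contra h1
      exact hcon ⟨z, h1⟩
    obtain ⟨z, hz⟩ := hex2
    have h1 : spec z F ≠ 0 := by
      intro h2
      apply hz
      rw [← spec_coeff, h2]
      rfl
    have h3 := FnC z h1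
    rw [h0, map_zero] at h3
    exact lt_irrefl _ h3
  rw [hF] at hQ
  exact ⟨l, b, j, e, hj, F, hQ, hFn, hsF.symm, tne⟩

/-- The four parts of `D` at a small factor, with the residue `F`. -/
theorem ResF.parts {phi : L →+ (P → ℤ)} {D : AO O L} {S : L} {i0 : P} {eta : (RO O)ˣ}
    {h : co phi i0 S = 1} {c : RO O} {n : ℕ} {G : Fin n → AO O (Ker (co phi i0))} {l : Fin n}
    {b : Ker (co phi i0)} {j : P} {e : (RO O)ˣ} {hj : co (phK phi (co phi i0)) j b = 1}
    {F : AO O (Ker (co (phK phi (co phi i0)) j))}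
    (H : ResF phi D S i0 eta h c n G l b j e hj F) :
    ∃ U : AO O (Ker (co (phK phi (co phi i0)) j)),
      cl (co phi i0) S h eta D = (1 - AddMonoidAlgebra.single b ((e⁻¹ : (RO O)ˣ) : RO O)) *
        em (Ker (co (phK phi (co phi i0)) j)) U ∧
      ∀ r : Ker (co (phK phi (co phi i0)) j),
        (cl (co phi i0) S h eta D).coeff (r : Ker (co phi i0)) = U.coeff r ∧
        (cl (co phi i0) S h eta D).coeff ((r : Ker (co phi i0)) + b) =
          -(((e⁻¹ : (RO O)ˣ) : RO O) * U.coeff r) ∧
        D.coeff ((r : Ker (co phi i0)) : L) +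
          (e : RO O) * D.coeff (((r : Ker (co phi i0)) + b : Ker (co phi i0)) : L) =
          (F * U).coeff r := by
  have hq := H.qc
  have hD := hq.fd.cc.dd
  set g : RO O := c * (G l).coeff 0 with hg
  set U : AO O (Ker (co (phK phi (co phi i0)) j)) := cst g * Uo phi i0 j G l with hU
  have hprod : (∏ i ∈ Finset.univ.erase l, G i) =
      em (Ker (co (phK phi (co phi i0)) j)) (Uo phi i0 j G l) := by
    rw [Uo, map_prod]
    apply Finset.prod_congr rfl
    intro i hi
    rw [em_res (Ker (co (phK phi (co phi i0)) j)) (G i)]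
    intro a ha
    exact hq.sp.other i (Finset.ne_of_mem_erase hi) a ha
  have hV : cl (co phi i0) S h eta D = (1 - AddMonoidAlgebra.single b ((e⁻¹ : (RO O)ˣ) : RO O)) *
      em (Ker (co (phK phi (co phi i0)) j)) U := by
    rw [hq.fd.eq, ← Finset.mul_prod_erase Finset.univ G (Finset.mem_univ l), hprod, hU, map_mul,
      em_cst, hg, cst_mul]
    conv_lhs => rw [hq.sp.eq]
    ring
  refine ⟨U, hV, fun r => ⟨?_, ?_, ?_⟩⟩
  · rw [hV, sub_mul, one_mul, AddMonoidAlgebra.coeff_sub, Finsupp.sub_apply, em_coeff,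
      AddMonoidAlgebra.coeff_single_mul_apply, em_coeff_not, mul_zero, sub_zero]
    have hr := mem_Ker.mp r.2
    rw [mem_Ker, map_add, map_neg, hj, hr]
    norm_num
  · rw [hV, sub_mul, one_mul, AddMonoidAlgebra.coeff_sub, Finsupp.sub_apply, em_coeff_not,
      AddMonoidAlgebra.coeff_single_mul_apply, zero_sub]
    · have h1 : -b + ((r : Ker (co phi i0)) + b) = (r : Ker (co phi i0)) := by abel
      rw [h1, em_coeff]
    · have hr := mem_Ker.mp r.2
      rw [mem_Ker, map_add, hj, hr]
      norm_num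
  · have hbinX : ∀ a ∈ supp (res (Ker (co phi i0)) D), (co (phK phi (co phi i0)) j) a = 0 ∨
        (co (phK phi (co phi i0)) j) a = 1 := fun a ha => hD.bin (a : L) ha j
    have h1 := H36.clc (co (phK phi (co phi i0)) j) b hj e (res (Ker (co phi i0)) D) hbinX r
    rw [res_coeff, res_coeff] at h1
    rw [← h1]
    have h2 : cl (co (phK phi (co phi i0)) j) b hj e (res (Ker (co phi i0)) D) = F * U := by
      have h3 := hq.xe
      rw [hU]
      rw [Xl] at h3
      rw [h3]
      ring
    rw [h2]

theorem nn_zero_of_sharp {M' : Type} [AddCommGroup M'] {F : AO O M'} (hs : sharp F = F)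
    (nu : M' →+ ℤ) (h : ∀ a ∈ supp F, 0 ≤ nu a) : ∀ a ∈ supp F, nu a = 0 := by
  intro a ha
  have h1 : -a ∈ supp F := by
    intro h2
    apply ha
    have h3 := sharp_coeff' F a
    rw [hs, h2, map_zero] at h3
    exact h3
  have h2 := h a ha
  have h3 := h (-a) h1
  rw [map_neg] at h3
  omega

/-- **The core of (FS).** -/
theorem fs_core (hMin : MinS) {phi : L →+ (P → ℤ)} {D : AO O L} {S : L} {i0 : P} {eta : (RO O)ˣ}
    {h : co phi i0 S = 1} {c : RO O} {n : ℕ} {G : Fin n → AO O (Ker (co phi i0))} {l : Fin n}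
    {b : Ker (co phi i0)} {j : P} {e : (RO O)ˣ} {hj : co (phK phi (co phi i0)) j b = 1}
    {F : AO O (Ker (co (phK phi (co phi i0)) j))}
    (H : ResF phi D S i0 eta h c n G l b j e hj F) {kap : RO O} (hk : 1 - kap ≠ 0)
    {nu : L →+ ℤ} (hkill : ∀ a : Ker (co phi i0), nu (a : L) ≠ 0 →
      (1 - kap) * D.coeff (a : L) + kap * (cl (co phi i0) S h eta D).coeff a = 0) :
    (∀ a : Ker (co phi i0), nu (a : L) ≠ 0 → (cl (co phi i0) S h eta D).coeff a = 0) ∨
    ∃ t : RO O, rsh t = t ∧ (1 - kap) * (t * (cl (co phi i0) S h eta D).coeff 0) =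
      (1 - kap) * D.coeff 0 + kap * (cl (co phi i0) S h eta D).coeff 0 := by
  classical
  obtain ⟨U, hV, hp⟩ := H.parts
  obtain ⟨V, hVd⟩ : ∃ V, V = cl (co phi i0) S h eta D := ⟨_, rfl⟩
  rw [← hVd] at hV hkill ⊢
  simp only [← hVd] at hp
  have hDb := H.qc.fd.cc.dd.bin
  have hF0 : F ≠ 0 := by
    intro h0
    exact H.t0 (by rw [h0]; rfl)
  have h00 : ((0 : (Ker (co (phK phi (co phi i0)) j))) : (Ker (co phi i0))) = 0 := rfl
  have hU0 : U.coeff 0 = V.coeff 0 := by
    have := (hp 0).1
    rw [h00] at this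
    exact this.symm
  have hV0 : V.coeff 0 = D.coeff 0 + (eta : RO O) * D.coeff S :=
    by rw [hVd]; exact H96.cl_coeff_zero (co phi i0) S h eta D (fun a ha => hDb a ha i0)
  have hU0n : U.coeff 0 ≠ 0 := by
    rw [hU0, hV0]
    exact H.qc.fd.cc.v0
  have hUn : U ≠ 0 := by
    intro h0
    exact hU0n (by rw [h0]; rfl)
  set nu2 : (Ker (co (phK phi (co phi i0)) j)) →+ ℤ := (nu.comp (incl (Ker (co phi i0)))).comp (incl (Ker (co (phK phi (co phi i0)) j))) with hnu2
  have nu2v : ∀ r : (Ker (co (phK phi (co phi i0)) j)), nu2 r = nu ((r : (Ker (co phi i0))) : L) := fun r => rfl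
  have nub : ∀ r : (Ker (co (phK phi (co phi i0)) j)), nu (((r : (Ker (co phi i0))) + b : (Ker (co phi i0))) : L) = nu2 r + nu (b : L) := fun r => by
    rw [nu2v, Submodule.coe_add, map_add]
  have e0 : ∀ x : RO O, (e : RO O) * (((e⁻¹ : (RO O)ˣ) : RO O) * x) = x := fun x => by
    rw [← mul_assoc, Units.mul_inv, one_mul]
  -- the two relations
  have k1 : ∀ r : (Ker (co (phK phi (co phi i0)) j)), nu2 r ≠ 0 → (1 - kap) * D.coeff ((r : (Ker (co phi i0))) : L) + kap * U.coeff r = 0 := by
    intro r hr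
    have := hkill (r : (Ker (co phi i0))) hr
    rw [(hp r).1] at this
    exact this
  have k2 : ∀ r : (Ker (co (phK phi (co phi i0)) j)), nu2 r + nu (b : L) ≠ 0 →
      (1 - kap) * ((e : RO O) * D.coeff (((r : (Ker (co phi i0))) + b : (Ker (co phi i0))) : L)) - kap * U.coeff r = 0 := by
    intro r hr
    have h1 := hkill ((r : (Ker (co phi i0))) + b) (by rw [nub]; exact hr)
    rw [(hp r).2.1] at h1
    have h2 : (e : RO O) * ((1 - kap) * D.coeff (((r : (Ker (co phi i0))) + b : (Ker (co phi i0))) : L) +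
        kap * -(((e⁻¹ : (RO O)ˣ) : RO O) * U.coeff r)) =
        (1 - kap) * ((e : RO O) * D.coeff (((r : (Ker (co phi i0))) + b : (Ker (co phi i0))) : L)) -
          kap * ((e : RO O) * (((e⁻¹ : (RO O)ˣ) : RO O) * U.coeff r)) := by ring
    rw [h1, mul_zero, e0] at h2
    exact h2.symm
  have kFU : ∀ r : (Ker (co (phK phi (co phi i0)) j)), nu2 r ≠ 0 → nu2 r + nu (b : L) ≠ 0 → (F * U).coeff r = 0 := by
    intro r h1 h2
    have h3 : (1 - kap) * (F * U).coeff r = 0 := by
      rw [← (hp r).2.2]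
      linear_combination k1 r h1 + k2 r h2
    exact (mul_eq_zero.mp h3).resolve_left hk
  by_cases hm : nu (b : L) = 0
  · left
    have lev : ∀ a ∈ supp (F * U), nu2 a = 0 := by
      intro a ha
      by_contra h1
      exact ha (kFU a h1 (by rw [hm, add_zero]; exact h1))
    have hUlev : ∀ a ∈ supp U, nu2 a = 0 := by
      intro a ha
      have h1 := hMin O (Ker (co (phK phi (co phi i0)) j)) U F hUn H.t0 nu2 0 (fun a' ha' => by
        rw [mul_comm] at ha'
        rw [lev a' ha']) a ha
      have h2 := hMin O (Ker (co (phK phi (co phi i0)) j)) U F hUn H.t0 (-nu2) 0 (fun a' ha' => by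
        rw [mul_comm] at ha'
        rw [AddMonoidHom.neg_apply, lev a' ha', neg_zero]) a ha
      rw [AddMonoidHom.neg_apply] at h2
      omega
    intro a ha
    by_contra hne
    -- `a` has the port `j` or not
    have h1 : co (phK phi (co phi i0)) j a = 0 ∨ co (phK phi (co phi i0)) j a = 1 := by
      by_contra hcon
      apply hne
      rw [hV, sub_mul, one_mul, AddMonoidAlgebra.coeff_sub, Finsupp.sub_apply, em_coeff_not,
        AddMonoidAlgebra.coeff_single_mul_apply, em_coeff_not, mul_zero, sub_zero]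
      · rw [mem_Ker, map_add, map_neg, hj]
        intro h1
        apply hcon
        right
        omega
      · rw [mem_Ker]
        intro h1
        exact hcon (Or.inl h1)
    rcases h1 with h1 | h1
    · have h2 := (hp ⟨a, mem_Ker.mpr h1⟩).1
      have h3 : U.coeff ⟨a, mem_Ker.mpr h1⟩ ≠ 0 := by
        rw [← h2]
        exact hne
      exact ha (hUlev _ h3)
    · have h4 : a - b ∈ (Ker (co (phK phi (co phi i0)) j)) := by
        rw [mem_Ker, map_sub, hj, h1, sub_self]
      have h2 := (hp ⟨a - b, h4⟩).2.1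
      have h5 : ((⟨a - b, h4⟩ : (Ker (co (phK phi (co phi i0)) j))) : (Ker (co phi i0))) + b = a := sub_add_cancel a b
      rw [h5] at h2
      have h3 : U.coeff ⟨a - b, h4⟩ ≠ 0 := by
        intro h6
        rw [h6, mul_zero, neg_zero] at h2
        exact hne h2
      have h6 := hUlev _ h3
      apply ha
      have h7 : nu2 ⟨a - b, h4⟩ = nu (a : L) - nu (b : L) := by
        rw [nu2v]
        change nu (((a - b : (Ker (co phi i0)))) : L) = _
        rw [Submodule.coe_sub, map_sub]
      rw [h7, hm, sub_zero] at h6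
      exact h6
  · right
    -- `F` has the level zero
    have hFlev : ∀ a ∈ supp F, nu2 a = 0 := by
      rcases lt_or_gt_of_ne hm with hneg | hpos
      · have h1 := hMin O (Ker (co (phK phi (co phi i0)) j)) F U hF0 hU0n nu2 0 (fun a ha => by
          by_contra h2
          push Not at h2
          exact ha (kFU a (by omega) (by omega)))
        exact nn_zero_of_sharp H.sym nu2 h1
      · have h1 := hMin O (Ker (co (phK phi (co phi i0)) j)) F U hF0 hU0n (-nu2) 0 (fun a ha => by
          rw [AddMonoidHom.neg_apply]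
          by_contra h2
          push Not at h2
          exact ha (kFU a (by omega) (by omega)))
        intro a ha
        have h2 := nn_zero_of_sharp H.sym (-nu2) h1 a ha
        rw [AddMonoidHom.neg_apply] at h2
        omega
    -- the part of `U` of the level zero
    obtain ⟨U0, cU0⟩ : ∃ U0 : AO O (Ker (co (phK phi (co phi i0)) j)), ∀ a, U0.coeff a = if nu2 a = 0 then U.coeff a else 0 :=
      ⟨AddMonoidAlgebra.ofCoeff (U.coeff.filter fun a => nu2 a = 0), fun a =>
        Finsupp.filter_apply _ _ _⟩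
    have hU00 : U0.coeff 0 = V.coeff 0 := by
      rw [cU0, if_pos (map_zero nu2), hU0]
    have c1 : ∀ r : (Ker (co (phK phi (co phi i0)) j)), nu2 r ≠ 0 → (F * U0).coeff r = 0 := by
      intro r hr
      by_contra h1
      obtain ⟨a, ha, b', hb', hab⟩ := H96.supp_mul' F U0 r h1
      apply hr
      rw [← hab, map_add, hFlev a ha, zero_add]
      by_contra h2
      apply hb'
      rw [cU0, if_neg h2]
    have c2 : ∀ r : (Ker (co (phK phi (co phi i0)) j)), nu2 r = 0 → (F * U0).coeff r = (F * U).coeff r := by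
      intro r hr
      have h1 : F * U = F * U0 + F * (U - U0) := by ring
      have h2 : (F * (U - U0)).coeff r = 0 := by
        by_contra h3
        obtain ⟨a, ha, b', hb', hab⟩ := H96.supp_mul' F (U - U0) r h3
        have h4 : nu2 b' = 0 := by
          have h5 := congrArg nu2 hab
          rw [map_add, hFlev a ha, zero_add, hr] at h5
          exact h5
        apply hb'
        rw [AddMonoidAlgebra.coeff_sub, Finsupp.sub_apply, cU0, if_pos h4, sub_self]
      rw [h1, AddMonoidAlgebra.coeff_add, Finsupp.add_apply, h2, add_zero]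
    have key : ∀ r : (Ker (co (phK phi (co phi i0)) j)), nu2 r = 0 → (1 - kap) * (F * U0).coeff r =
        (1 - kap) * D.coeff ((r : (Ker (co phi i0))) : L) + kap * U.coeff r := by
      intro r hr
      rw [c2 r hr, ← (hp r).2.2]
      have h1 := k2 r (by rw [hr, zero_add]; exact hm)
      linear_combination h1
    -- the exposing functional
    obtain ⟨hS0, hSn, lam, lamS, lamp⟩ := H.qc.fd.cc.ray
    set lam2 : (Ker (co (phK phi (co phi i0)) j)) →+ ℤ := (lam.comp (incl (Ker (co phi i0)))).comp (incl (Ker (co (phK phi (co phi i0)) j))) with hlam2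
    have lam2v : ∀ r : (Ker (co (phK phi (co phi i0)) j)), lam2 r = lam ((r : (Ker (co phi i0))) : L) := fun r => rfl
    have Snot : ∀ r : (Ker (co phi i0)), (r : L) ≠ S := by
      intro r hr
      have h1 := mem_Ker.mp r.2
      rw [hr, h] at h1
      exact one_ne_zero h1
    have z1 : ∀ r : (Ker (co (phK phi (co phi i0)) j)), lam2 r ≤ 0 → r ≠ 0 → D.coeff ((r : (Ker (co phi i0))) : L) = 0 := by
      intro r h1 h2
      by_contra h3
      have h4 := lamp ((r : (Ker (co phi i0))) : L) h3 (fun h5 => h2 (Subtype.ext (Subtype.ext h5)))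
        (Snot (r : (Ker (co phi i0))))
      rw [← lam2v] at h4
      omega
    have z2 : ∀ r : (Ker (co (phK phi (co phi i0)) j)), lam2 r ≤ 0 → r ≠ 0 → U.coeff r = 0 := by
      intro r h1 h2
      rw [← (hp r).1, hVd, H36.clc (co phi i0) S h eta D (fun a ha => hDb a ha i0), z1 r h1 h2,
        zero_add]
      have h3 : D.coeff (((r : (Ker (co phi i0))) : L) + S) = 0 := by
        by_contra h3
        have h4 := lamp (((r : (Ker (co phi i0))) : L) + S) h3 (fun h5 => by
          have h6 : ((-(r : (Ker (co phi i0))) : (Ker (co phi i0))) : L) = S := by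
            rw [Submodule.coe_neg]
            exact (eq_neg_of_add_eq_zero_right h5).symm
          exact Snot _ h6) (fun h5 => by
          apply h2
          apply Subtype.ext
          apply Subtype.ext
          have h6 : ((r : (Ker (co phi i0))) : L) = 0 := by
            have h7 := add_right_cancel (h5.trans (zero_add S).symm)
            exact h7
          exact h6)
        rw [map_add, lamS, add_zero, ← lam2v] at h4
        omega
      rw [h3, mul_zero]
    have z3 : ∀ r : (Ker (co (phK phi (co phi i0)) j)), lam2 r ≤ 0 → r ≠ 0 → (F * U0).coeff r = 0 := by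
      intro r h1 h2
      by_cases h3 : nu2 r = 0
      · have h4 := key r h3
        rw [z1 r h1 h2, z2 r h1 h2, mul_zero, mul_zero, add_zero] at h4
        exact (mul_eq_zero.mp h4).resolve_left hk
      · exact c1 r h3
    have hFlam : ∀ a ∈ supp F, lam2 a = 0 := by
      apply nn_zero_of_sharp H.sym lam2
      apply hMin O (Ker (co (phK phi (co phi i0)) j)) F U0 hF0 (by rw [hU00, ← hU0]; exact hU0n) lam2 0
      intro a ha
      by_contra h2
      push Not at h2
      exact ha (z3 a h2.le (by rintro rfl; rw [map_zero] at h2; omega))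
    have hF00 : (F * U0).coeff 0 = F.coeff 0 * V.coeff 0 := by
      have h1 : F * U0 = cst (V.coeff 0) * F + F * (U0 - cst (V.coeff 0)) := by ring
      have h2 : (F * (U0 - cst (V.coeff 0))).coeff 0 = 0 := by
        by_contra h3
        obtain ⟨a, ha, b', hb', hab⟩ := H96.supp_mul' F _ 0 h3
        have h4 : lam2 b' = 0 := by
          have h5 := congrArg lam2 hab
          rw [map_add, hFlam a ha, zero_add, map_zero] at h5
          exact h5
        apply hb'
        rw [AddMonoidAlgebra.coeff_sub, Finsupp.sub_apply, cst]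
        by_cases h5 : b' = 0
        · rw [h5, hU00, AddMonoidAlgebra.coeff_single, Finsupp.single_eq_same, sub_self]
        · rw [AddMonoidAlgebra.coeff_single, Finsupp.single_eq_of_ne h5, sub_zero, cU0]
          split_ifs
          · exact z2 b' h4.le h5
          · rfl
      rw [h1, AddMonoidAlgebra.coeff_add, Finsupp.add_apply, h2, add_zero, H71.cst_mul_coeff,
        mul_comm]
    refine ⟨F.coeff 0, ?_, ?_⟩
    · have h1 := sharp_coeff' F 0
      rw [H.sym, neg_zero] at h1
      exact h1.symm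
    · have h1 := key 0 (map_zero nu2)
      rw [hF00, hU0] at h1
      exact h1

end

end Pool.Agent.B5.BP90
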