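import Pool.Agent.Lib.MP_b5021c_nt.BP.H90.Swp
import Pool.Agent.Lib.MP_b5021c_nt.BP.H57.Bv2
import Pool.Agent.Lib.MP_b5021c_nt.IfaceBP

/-!
# MP_b5021c_nt, ALL THETA, BpS: small factors at a load of a unit ray (helper90)

`swn`: the swap, normalised: a ray with the closing `g` (class `V(1)`), same constant coefficient.
-/

namespace Pool.Agent.B5.BP90

open Polynomial Metric Pool.Agent.B5
open scoped Topology ComplexConjugate LaurentPolynomial

set_option linter.unusedSectionVars false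

theorem ray_cst {O : Type} [CommRing O] [IsDomain O] [Coef O] {L : Type} [AddCommGroup L]
    {c : RO O} (hc : c ≠ 0) {G : AO O L} {b : L} (h : Ray G b) : Ray (cst c * G) b := by
  have hs := H78.supp_cst_mul hc G
  obtain ⟨h1, h2, lam, h3, h4⟩ := h
  refine ⟨by rw [hs]; exact h1, h2, lam, h3, fun a ha => h4 a (by rw [← hs]; exact ha)⟩

/-- THE SWAP, normalised. -/
theorem swn (hQc : Qc3S) (hE2 : E2S) (hNd : Nd3vS) (hDv : Dv3S) (hQm : Qm3S) (hNr : Nr3S)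
    (hHp : HpgS) (hTa : Ta3S) (hUm : Um3vS) (hSt : St3S) (hSw : Sw3S) (hEv : EvRS)
    (hZ : ZfinS) (hNn : Nn3S) (hU : UnitRS) (hVZ : VZS)
    {O : Type} [CommRing O] [IsDomain O] [IsPrincipalIdealRing O]
    [Coef O] {P L : Type} [Fintype P] [DecidableEq P] [AddCommGroup L] [Module.Free ℤ L]
    [Module.Finite ℤ L] {phi : L →+ (P → ℤ)} {D : AO O L} {S : L} {i0 : P} {eta : (RO O)ˣ}
    {h : co phi i0 S = 1} {c : RO O} {n : ℕ} {G : Fin n → AO O (Ker (co phi i0))}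
    (fd : FD phi D S i0 eta h c n G) (hMc : M c = 1) (hsn : (snp phi S i0 G).Nonempty)
    {w : (RO O)ˣ} {q g : O[X]} {N : ℝ} (hcv : ClassV N (D.coeff 0))
    (hq : (w : RO O) * D.coeff 0 = toLaurent q)
    (hg : (w : RO O) * ((eta : RO O) * D.coeff S) = -toLaurent g) (hg0 : g.coeff 0 = 1)
    (hq0 : q.coeff 0 ≠ 0)
    (hbig : 2 * ((Coef.emb (q.coeff 0) : ℂ) * (starRingEnd ℂ) (Coef.emb (q.coeff 0 - 1))).re ≤
        3 * ‖(Coef.emb (q.coeff 0 - 1) : ℂ)‖ ^ 2) (hne : q.coeff 0 ≠ 2) :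
    ZF (q.map Coef.emb) ∧ (∀ z : ℂ, ‖z‖ ≤ 1 → (q.map (Coef.emb : O →+* ℂ)).eval z ≠ 0) ∧
    ((ZF (g.map Coef.emb) ∧ ∃ (D1 : AO O L) (b1 : L) (e1 : (RO O)ˣ), DD phi D1 ∧ Ray D1 b1 ∧
      D1.coeff 0 = LaurentPolynomial.T 0 * toLaurent q ∧
      D1.coeff 0 + (e1 : RO O) * D1.coeff b1 = LaurentPolynomial.T 0 * toLaurent g) ∨
    ∃ (t : RO O) (n : ℕ) (c : ℝ), Exh t q (q - g) n c) := by
  obtain ⟨zq, -⟩ := BP57.zf_of_unit hU hcv hq hq0
  obtain ⟨d0, -, -, -, -, edge⟩ := hE2 O P L phi D fd.cc.dd fd.cc.two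
  obtain ⟨eS, ne⟩ := edge S fd.cc.ray
  have evq : ∀ z : Circle, ‖(q.map (Coef.emb : O →+* ℂ)).eval (z : ℂ)‖ =
      ‖evR z (D.coeff 0)‖ := by
    intro z
    rw [← H07.evR_toLaurent, ← hq, map_mul, norm_mul, (hEv O).2.1 z _ w.isUnit, one_mul]
  have evg : ∀ z : Circle, ‖(g.map (Coef.emb : O →+* ℂ)).eval (z : ℂ)‖ =
      ‖evR z (D.coeff S)‖ := by
    intro z
    rw [← H07.evR_toLaurent, ← norm_neg, ← map_neg, ← hg, map_mul, map_mul, norm_mul, norm_mul,
      (hEv O).2.1 z _ w.isUnit, (hEv O).2.1 z _ eta.isUnit, one_mul, one_mul]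
  have mk : ∀ z : ℂ, ‖z‖ = 1 → ∃ w : Circle, (w : ℂ) = z := fun z hz =>
    ⟨⟨z, mem_sphere_zero_iff_norm.mpr hz⟩, rfl⟩
  have qz : ∀ z : ℂ, ‖z‖ ≤ 1 → (q.map (Coef.emb : O →+* ℂ)).eval z ≠ 0 := by
    intro z hz
    rcases hz.lt_or_eq with h1 | h1
    · exact zq z h1
    · obtain ⟨w', rfl⟩ := mk z h1
      intro h2
      have h3 := evq w'
      rw [h2, norm_zero] at h3
      exact d0 w' (norm_eq_zero.mp h3.symm)
  have hlt := hVZ (q.map (Coef.emb : O →+* ℂ)) (g.map (Coef.emb : O →+* ℂ)) qz (by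
      intro z hz
      obtain ⟨w', rfl⟩ := mk z hz
      rw [evq, evg]
      exact eS w') (by
      obtain ⟨z, hz⟩ := ne
      exact ⟨z, by simp, by rw [evq, evg]; exact hz⟩)
  have hvz : ∀ z : ℂ, ‖z‖ < 1 → ((q - g).map (Coef.emb : O →+* ℂ)).eval z ≠ 0 := by
    intro z hz h1
    rw [Polynomial.map_sub, eval_sub, sub_eq_zero] at h1
    have h2 := hlt z hz
    rw [h1] at h2
    exact lt_irrefl _ h2
  refine ⟨zq, qz, ?_⟩
  -- the unit
  obtain ⟨k, u, hu, hwi⟩ := (hU O ((w⁻¹ : (RO O)ˣ) : RO O)).mp (w⁻¹).isUnit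
  have hu0 : u ≠ 0 := hu.ne_zero
  have hue : (Coef.emb u : ℂ) ≠ 0 := by
    intro h1
    exact hu0 (emb_inj (h1.trans (map_zero _).symm))
  have hun : ‖(Coef.emb u : ℂ)‖ = 1 := by
    obtain ⟨v, rfl⟩ := hu
    have h4 := Coef.one_le (v : O) v.ne_zero
    have h5 := Coef.one_le ((v⁻¹ : Oˣ) : O) (v⁻¹).ne_zero
    have h6 : ‖(Coef.emb (v : O) : ℂ)‖ * ‖(Coef.emb ((v⁻¹ : Oˣ) : O) : ℂ)‖ = 1 := by
      rw [← norm_mul, ← map_mul, Units.mul_inv, map_one, norm_one]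
    nlinarith
  have hmove : ∀ (x : RO O) (p : O[X]), (w : RO O) * x = toLaurent p →
      x = LaurentPolynomial.T k * toLaurent (C u * p) := by
    intro x p hx
    have h1 : x = ((w⁻¹ : (RO O)ˣ) : RO O) * toLaurent p := by
      rw [← hx, ← mul_assoc, Units.inv_mul, one_mul]
    rw [h1, hwi, map_mul, toLaurent_C]
    ring
  have hD0 := hmove _ _ hq
  have hDS := hmove ((eta : RO O) * D.coeff S) (-g) (by rw [hg, map_neg])
  have e1 : C u * q + C u * (-g) = C u * (q - g) := by ring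
  have ev1 : ∀ (p : O[X]) (z : ℂ), ((C u * p).map (Coef.emb : O →+* ℂ)).eval z =
      Coef.emb u * (p.map (Coef.emb : O →+* ℂ)).eval z := by
    intro p z
    rw [Polynomial.map_mul, eval_mul, map_C, eval_C]
  have z1 : ZF ((C u * q).map Coef.emb) := by
    intro z hz
    rw [ev1]
    exact mul_ne_zero hue (zq z hz)
  have z2 : ZF ((C u * q + C u * (-g)).map Coef.emb) := by
    rw [e1]
    intro z hz
    rw [ev1]
    exact mul_ne_zero hue (hvz z hz)
  have c1 : (C u * q).coeff 0 = u * q.coeff 0 := by rw [coeff_C_mul]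
  have c2 : (C u * q + C u * (-g)).coeff 0 = u * (q.coeff 0 - 1) := by
    rw [e1, coeff_C_mul, coeff_sub, hg0]
  have hbig' : 2 * ((Coef.emb ((C u * q).coeff 0) : ℂ) *
      (starRingEnd ℂ) (Coef.emb ((C u * q + C u * (-g)).coeff 0))).re ≤
        3 * ‖(Coef.emb ((C u * q + C u * (-g)).coeff 0) : ℂ)‖ ^ 2 := by
    rw [c1, c2, map_mul, map_mul, map_mul, norm_mul, hun, one_mul]
    have h1 : (Coef.emb u : ℂ) * Coef.emb (q.coeff 0) * ((starRingEnd ℂ) (Coef.emb u) *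
        (starRingEnd ℂ) (Coef.emb (q.coeff 0 - 1))) =
        Coef.emb (q.coeff 0) * (starRingEnd ℂ) (Coef.emb (q.coeff 0 - 1)) := by
      have h2 : (Coef.emb u : ℂ) * (starRingEnd ℂ) (Coef.emb u) = 1 := by
        rw [Complex.mul_conj, Complex.normSq_eq_norm_sq, hun]; norm_num
      linear_combination (Coef.emb (q.coeff 0) *
        (starRingEnd ℂ) (Coef.emb (q.coeff 0 - 1))) * h2
    rw [h1]
    exact hbig
  have hne' : (C u * q + C u * (-g) + C u * (-g)).coeff 0 ≠ 0 := by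
    rw [coeff_add, c2, coeff_C_mul, coeff_neg, hg0]
    intro h1
    have h2 : u * (q.coeff 0 - 2) = 0 := by linear_combination h1
    rcases mul_eq_zero.mp h2 with h3 | h3
    · exact hu0 h3
    · exact hne (sub_eq_zero.mp h3)
  rcases swap hQc hE2 hNd hDv hQm hNr hHp hTa hUm hSt hSw hEv hZ hNn O P L phi D S i0 eta h c n G
    fd hMc hsn k (C u * q) (C u * (-g)) hD0 hDS z1 z2 hbig' hne' with
    ⟨zg, D', b', e, hDD, hR, hc0, -, hcl⟩ | ⟨t, n', c', hex⟩
  · left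
    refine ⟨?_, cst (w : RO O) * D', b', e, H78.dd_cst w.isUnit
      (fun z => (w.isUnit.map (evR z)).ne_zero) hDD, ray_cst w.ne_zero hR, ?_, ?_⟩
    · intro z hz h1
      apply zg z hz
      rw [ev1, Polynomial.map_neg, eval_neg, h1, neg_zero, mul_zero]
    · rw [H78.cstm, hc0, hq, LaurentPolynomial.T_zero, one_mul]
    · rw [H78.cstm, H78.cstm, LaurentPolynomial.T_zero, one_mul]
      have h1 : (w : RO O) * D'.coeff 0 + (e : RO O) * ((w : RO O) * D'.coeff b') =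
          (w : RO O) * (D'.coeff 0 + (e : RO O) * D'.coeff b') := by ring
      rw [h1, hcl, mul_neg, hg, neg_neg]
  · right
    refine ⟨t, n', c', hex.nn, hex.t0, ?_, ?_⟩
    · have h1 := hex.eq0
      rw [c1, c2, map_mul, map_mul, map_mul, norm_mul, hun, one_mul] at h1
      have h2 : (Coef.emb u : ℂ) * Coef.emb (q.coeff 0) * ((starRingEnd ℂ) (Coef.emb u) *
          (starRingEnd ℂ) (Coef.emb (q.coeff 0 - 1))) =
          Coef.emb (q.coeff 0) * (starRingEnd ℂ) (Coef.emb (q.coeff 0 - 1)) := by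
        have h2 : (Coef.emb u : ℂ) * (starRingEnd ℂ) (Coef.emb u) = 1 := by
          rw [Complex.mul_conj, Complex.normSq_eq_norm_sq, hun]; norm_num
        linear_combination (Coef.emb (q.coeff 0) *
          (starRingEnd ℂ) (Coef.emb (q.coeff 0 - 1))) * h2
      rw [h2] at h1
      rw [coeff_sub, hg0]
      exact h1
    · have h1 := hex.eq
      rw [e1, Polynomial.map_mul, Polynomial.map_mul, map_C] at h1
      have h2 : (C (Coef.emb u : ℂ) : ℂ[X]) ≠ 0 := by rwa [Ne, C_eq_zero]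
      apply mul_left_cancel₀ h2
      linear_combination h1

end Pool.Agent.B5.BP90
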