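import Pool.Agent.Lib.MP_b5021c_nt.BP.H90.Sm

/-!
# MP_b5021c_nt, ALL THETA, BpS: the swap at a small factor, the divisibility given (helper90)

`Swp.swap`, `Sm.swn` with the conclusion of `Dv3S` instead of `M c = 1`.
-/

namespace Pool.Agent.B5.BP90

open Polynomial Metric Pool.Agent.B5 Pool.Agent.B5.H71 Pool.Agent.B5.H96 Pool.Agent.B5.H29
open scoped Topology ComplexConjugate LaurentPolynomial
open Pool.Agent.MP_b5021c_nt (nz)

set_option linter.unusedSectionVars false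

/-- The divisibility. -/
def Dvf {O : Type} [CommRing O] [IsDomain O] [Coef O] {P L : Type} [Fintype P] [DecidableEq P]
    [AddCommGroup L] [Module.Free ℤ L] [Module.Finite ℤ L] (phi : L →+ (P → ℤ)) (D : AO O L) (S : L)
    (i0 : P) (eta : (RO O)ˣ) (h : co phi i0 S = 1) (c : RO O) (n : ℕ)
    (G : Fin n → AO O (Ker (co phi i0))) : Prop :=
  ∀ (l : Fin n) (b : Ker (co phi i0)) (j : P) (e : (RO O)ˣ)
    (hj : co (phK phi (co phi i0)) j b = 1) (q : AO O (Ker (co (phK phi (co phi i0)) j))),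
    QC phi D S i0 eta h c n G l b j e hj q → ∀ (m : ℤ) (v : O[X]),
      D.coeff 0 + (eta : RO O) * D.coeff S = LaurentPolynomial.T m * toLaurent v →
      (∀ z0 : ℂ, ‖z0‖ = 1 → ¬ (X - C z0) ^ 2 ∣ v.map Coef.emb) →
      ∃ F : AO O (Ker (co (phK phi (co phi i0)) j)), q = cst (c * (G l).coeff 0) * F ∧ NnT F

/-- THE SWAP, weak inequality. -/
theorem swapF (hQc : Qc3S) (hE2 : E2S) (hNd : Nd3vS) (hQm : Qm3S) (hNr : Nr3S)
    (hHp : HpgS) (hTa : Ta3S) (hUm : Um3vS) (hSt : St3S) (hSw : Sw3S) (hEv : EvRS)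
    (hZ : ZfinS) (hNn : Nn3S) (O : Type) [CommRing O] [IsDomain O] [IsPrincipalIdealRing O]
    [Coef O] (P L : Type) [Fintype P] [DecidableEq P] [AddCommGroup L] [Module.Free ℤ L]
    [Module.Finite ℤ L] (phi : L →+ (P → ℤ)) (D : AO O L) (S : L) (i0 : P) (eta : (RO O)ˣ)
    (h : co phi i0 S = 1) (c : RO O) (n : ℕ) (G : Fin n → AO O (Ker (co phi i0)))
    (fd : FD phi D S i0 eta h c n G) (hDv : Dvf phi D S i0 eta h c n G) (hsn : (snp phi S i0 G).Nonempty)
    (m : ℤ) (q f : O[X]) (hq : D.coeff 0 = LaurentPolynomial.T m * toLaurent q)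
    (hf : (eta : RO O) * D.coeff S = LaurentPolynomial.T m * toLaurent f)
    (hqf : ZF (q.map Coef.emb)) (hvf : ZF ((q + f).map Coef.emb))
    (hbig : 2 * ((Coef.emb (q.coeff 0) : ℂ) *
      (starRingEnd ℂ) (Coef.emb ((q + f).coeff 0))).re ≤
        3 * ‖(Coef.emb ((q + f).coeff 0) : ℂ)‖ ^ 2) (hne0 : (q + f + f).coeff 0 ≠ 0) :
    (ZF (f.map Coef.emb) ∧ ∃ (D' : AO O L) (b' : L) (e : (RO O)ˣ), DD phi D' ∧ Ray D' b' ∧
      D'.coeff 0 = D.coeff 0 ∧
      (e : RO O) * D'.coeff b' = -(D.coeff 0 + (eta : RO O) * D.coeff S) ∧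
      D'.coeff 0 + (e : RO O) * D'.coeff b' = -((eta : RO O) * D.coeff S)) ∨
    ∃ (t : RO O) (n : ℕ) (c : ℝ), Exh t q (q + f) n c := by
  obtain ⟨l, b, j, e, hj, Q, hQ⟩ := hQc O P L phi D S i0 eta h c n G fd hsn
  obtain ⟨d0, -, -, -, -, edge⟩ := hE2 O P L phi D fd.cc.dd fd.cc.two
  have eS := (edge S fd.cc.ray).1
  set g : RO O := c * (G l).coeff 0 with hg
  have hg0 : g ≠ 0 := mul_ne_zero fd.c0 hQ.sp.u0.ne_zero
  set v : O[X] := q + f with hv
  have hV : D.coeff 0 + (eta : RO O) * D.coeff S = LaurentPolynomial.T m * toLaurent v := by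
    rw [hq, hf, hv, map_add, mul_add]
  have hSD : D.coeff S ≠ 0 := fd.cc.ray.1
  have hS0 : (eta : RO O) * D.coeff S ≠ 0 := mul_ne_zero eta.ne_zero hSD
  have hv0 : v ≠ 0 := T_mul_ne (m := m) (by rw [← hV]; exact fd.cc.v0)
  have hf0 : f ≠ 0 := T_mul_ne (m := m) (by rw [← hf]; exact hS0)
  have hvm : v.map (Coef.emb : O →+* ℂ) ≠ 0 := by
    rw [Ne, Polynomial.map_eq_zero_iff emb_inj]
    exact hv0
  have hfm : f.map (Coef.emb : O →+* ℂ) ≠ 0 := by
    rw [Ne, Polynomial.map_eq_zero_iff emb_inj]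
    exact hf0
  have hvmap : v.map (Coef.emb : O →+* ℂ) = q.map (Coef.emb : O →+* ℂ) +
      f.map (Coef.emb : O →+* ℂ) := by
    rw [hv, Polynomial.map_add]
  -- values on the circle
  have evD : ∀ z : Circle, evR z (D.coeff 0) =
      (z : ℂ) ^ m * (q.map (Coef.emb : O →+* ℂ)).eval (z : ℂ) := by
    intro z
    rw [hq, ev_T_mul]
  have evS : ∀ z : Circle, evR z ((eta : RO O) * D.coeff S) =
      (z : ℂ) ^ m * (f.map (Coef.emb : O →+* ℂ)).eval (z : ℂ) := by
    intro z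
    rw [hf, ev_T_mul]
  have qz1 : ∀ z : ℂ, ‖z‖ = 1 → (q.map (Coef.emb : O →+* ℂ)).eval z ≠ 0 := by
    intro z hz
    obtain ⟨w, rfl⟩ := H93.exists_circle hz
    have h1 := d0 w
    rw [evD w] at h1
    exact right_ne_zero_of_mul h1
  have qz : ∀ z : ℂ, ‖z‖ ≤ 1 → (q.map (Coef.emb : O →+* ℂ)).eval z ≠ 0 := by
    intro z hz
    rcases hz.lt_or_eq with h1 | h1
    · exact hqf z h1
    · exact qz1 z h1
  have le1 : ∀ z : ℂ, ‖z‖ = 1 → ‖(f.map (Coef.emb : O →+* ℂ)).eval z‖ ≤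
      ‖(q.map (Coef.emb : O →+* ℂ)).eval z‖ := by
    intro z hz
    obtain ⟨w, rfl⟩ := H93.exists_circle hz
    have h1 := eS w
    have h2 : ‖evR w ((eta : RO O) * D.coeff S)‖ = ‖evR w (D.coeff S)‖ := by
      rw [map_mul, norm_mul, (hEv O).2.1 w _ eta.isUnit, one_mul]
    rw [← h2, evS w, evD w, norm_mul, norm_mul, norm_circle, one_mul, one_mul] at h1
    exact h1
  have veval : ∀ z : ℂ, (v.map (Coef.emb : O →+* ℂ)).eval z =
      (q.map (Coef.emb : O →+* ℂ)).eval z + (f.map (Coef.emb : O →+* ℂ)).eval z := by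
    intro z
    rw [hv, Polynomial.map_add, eval_add]
  have re1 : ∀ z : ℂ, ‖z‖ = 1 → 0 ≤ ((v.map (Coef.emb : O →+* ℂ)).eval z *
      (starRingEnd ℂ) ((q.map (Coef.emb : O →+* ℂ)).eval z)).re := by
    intro z hz
    rw [veval z, add_mul, Complex.add_re, Complex.mul_conj, Complex.normSq_eq_norm_sq,
      Complex.ofReal_re]
    have h1 := le1 z hz
    have h2 := Complex.abs_re_le_norm ((f.map (Coef.emb : O →+* ℂ)).eval z *
      (starRingEnd ℂ) ((q.map (Coef.emb : O →+* ℂ)).eval z))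
    rw [norm_mul, Complex.norm_conj] at h2
    have h3 := (abs_le.mp h2).1
    have h4 := norm_nonneg ((q.map (Coef.emb : O →+* ℂ)).eval z)
    nlinarith
  have nod : ∀ z0 : ℂ, ‖z0‖ = 1 → ¬ (X - C z0) ^ 2 ∣ v.map (Coef.emb : O →+* ℂ) := by
    intro z0 hz0
    exact hNd (q.map (Coef.emb : O →+* ℂ)) (v.map (Coef.emb : O →+* ℂ)) z0 qz re1 hvm hz0
  -- `g` divides `Q`
  obtain ⟨F, hF, hFn⟩ := hDv l b j e hj Q hQ m v hV nod
  have hF0 : F ≠ 0 := by
    rintro rfl
    apply hQ.q0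
    rw [hF, mul_zero]
  -- `F` is selfreciprocal
  have hsF : F = sharp F := by
    have hFg : Q = cst g * F := hF
    have h1 : Q * cst (rsh g) = sharp Q * cst g := hQ.rq
    have cs : ∀ a : RO O, sharp (cst a : AO O (Ker (co (phK phi (co phi i0)) j))) =
        cst (rsh a) := by
      intro a
      rw [cst, sharp_single, neg_zero]
      rfl
    have h0 : sharp (cst g * F) = cst (rsh g) * sharp F := by rw [map_mul, cs]
    rw [hFg, h0] at h1
    have hgc : (cst g : AO O (Ker (co (phK phi (co phi i0)) j))) ≠ 0 := by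
      rw [cst]
      exact AddMonoidAlgebra.single_ne_zero.mpr hg0
    have hgr : (cst (rsh g) : AO O (Ker (co (phK phi (co phi i0)) j))) ≠ 0 := by
      rw [cst]
      exact AddMonoidAlgebra.single_ne_zero.mpr (rsh_ne hEv hZ g hg0)
    have h2 : (cst g * cst (rsh g)) * F = (cst g * cst (rsh g)) * sharp F := by
      linear_combination h1
    exact mul_left_cancel₀ (mul_ne_zero hgc hgr) h2
  set t : RO O := F.coeff 0 with ht
  have trsh : rsh t = t := by
    have h1 := congrArg (fun E : AO O (Ker (co (phK phi (co phi i0)) j)) => E.coeff 0) hsF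
    simp only [sharp_coeff', neg_zero] at h1
    exact h1.symm
  have tim : ∀ z : Circle, (evR z t).im = 0 := by
    intro z
    have h1 := (hEv O).2.2.1 z t
    rw [trsh] at h1
    exact Complex.conj_eq_iff_im.mp h1.symm
  have FnC : ∀ z : Circle, spec z F ≠ 0 → 0 < (evR z t).re := by
    intro z hz
    have h1 := (hNn _ (spec z F) hz (fun u => hFn z u)).1
    rw [spec_coeff] at h1
    exact h1
  have tnn : NnR t := by
    intro z
    refine ⟨tim z, ?_⟩
    by_cases h1 : spec z F = 0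
    · have h2 : evR z t = 0 := by
        rw [ht, ← spec_coeff, h1]
        rfl
      rw [h2]
      exact le_refl _
    · exact (FnC z h1).le
  have tne : t ≠ 0 := by
    intro h0
    have hex : ∃ a, F.coeff a ≠ 0 := by
      by_contra hcon
      apply hF0
      apply AddMonoidAlgebra.coeff_injective
      apply Finsupp.ext
      intro a
      by_contra h1
      exact hcon ⟨a, h1⟩
    obtain ⟨a, ha⟩ := hex
    have hex2 : ∃ z : Circle, evR z (F.coeff a) ≠ 0 := by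
      by_contra hcon
      apply ha
      apply evR_zero hZ
      intro z
      by_contra h1
      exact hcon ⟨z, h1⟩
    obtain ⟨z, hz⟩ := hex2
    have h1 : spec z F ≠ 0 := by
      intro h2
      apply hz
      rw [← spec_coeff, h2]
      rfl
    have h3 := FnC z h1
    rw [h0, map_zero] at h3
    exact lt_irrefl _ h3
  -- the inequality for the constant coefficients
  have hcont : ∀ p : RO O, Continuous fun z : Circle => evR z p := (hEv O).2.2.2
  have hineq : ∀ z : Circle, (evR z t).re * ‖evR z (D.coeff 0 + (eta : RO O) * D.coeff S)‖ ^ 2 ≤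
      2 * (evR z (D.coeff 0) *
          (starRingEnd ℂ) (evR z (D.coeff 0 + (eta : RO O) * D.coeff S))).re -
        ‖evR z (D.coeff 0 + (eta : RO O) * D.coeff S)‖ ^ 2 := by
    apply le_of_dense hZ g hg0
    · exact (Complex.continuous_re.comp (hcont t)).mul ((hcont _).norm.pow 2)
    · exact (continuous_const.mul (Complex.continuous_re.comp ((hcont _).mul
        (Complex.continuous_conj.comp (hcont _))))).sub ((hcont _).norm.pow 2)
    · intro z hz
      have h1 := hQm O P L phi D S i0 eta h c n G l b j e hj Q hQ z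
      have h2 : Q.coeff 0 = g * t := by
        rw [hF, H71.cst_mul_coeff]
      rw [h2, ← hg] at h1
      have h3 : (evR z (g * t) * (starRingEnd ℂ) (evR z g)).re = ‖evR z g‖ ^ 2 * (evR z t).re := by
        have h4 : evR z (g * t) * (starRingEnd ℂ) (evR z g) =
            ((‖evR z g‖ ^ 2 : ℝ) : ℂ) * evR z t := by
          rw [map_mul, mul_comm (evR z g), mul_assoc, Complex.mul_conj,
            Complex.normSq_eq_norm_sq, mul_comm]
        rw [h4, Complex.re_ofReal_mul]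
      rw [h3] at h1
      have h5 : 0 < ‖evR z g‖ ^ 2 := pow_pos (norm_pos_iff.mpr hz) 2
      have h6 : ‖evR z g‖ ^ 2 * ((evR z t).re *
          ‖evR z (D.coeff 0 + (eta : RO O) * D.coeff S)‖ ^ 2) ≤ ‖evR z g‖ ^ 2 *
          (2 * (evR z (D.coeff 0) *
          (starRingEnd ℂ) (evR z (D.coeff 0 + (eta : RO O) * D.coeff S))).re -
        ‖evR z (D.coeff 0 + (eta : RO O) * D.coeff S)‖ ^ 2) := by
        linarith
      exact le_of_mul_le_mul_left h6 h5
  have hineq' : ∀ z : Circle, (evR z t).re * ‖(v.map (Coef.emb : O →+* ℂ)).eval (z : ℂ)‖ ^ 2 ≤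
      2 * ((q.map (Coef.emb : O →+* ℂ)).eval (z : ℂ) *
        (starRingEnd ℂ) ((v.map (Coef.emb : O →+* ℂ)).eval (z : ℂ))).re -
        ‖(v.map (Coef.emb : O →+* ℂ)).eval (z : ℂ)‖ ^ 2 := by
    intro z
    have h1 := hineq z
    rw [hV, hq, ev_T_mul, ev_T_mul, circ_mul_conj, norm_mul, norm_circle, one_mul] at h1
    exact h1
  rcases t03w hNr hHp t q f tne tnn qz hvf le1 hineq' hbig with t1 | ⟨n', c', hex⟩
  swap
  · exact Or.inr ⟨t, n', c', hex⟩
  left
  have F1 : F = 1 := hTa O _ F hFn t1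
  have Qg : Q = cst g := by rw [hF, F1, mul_one]
  -- `f` is zero-free
  have zf : ZF (f.map (Coef.emb : O →+* ℂ)) := by
    apply hUm (q.map (Coef.emb : O →+* ℂ)) (f.map (Coef.emb : O →+* ℂ)) qz hfm
    intro z hz
    obtain ⟨w, rfl⟩ := H93.exists_circle hz
    have h1 := hineq' w
    rw [t1, map_one, Complex.one_re, one_mul] at h1
    rw [← hvmap]
    linarith
  -- the normal form
  have hne : D.coeff 0 + 2 * ((eta : RO O) * D.coeff S) ≠ 0 := by
    have h1 : D.coeff 0 + 2 * ((eta : RO O) * D.coeff S) =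
        LaurentPolynomial.T m * toLaurent (q + f + f) := by
      rw [hq, hf, map_add, map_add]
      ring
    rw [h1]
    apply T_mul_ne'
    intro h2
    exact hne0 (by rw [h2, coeff_zero])
  obtain ⟨U, H, pf, hU0, hH0⟩ := hSt O P L phi D S i0 eta h c n G l b j e hj Q hQ Qg hne
  obtain ⟨hDD, hRb, -, hc0, hcb, -⟩ := hSw O P L phi D S (b : L) eta e U H fd.cc.dd pf d0
  refine ⟨zf, swp S (b : L) eta e U H, (b : L), e, hDD, hRb, hc0, ?_, ?_⟩
  · rw [hcb, hU0]
  · rw [hc0, hcb, hU0]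
    ring

/-- THE SWAP, normalised. -/
theorem swnF (hQc : Qc3S) (hE2 : E2S) (hNd : Nd3vS) (hQm : Qm3S) (hNr : Nr3S)
    (hHp : HpgS) (hTa : Ta3S) (hUm : Um3vS) (hSt : St3S) (hSw : Sw3S) (hEv : EvRS)
    (hZ : ZfinS) (hNn : Nn3S) (hU : UnitRS) (hVZ : VZS)
    {O : Type} [CommRing O] [IsDomain O] [IsPrincipalIdealRing O]
    [Coef O] {P L : Type} [Fintype P] [DecidableEq P] [AddCommGroup L] [Module.Free ℤ L]
    [Module.Finite ℤ L] {phi : L →+ (P → ℤ)} {D : AO O L} {S : L} {i0 : P} {eta : (RO O)ˣ}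
    {h : co phi i0 S = 1} {c : RO O} {n : ℕ} {G : Fin n → AO O (Ker (co phi i0))}
    (fd : FD phi D S i0 eta h c n G) (hDv : Dvf phi D S i0 eta h c n G) (hsn : (snp phi S i0 G).Nonempty)
    {w : (RO O)ˣ} {q g : O[X]} {N : ℝ} (hcv : ClassV N (D.coeff 0))
    (hq : (w : RO O) * D.coeff 0 = toLaurent q)
    (hg : (w : RO O) * ((eta : RO O) * D.coeff S) = -toLaurent g) (hg0 : g.coeff 0 = 1)
    (hq0 : q.coeff 0 ≠ 0)
    (hbig : 2 * ((Coef.emb (q.coeff 0) : ℂ) * (starRingEnd ℂ) (Coef.emb (q.coeff 0 - 1))).re ≤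
        3 * ‖(Coef.emb (q.coeff 0 - 1) : ℂ)‖ ^ 2) (hne : q.coeff 0 ≠ 2) :
    ZF (q.map Coef.emb) ∧ (∀ z : ℂ, ‖z‖ ≤ 1 → (q.map (Coef.emb : O →+* ℂ)).eval z ≠ 0) ∧
    ((ZF (g.map Coef.emb) ∧ ∃ (D1 : AO O L) (b1 : L) (e1 : (RO O)ˣ), DD phi D1 ∧ Ray D1 b1 ∧
      D1.coeff 0 = LaurentPolynomial.T 0 * toLaurent q ∧
      D1.coeff 0 + (e1 : RO O) * D1.coeff b1 = LaurentPolynomial.T 0 * toLaurent g) ∨
    ∃ (t : RO O) (n : ℕ) (c : ℝ), Exh t q (q - g) n c) := by
  obtain ⟨zq, -⟩ := BP57.zf_of_unit hU hcv hq hq0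
  obtain ⟨d0, -, -, -, -, edge⟩ := hE2 O P L phi D fd.cc.dd fd.cc.two
  obtain ⟨eS, ne⟩ := edge S fd.cc.ray
  have evq : ∀ z : Circle, ‖(q.map (Coef.emb : O →+* ℂ)).eval (z : ℂ)‖ =
      ‖evR z (D.coeff 0)‖ := by
    intro z
    rw [← H07.evR_toLaurent, ← hq, map_mul, norm_mul, (hEv O).2.1 z _ w.isUnit, one_mul]
  have evg : ∀ z : Circle, ‖(g.map (Coef.emb : O →+* ℂ)).eval (z : ℂ)‖ =
      ‖evR z (D.coeff S)‖ := by
    intro z
    rw [← H07.evR_toLaurent, ← norm_neg, ← map_neg, ← hg, map_mul, map_mul, norm_mul, norm_mul,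
      (hEv O).2.1 z _ w.isUnit, (hEv O).2.1 z _ eta.isUnit, one_mul, one_mul]
  have mk : ∀ z : ℂ, ‖z‖ = 1 → ∃ w : Circle, (w : ℂ) = z := fun z hz =>
    ⟨⟨z, mem_sphere_zero_iff_norm.mpr hz⟩, rfl⟩
  have qz : ∀ z : ℂ, ‖z‖ ≤ 1 → (q.map (Coef.emb : O →+* ℂ)).eval z ≠ 0 := by
    intro z hz
    rcases hz.lt_or_eq with h1 | h1
    · exact zq z h1
    · obtain ⟨w', rfl⟩ := mk z h1
      intro h2
      have h3 := evq w'
      rw [h2, norm_zero] at h3
      exact d0 w' (norm_eq_zero.mp h3.symm)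
  have hlt := hVZ (q.map (Coef.emb : O →+* ℂ)) (g.map (Coef.emb : O →+* ℂ)) qz (by
      intro z hz
      obtain ⟨w', rfl⟩ := mk z hz
      rw [evq, evg]
      exact eS w') (by
      obtain ⟨z, hz⟩ := ne
      exact ⟨z, by simp, by rw [evq, evg]; exact hz⟩)
  have hvz : ∀ z : ℂ, ‖z‖ < 1 → ((q - g).map (Coef.emb : O →+* ℂ)).eval z ≠ 0 := by
    intro z hz h1
    rw [Polynomial.map_sub, eval_sub, sub_eq_zero] at h1
    have h2 := hlt z hz
    rw [h1] at h2
    exact lt_irrefl _ h2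
  refine ⟨zq, qz, ?_⟩
  -- the unit
  obtain ⟨k, u, hu, hwi⟩ := (hU O ((w⁻¹ : (RO O)ˣ) : RO O)).mp (w⁻¹).isUnit
  have hu0 : u ≠ 0 := hu.ne_zero
  have hue : (Coef.emb u : ℂ) ≠ 0 := by
    intro h1
    exact hu0 (emb_inj (h1.trans (map_zero _).symm))
  have hun : ‖(Coef.emb u : ℂ)‖ = 1 := by
    obtain ⟨v, rfl⟩ := hu
    have h4 := Coef.one_le (v : O) v.ne_zero
    have h5 := Coef.one_le ((v⁻¹ : Oˣ) : O) (v⁻¹).ne_zero
    have h6 : ‖(Coef.emb (v : O) : ℂ)‖ * ‖(Coef.emb ((v⁻¹ : Oˣ) : O) : ℂ)‖ = 1 := by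
      rw [← norm_mul, ← map_mul, Units.mul_inv, map_one, norm_one]
    nlinarith
  have hmove : ∀ (x : RO O) (p : O[X]), (w : RO O) * x = toLaurent p →
      x = LaurentPolynomial.T k * toLaurent (C u * p) := by
    intro x p hx
    have h1 : x = ((w⁻¹ : (RO O)ˣ) : RO O) * toLaurent p := by
      rw [← hx, ← mul_assoc, Units.inv_mul, one_mul]
    rw [h1, hwi, map_mul, toLaurent_C]
    ring
  have hD0 := hmove _ _ hq
  have hDS := hmove ((eta : RO O) * D.coeff S) (-g) (by rw [hg, map_neg])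
  have e1 : C u * q + C u * (-g) = C u * (q - g) := by ring
  have ev1 : ∀ (p : O[X]) (z : ℂ), ((C u * p).map (Coef.emb : O →+* ℂ)).eval z =
      Coef.emb u * (p.map (Coef.emb : O →+* ℂ)).eval z := by
    intro p z
    rw [Polynomial.map_mul, eval_mul, map_C, eval_C]
  have z1 : ZF ((C u * q).map Coef.emb) := by
    intro z hz
    rw [ev1]
    exact mul_ne_zero hue (zq z hz)
  have z2 : ZF ((C u * q + C u * (-g)).map Coef.emb) := by
    rw [e1]
    intro z hz
    rw [ev1]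
    exact mul_ne_zero hue (hvz z hz)
  have c1 : (C u * q).coeff 0 = u * q.coeff 0 := by rw [coeff_C_mul]
  have c2 : (C u * q + C u * (-g)).coeff 0 = u * (q.coeff 0 - 1) := by
    rw [e1, coeff_C_mul, coeff_sub, hg0]
  have hbig' : 2 * ((Coef.emb ((C u * q).coeff 0) : ℂ) *
      (starRingEnd ℂ) (Coef.emb ((C u * q + C u * (-g)).coeff 0))).re ≤
        3 * ‖(Coef.emb ((C u * q + C u * (-g)).coeff 0) : ℂ)‖ ^ 2 := by
    rw [c1, c2, map_mul, map_mul, map_mul, norm_mul, hun, one_mul]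
    have h1 : (Coef.emb u : ℂ) * Coef.emb (q.coeff 0) * ((starRingEnd ℂ) (Coef.emb u) *
        (starRingEnd ℂ) (Coef.emb (q.coeff 0 - 1))) =
        Coef.emb (q.coeff 0) * (starRingEnd ℂ) (Coef.emb (q.coeff 0 - 1)) := by
      have h2 : (Coef.emb u : ℂ) * (starRingEnd ℂ) (Coef.emb u) = 1 := by
        rw [Complex.mul_conj, Complex.normSq_eq_norm_sq, hun]; norm_num
      linear_combination (Coef.emb (q.coeff 0) *
        (starRingEnd ℂ) (Coef.emb (q.coeff 0 - 1))) * h2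
    rw [h1]
    exact hbig
  have hne' : (C u * q + C u * (-g) + C u * (-g)).coeff 0 ≠ 0 := by
    rw [coeff_add, c2, coeff_C_mul, coeff_neg, hg0]
    intro h1
    have h2 : u * (q.coeff 0 - 2) = 0 := by linear_combination h1
    rcases mul_eq_zero.mp h2 with h3 | h3
    · exact hu0 h3
    · exact hne (sub_eq_zero.mp h3)
  rcases swapF hQc hE2 hNd hQm hNr hHp hTa hUm hSt hSw hEv hZ hNn O P L phi D S i0 eta h c n G
    fd hDv hsn k (C u * q) (C u * (-g)) hD0 hDS z1 z2 hbig' hne' with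
    ⟨zg, D', b', e, hDD, hR, hc0, -, hcl⟩ | ⟨t, n', c', hex⟩
  · left
    refine ⟨?_, cst (w : RO O) * D', b', e, H78.dd_cst w.isUnit
      (fun z => (w.isUnit.map (evR z)).ne_zero) hDD, ray_cst w.ne_zero hR, ?_, ?_⟩
    · intro z hz h1
      apply zg z hz
      rw [ev1, Polynomial.map_neg, eval_neg, h1, neg_zero, mul_zero]
    · rw [H78.cstm, hc0, hq, LaurentPolynomial.T_zero, one_mul]
    · rw [H78.cstm, H78.cstm, LaurentPolynomial.T_zero, one_mul]
      have h1 : (w : RO O) * D'.coeff 0 + (e : RO O) * ((w : RO O) * D'.coeff b') =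
          (w : RO O) * (D'.coeff 0 + (e : RO O) * D'.coeff b') := by ring
      rw [h1, hcl, mul_neg, hg, neg_neg]
  · right
    refine ⟨t, n', c', hex.nn, hex.t0, ?_, ?_⟩
    · have h1 := hex.eq0
      rw [c1, c2, map_mul, map_mul, map_mul, norm_mul, hun, one_mul] at h1
      have h2 : (Coef.emb u : ℂ) * Coef.emb (q.coeff 0) * ((starRingEnd ℂ) (Coef.emb u) *
          (starRingEnd ℂ) (Coef.emb (q.coeff 0 - 1))) =
          Coef.emb (q.coeff 0) * (starRingEnd ℂ) (Coef.emb (q.coeff 0 - 1)) := by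
        have h2 : (Coef.emb u : ℂ) * (starRingEnd ℂ) (Coef.emb u) = 1 := by
          rw [Complex.mul_conj, Complex.normSq_eq_norm_sq, hun]; norm_num
        linear_combination (Coef.emb (q.coeff 0) *
          (starRingEnd ℂ) (Coef.emb (q.coeff 0 - 1))) * h2
      rw [h2] at h1
      rw [coeff_sub, hg0]
      exact h1
    · have h1 := hex.eq
      rw [e1, Polynomial.map_mul, Polynomial.map_mul, map_C] at h1
      have h2 : (C (Coef.emb u : ℂ) : ℂ[X]) ≠ 0 := by rwa [Ne, C_eq_zero]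
      apply mul_left_cancel₀ h2
      linear_combination h1

end Pool.Agent.B5.BP90
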