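import Pool.Agent.Lib.MP_b5021c_nt.BP.H90.Vray

/-!
# MP_b5021c_nt, ALL THETA, BpS: row T2S1, the case `g = 1` of a small factor of `T2` (helper90)

`resn`: the residue, normalised. `exhE3`: the exhausted case. `t2s1`: `p = N`, or `V_b` has a ray
with the closing `1`.
-/

namespace Pool.Agent.B5.BP90

open Polynomial Metric Pool.Agent.B5
open scoped Topology ComplexConjugate LaurentPolynomial
open Pool.Agent.MP_b5021c_nt (Eis)
open Pool.Agent.MP_b5021c_nt.Ire (bc)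
open Pool.Agent.B5.H25.Bch

set_option linter.unusedSectionVars false

/-- THE RESIDUE, normalised: it is one, or the exhausted case. -/
theorem resn (hQc : Qc3S) (hE2 : E2S) (hNd : Nd3vS) (hDv : Dv3S) (hQm : Qm3S) (hNr : Nr3S)
    (hHp : HpgS) (hTa : Ta3S) (hEv : EvRS)
    (hZ : ZfinS) (hNn : Nn3S) (hU : UnitRS) (hVZ : VZS)
    {O : Type} [CommRing O] [IsDomain O] [IsPrincipalIdealRing O]
    [Coef O] {P L : Type} [Fintype P] [DecidableEq P] [AddCommGroup L] [Module.Free ℤ L]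
    [Module.Finite ℤ L] {phi : L →+ (P → ℤ)} {D : AO O L} {S : L} {i0 : P} {eta : (RO O)ˣ}
    {h : co phi i0 S = 1} {c : RO O} {n : ℕ} {G : Fin n → AO O (Ker (co phi i0))}
    (fd : FD phi D S i0 eta h c n G) (hMc : M c = 1) (hsn : (snp phi S i0 G).Nonempty)
    {w : (RO O)ˣ} {q g : O[X]} {N : ℝ} (hcv : ClassV N (D.coeff 0))
    (hq : (w : RO O) * D.coeff 0 = toLaurent q)
    (hg : (w : RO O) * ((eta : RO O) * D.coeff S) = -toLaurent g) (hg0 : g.coeff 0 = 1)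
    (hq0 : q.coeff 0 ≠ 0)
    (hbig : 2 * ((Coef.emb (q.coeff 0) : ℂ) * (starRingEnd ℂ) (Coef.emb (q.coeff 0 - 1))).re ≤
        3 * ‖(Coef.emb (q.coeff 0 - 1) : ℂ)‖ ^ 2) :
    ZF (q.map Coef.emb) ∧ (∀ z : ℂ, ‖z‖ ≤ 1 → (q.map (Coef.emb : O →+* ℂ)).eval z ≠ 0) ∧
    ((∃ (l : Fin n) (b : Ker (co phi i0)) (j : P) (e : (RO O)ˣ)
      (hj : co (phK phi (co phi i0)) j b = 1), ResF phi D S i0 eta h c n G l b j e hj 1) ∨
    ∃ (t : RO O) (n : ℕ) (c : ℝ), Exh t q (q - g) n c) := by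
  obtain ⟨zq, -⟩ := BP57.zf_of_unit hU hcv hq hq0
  obtain ⟨d0, -, -, -, -, edge⟩ := hE2 O P L phi D fd.cc.dd fd.cc.two
  obtain ⟨eS, ne⟩ := edge S fd.cc.ray
  have evq : ∀ z : Circle, ‖(q.map (Coef.emb : O →+* ℂ)).eval (z : ℂ)‖ =
      ‖evR z (D.coeff 0)‖ := by
    intro z
    rw [← H07.evR_toLaurent, ← hq, map_mul, norm_mul, (hEv O).2.1 z _ w.isUnit, one_mul]
  have evg : ∀ z : Circle, ‖(g.map (Coef.emb : O →+* ℂ)).eval (z : ℂ)‖ =
      ‖evR z (D.coeff S)‖ := by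
    intro z
    rw [← H07.evR_toLaurent, ← norm_neg, ← map_neg, ← hg, map_mul, map_mul, norm_mul, norm_mul,
      (hEv O).2.1 z _ w.isUnit, (hEv O).2.1 z _ eta.isUnit, one_mul, one_mul]
  have mk : ∀ z : ℂ, ‖z‖ = 1 → ∃ w : Circle, (w : ℂ) = z := fun z hz =>
    ⟨⟨z, mem_sphere_zero_iff_norm.mpr hz⟩, rfl⟩
  have qz : ∀ z : ℂ, ‖z‖ ≤ 1 → (q.map (Coef.emb : O →+* ℂ)).eval z ≠ 0 := by
    intro z hz
    rcases hz.lt_or_eq with h1 | h1
    · exact zq z h1
    · obtain ⟨w', rfl⟩ := mk z h1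
      intro h2
      have h3 := evq w'
      rw [h2, norm_zero] at h3
      exact d0 w' (norm_eq_zero.mp h3.symm)
  have hlt := hVZ (q.map (Coef.emb : O →+* ℂ)) (g.map (Coef.emb : O →+* ℂ)) qz (by
      intro z hz
      obtain ⟨w', rfl⟩ := mk z hz
      rw [evq, evg]
      exact eS w') (by
      obtain ⟨z, hz⟩ := ne
      exact ⟨z, by simp, by rw [evq, evg]; exact hz⟩)
  have hvz : ∀ z : ℂ, ‖z‖ < 1 → ((q - g).map (Coef.emb : O →+* ℂ)).eval z ≠ 0 := by
    intro z hz h1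
    rw [Polynomial.map_sub, eval_sub, sub_eq_zero] at h1
    have h2 := hlt z hz
    rw [h1] at h2
    exact lt_irrefl _ h2
  refine ⟨zq, qz, ?_⟩
  -- the unit
  obtain ⟨k, u, hu, hwi⟩ := (hU O ((w⁻¹ : (RO O)ˣ) : RO O)).mp (w⁻¹).isUnit
  have hu0 : u ≠ 0 := hu.ne_zero
  have hue : (Coef.emb u : ℂ) ≠ 0 := by
    intro h1
    exact hu0 (emb_inj (h1.trans (map_zero _).symm))
  have hun : ‖(Coef.emb u : ℂ)‖ = 1 := by
    obtain ⟨v, rfl⟩ := hu
    have h4 := Coef.one_le (v : O) v.ne_zero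
    have h5 := Coef.one_le ((v⁻¹ : Oˣ) : O) (v⁻¹).ne_zero
    have h6 : ‖(Coef.emb (v : O) : ℂ)‖ * ‖(Coef.emb ((v⁻¹ : Oˣ) : O) : ℂ)‖ = 1 := by
      rw [← norm_mul, ← map_mul, Units.mul_inv, map_one, norm_one]
    nlinarith
  have hmove : ∀ (x : RO O) (p : O[X]), (w : RO O) * x = toLaurent p →
      x = LaurentPolynomial.T k * toLaurent (C u * p) := by
    intro x p hx
    have h1 : x = ((w⁻¹ : (RO O)ˣ) : RO O) * toLaurent p := by
      rw [← hx, ← mul_assoc, Units.inv_mul, one_mul]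
    rw [h1, hwi, map_mul, toLaurent_C]
    ring
  have hD0 := hmove _ _ hq
  have hDS := hmove ((eta : RO O) * D.coeff S) (-g) (by rw [hg, map_neg])
  have e1 : C u * q + C u * (-g) = C u * (q - g) := by ring
  have ev1 : ∀ (p : O[X]) (z : ℂ), ((C u * p).map (Coef.emb : O →+* ℂ)).eval z =
      Coef.emb u * (p.map (Coef.emb : O →+* ℂ)).eval z := by
    intro p z
    rw [Polynomial.map_mul, eval_mul, map_C, eval_C]
  have z1 : ZF ((C u * q).map Coef.emb) := by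
    intro z hz
    rw [ev1]
    exact mul_ne_zero hue (zq z hz)
  have z2 : ZF ((C u * q + C u * (-g)).map Coef.emb) := by
    rw [e1]
    intro z hz
    rw [ev1]
    exact mul_ne_zero hue (hvz z hz)
  have c1 : (C u * q).coeff 0 = u * q.coeff 0 := by rw [coeff_C_mul]
  have c2 : (C u * q + C u * (-g)).coeff 0 = u * (q.coeff 0 - 1) := by
    rw [e1, coeff_C_mul, coeff_sub, hg0]
  have hbig' : 2 * ((Coef.emb ((C u * q).coeff 0) : ℂ) *
      (starRingEnd ℂ) (Coef.emb ((C u * q + C u * (-g)).coeff 0))).re ≤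
        3 * ‖(Coef.emb ((C u * q + C u * (-g)).coeff 0) : ℂ)‖ ^ 2 := by
    rw [c1, c2, map_mul, map_mul, map_mul, norm_mul, hun, one_mul]
    have h1 : (Coef.emb u : ℂ) * Coef.emb (q.coeff 0) * ((starRingEnd ℂ) (Coef.emb u) *
        (starRingEnd ℂ) (Coef.emb (q.coeff 0 - 1))) =
        Coef.emb (q.coeff 0) * (starRingEnd ℂ) (Coef.emb (q.coeff 0 - 1)) := by
      have h2 : (Coef.emb u : ℂ) * (starRingEnd ℂ) (Coef.emb u) = 1 := by
        rw [Complex.mul_conj, Complex.normSq_eq_norm_sq, hun]; norm_num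
      linear_combination (Coef.emb (q.coeff 0) *
        (starRingEnd ℂ) (Coef.emb (q.coeff 0 - 1))) * h2
    rw [h1]
    exact hbig
  obtain ⟨l, b, j, e, hj, F, hF⟩ := resF hQc hE2 hNd hDv hEv hZ hNn phi D S i0 eta h c n G fd hMc
    hsn k (C u * q) (C u * (-g)) hD0 hDS z1
  rcases resF_one hE2 hQm hNr hHp hTa hEv hZ hNn hF k (C u * q) (C u * (-g)) hD0 hDS z1 z2
    hbig' with h1 | ⟨t, n', c', hex⟩
  · left
    rw [h1] at hF
    exact ⟨l, b, j, e, hj, hF⟩
  · right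
    refine ⟨t, n', c', hex.nn, hex.t0, ?_, ?_⟩
    · have h1 := hex.eq0
      rw [c1, c2, map_mul, map_mul, map_mul, norm_mul, hun, one_mul] at h1
      have h2 : (Coef.emb u : ℂ) * Coef.emb (q.coeff 0) * ((starRingEnd ℂ) (Coef.emb u) *
          (starRingEnd ℂ) (Coef.emb (q.coeff 0 - 1))) =
          Coef.emb (q.coeff 0) * (starRingEnd ℂ) (Coef.emb (q.coeff 0 - 1)) := by
        have h2 : (Coef.emb u : ℂ) * (starRingEnd ℂ) (Coef.emb u) = 1 := by
          rw [Complex.mul_conj, Complex.normSq_eq_norm_sq, hun]; norm_num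
        linear_combination (Coef.emb (q.coeff 0) *
          (starRingEnd ℂ) (Coef.emb (q.coeff 0 - 1))) * h2
      rw [h2] at h1
      rw [coeff_sub, hg0]
      exact h1
    · have h1 := hex.eq
      rw [e1, Polynomial.map_mul, Polynomial.map_mul, map_C] at h1
      have h2 : (C (Coef.emb u : ℂ) : ℂ[X]) ≠ 0 := by rwa [Ne, C_eq_zero]
      apply mul_left_cancel₀ h2
      linear_combination h1

/-- The exhausted case over `Eis`. -/
theorem exhE3 (hU : UnitRS) (hM1 : M1S) (hMV : MVS) {et : Eis} (he : Et et) {t : RO Eis}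
    {p g : ℤ[X]} {n : ℕ} {c : ℝ} {N : ℕ}
    (h : Exh t (pE p - C et * pE g) (pE p - C et * pE g - pE g) n c) (hN : 3 ≤ N)
    (hp0 : p.coeff 0 = N) (hg0 : g.coeff 0 = 1)
    (hz : ∀ z : ℂ, ‖z‖ ≤ 1 → ((pE p - C et * pE g).map (Coef.emb : Eis →+* ℂ)).eval z ≠ 0) :
    g = 1 ∧ p = C (N : ℤ) := by
  obtain ⟨q, hq⟩ : ∃ q : Eis[X], q = pE p - C et * pE g := ⟨_, rfl⟩
  obtain ⟨v, hv⟩ : ∃ v : Eis[X], v = q - pE g := ⟨_, rfl⟩
  rw [← hq, ← hv] at h
  rw [← hq] at hz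
  have cg : (pE g).coeff 0 = 1 := by rw [coeff_map, hg0]; rfl
  have cp : (pE p).coeff 0 = ((N : ℤ) : Eis) := by rw [coeff_map, hp0]; rfl
  have cq : q.coeff 0 = ((N : ℤ) : Eis) - et := by
    rw [hq, coeff_sub, coeff_C_mul, cg, cp, mul_one]
  have cv : v.coeff 0 = ((N : ℤ) : Eis) - et - 1 := by
    rw [hv, coeff_sub, cg, cq]
  have ecq : (Coef.emb (q.coeff 0) : ℂ) = (N : ℂ) - Coef.emb et := by
    rw [cq, map_sub, embN]; push_cast; rfl
  have ecv : (Coef.emb (v.coeff 0) : ℂ) = (N : ℂ) - Coef.emb et - 1 := by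
    rw [cv, map_sub, map_sub, embN, map_one]; push_cast; rfl
  have hre := he.re
  have him := he.im
  have hN3 : N = 3 := by
    have h1 := h.eq0
    rw [← Complex.normSq_eq_norm_sq, Complex.normSq_apply, ecq, ecv] at h1
    simp only [Complex.mul_re, Complex.conj_re, Complex.conj_im, Complex.sub_re, Complex.sub_im,
      Complex.natCast_re, Complex.natCast_im, Complex.one_re, Complex.one_im, hre] at h1
    have h6 : (3 : ℝ) ≤ N := by exact_mod_cast hN
    have h7 : ((N : ℝ) - 2) * (N - 3) = 0 := by nlinarith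
    rcases mul_eq_zero.mp h7 with h8 | h8
    · linarith
    · have : (N : ℝ) = 3 := by linarith
      exact_mod_cast this
  subst hN3
  obtain ⟨be, hbe⟩ : ∃ be : Eis, be = ((3 : ℤ) : Eis) - et - 1 := ⟨_, rfl⟩
  have cq3 : q.coeff 0 = be + 1 := by rw [cq, hbe]; push_cast; ring
  have cv3 : v.coeff 0 = be := by rw [cv, hbe]; rfl
  have hbe0 : be ≠ 0 := by
    intro h1
    have h2 := congrArg (Coef.emb : Eis →+* ℂ) h1
    rw [hbe, map_sub, map_sub, embN, map_one, map_zero] at h2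
    have h3 := congrArg Complex.im h2
    simp at h3
    exact et_im_ne he h3
  have hbec : (Coef.emb be : ℂ) ≠ 0 := by
    intro h1
    exact hbe0 (emb_inj (h1.trans (map_zero _).symm))
  have heq := h.eq
  -- the constant
  have hk : (3 + (c : ℂ) * Complex.I) * Coef.emb be = 2 * (Coef.emb be + 1) := by
    have h1 := congrArg (fun f : ℂ[X] => f.coeff 0) heq
    simp only [mul_coeff_zero, coeff_C_zero, coeff_add, coeff_map, tO_coeff0, map_zero, mul_zero,
      add_zero, cq3, cv3, map_add, map_one] at h1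
    exact h1.symm
  have hmain : C be * q = (C (be + 1) + C be * tO t n) * v := by
    apply Polynomial.map_injective (Coef.emb : Eis →+* ℂ) emb_inj
    rw [Polynomial.map_mul, Polynomial.map_mul, Polynomial.map_add, Polynomial.map_mul, map_C,
      map_C, map_add, map_one]
    have h2 : (C (2 : ℂ) : ℂ[X]) ≠ 0 := by rw [Ne, C_eq_zero]; exact two_ne_zero
    apply mul_left_cancel₀ h2
    have h3 : (C (Coef.emb be : ℂ) : ℂ[X]) * C (3 + (c : ℂ) * Complex.I) =
        C 2 * C ((Coef.emb be : ℂ) + 1) := by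
      rw [← C_mul, ← C_mul, ← hk, mul_comm]
    calc C (2 : ℂ) * (C (Coef.emb be) * q.map (Coef.emb : Eis →+* ℂ))
        = C (Coef.emb be) * (C 2 * q.map (Coef.emb : Eis →+* ℂ)) := by ring
      _ = (C (Coef.emb be) * C (3 + (c : ℂ) * Complex.I) +
            C 2 * (C (Coef.emb be) * (tO t n).map (Coef.emb : Eis →+* ℂ))) *
            v.map (Coef.emb : Eis →+* ℂ) := by rw [heq]; ring
      _ = _ := by rw [h3]; ring
  obtain ⟨s, hs⟩ : ∃ s : Eis[X], s = q - tO t n * v - v := ⟨_, rfl⟩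
  have hC1 : (C (be + 1) : Eis[X]) = C be + 1 := by rw [C_add, C_1]
  have hvs : v = C be * s := by
    rw [hs]
    rw [hC1] at hmain
    linear_combination (-1 : Eis[X]) * hmain
  have hbC : (C be : Eis[X]) ≠ 0 := by rwa [Ne, C_eq_zero]
  have hqs : q = (C (be + 1) + C be * tO t n) * s := by
    apply mul_left_cancel₀ hbC
    rw [hmain]
    conv_lhs => rw [hvs]
    ring
  have hs0 : s.coeff 0 = 1 := by
    rw [hs, coeff_sub, coeff_sub, mul_coeff_zero, tO_coeff0, zero_mul, cq3, cv3]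
    ring
  have hs1 : s = 1 := by
    refine BP57.one_of_zf hU hM1 hMV hs0 fun z hz1 h5 => ?_
    apply hz z hz1
    rw [hqs, Polynomial.map_mul, eval_mul, h5, mul_zero]
  rw [hs1, mul_one] at hvs
  have hco : ∀ k : ℕ, g.coeff (k + 1) = 0 ∧ p.coeff (k + 1) = 0 := by
    intro k
    have h1 := congrArg (fun f : Eis[X] => f.coeff (k + 1)) hvs
    simp only [hv, hq, coeff_sub, coeff_C_mul, coeff_map, coeff_C_succ] at h1
    have h2 : (Int.castRingHom Eis) (p.coeff (k + 1)) = ((p.coeff (k + 1) : ℤ) : Eis) := rfl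
    have h3 : (Int.castRingHom Eis) (g.coeff (k + 1)) = ((g.coeff (k + 1) : ℤ) : Eis) := rfl
    rw [h2, h3] at h1
    have h4 : g.coeff (k + 1) = 0 := by
      refine et_zero he (a := p.coeff (k + 1) - g.coeff (k + 1)) ?_
      rw [Int.cast_sub]
      linear_combination h1
    refine ⟨h4, ?_⟩
    rw [h4, Int.cast_zero, mul_zero, sub_zero, sub_zero] at h1
    have h5 := congrArg (Coef.emb : Eis →+* ℂ) h1
    rw [embN, map_zero] at h5
    exact_mod_cast h5
  constructor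
  · ext k
    rcases k with _ | k
    · rw [hg0, coeff_one_zero]
    · rw [(hco k).1, coeff_one, if_neg (by omega)]
  · ext k
    rcases k with _ | k
    · rw [hp0, coeff_C_zero]
    · rw [(hco k).2, coeff_C_succ]

/-- **T2S1.** -/
theorem t2s1 (hQc : Qc3S) (hE2 : E2S) (hNd : Nd3vS) (hDv : Dv3S) (hQm : Qm3S) (hNr : Nr3S)
    (hHp : HpgS) (hTa : Ta3S) (hEv : EvRS) (hZ : ZfinS) (hNn : Nn3S) (hU : UnitRS) (hVZ : VZS)
    (hM1 : M1S) (hMV : MVS) (hV : VcoS)
    {P L : Type} [Fintype P] [DecidableEq P] [AddCommGroup L] [Module.Free ℤ L]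
    [Module.Finite ℤ L] {phi : L →+ (P → ℤ)} {E : AO ℤ L} {T b : L} {iT ib : P}
    {hiT : co phi iT T = 1} (hib : co phi ib b = 1) (hTib : phi T ib = 0) {eT eb : (RO ℤ)ˣ}
    (hD : DD phi E) (hm : Mut E T b eT eb) {et : Eis} (he : Et et) {k0 k1 : (RO Eis)ˣ}
    (hk1 : (k1 : RO Eis) = LaurentPolynomial.C et * bcR (eb : RO ℤ))
    {b' : Ker (co phi iT)} (hb' : (b' : L) = b) {hj0 : co (phO phi T iT) ib b' = 1} {c : RO Eis}
    {n : ℕ} {G : Fin n → AO Eis (Ker (co (phO phi T iT) ib))}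
    (fd : FD (phO phi T iT) (cl (co phi iT) T hiT k0 (bc E)) b' ib k1 hj0 c n G)
    (hMc : M c = 1) (hsn : (snp (phO phi T iT) b' ib G).Nonempty)
    {w : (RO ℤ)ˣ} {p : ℤ[X]} {N : ℕ} (hN : 3 ≤ N) {NV : ℝ}
    (hcv : ClassV NV ((cl (co phi iT) T hiT k0 (bc E)).coeff 0))
    (hp : (w : RO ℤ) * E.coeff 0 = toLaurent p) (hp0 : p.coeff 0 = N)
    (hgb : (w : RO ℤ) * ((eb : RO ℤ) * E.coeff b) = -1)
    (hH0 : ((bcU w : (RO Eis)ˣ) : RO Eis) * (cl (co phi iT) T hiT k0 (bc E)).coeff 0 =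
      toLaurent (pE p - C et * pE 1))
    (hHb : ((bcU w : (RO Eis)ˣ) : RO Eis) *
      ((k1 : RO Eis) * (cl (co phi iT) T hiT k0 (bc E)).coeff b') = -toLaurent (pE 1)) :
    p = C (N : ℤ) ∨ ∃ (X : Ker (co phi ib)) (e2 : (RO ℤ)ˣ),
      Ray (cl (co phi ib) b hib eb E) X ∧
      (w : RO ℤ) * (cl (co phi ib) b hib eb E).coeff 0 = toLaurent (p - 1) ∧
      (w : RO ℤ) * ((e2 : RO ℤ) * (cl (co phi ib) b hib eb E).coeff X) = -toLaurent (p - 2) := by
  have cg : (pE (1 : ℤ[X])).coeff 0 = 1 := by rw [pE, Polynomial.map_one, coeff_one_zero]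
  have cp : (pE p).coeff 0 = ((N : ℤ) : Eis) := by rw [BP57.pE_coeff, hp0]
  have cq : (pE p - C et * pE 1).coeff 0 = ((N : ℤ) : Eis) - et := by
    rw [coeff_sub, coeff_C_mul, cg, cp, mul_one]
  have ecq : (Coef.emb (((N : ℤ) : Eis) - et) : ℂ) = (N : ℂ) - Coef.emb et := by
    rw [map_sub, embN]; push_cast; rfl
  have ecv : (Coef.emb (((N : ℤ) : Eis) - et - 1) : ℂ) = (N : ℂ) - Coef.emb et - 1 := by
    rw [map_sub, ecq, map_one]
  have hre := he.re
  have him := he.im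
  have hN3 : (3 : ℝ) ≤ N := by exact_mod_cast hN
  have him0 := et_im_ne he
  obtain ⟨zp, zp1, h1⟩ := resn hQc hE2 hNd hDv hQm hNr hHp hTa hEv hZ hNn hU hVZ fd hMc
    hsn hcv hH0 hHb cg (by
      rw [cq]
      intro h2
      have h3 := congrArg (Coef.emb : Eis →+* ℂ) h2
      rw [ecq, map_zero] at h3
      have h4 := congrArg Complex.im h3
      simp at h4
      exact him0 h4) (by
      rw [cq, ecq, ecv, ← Complex.normSq_eq_norm_sq, Complex.normSq_apply]
      simp only [Complex.mul_re, Complex.conj_re, Complex.conj_im, Complex.sub_re, Complex.sub_im,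
        Complex.natCast_re, Complex.natCast_im, Complex.one_re, Complex.one_im, hre]
      nlinarith [mul_nonneg (by linarith : (0 : ℝ) ≤ (N : ℝ) - 2)
        (by linarith : (0 : ℝ) ≤ (N : ℝ) - 3)])
  rcases h1 with ⟨l, x, jx, e, hjx, H⟩ | ⟨t, n', c', hex⟩
  · right
    refine vray hV hU hib hTib hD hm he hk1 hb' H hN hp hp0 hgb ?_ ?_
    · rw [hH0, pE, pE, Polynomial.map_one, mul_one]
    · rw [hHb, pE, Polynomial.map_one, map_one]
  · left
    exact (exhE3 hU hM1 hMV he hex hN hp0 coeff_one_zero zp1).2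

end Pool.Agent.B5.BP90
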