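import Pool.Agent.Lib.MP_b5021c_nt.BP.H90.Fs
import Pool.Agent.Lib.MP_b5021c_nt.BP.H57.Eta

/-!
# MP_b5021c_nt, ALL THETA, BpS: the case `g = 1` of a small factor of `T2` (helper90)

`resF_one`: the residue is one, or the exhausted case. `vray`: `E` over `ℤ`, `T`, `b` mutual with
the coefficients `-1`, the closing `H(b)` of `H = E(w^T = eta eT)` at the load `eta eb` has a small
factor of mass one: then `V_b` has a ray `X` with the coefficient `-(p - 2)` up to a unit, and its
apex is `p - 1`.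
-/

namespace Pool.Agent.B5.BP90

open Polynomial Metric Pool.Agent.B5 Pool.Agent.B5.H71 Pool.Agent.B5.H96 Pool.Agent.B5.H29
open scoped Topology ComplexConjugate LaurentPolynomial
open Pool.Agent.MP_b5021c_nt (Eis)
open Pool.Agent.MP_b5021c_nt.Ire (bc)
open Pool.Agent.B5.H25.Bch

set_option linter.unusedSectionVars false

section

variable {O : Type} [CommRing O] [IsDomain O] [IsPrincipalIdealRing O]
    [Coef O] {P L : Type} [Fintype P] [DecidableEq P] [AddCommGroup L] [Module.Free ℤ L]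
    [Module.Finite ℤ L]

/-- The residue is one, or the exhausted case. -/
theorem resF_one (hE2 : E2S) (hQm : Qm3S) (hNr : Nr3S) (hHp : HpgS) (hTa : Ta3S) (hEv : EvRS)
    (hZ : ZfinS) (hNn : Nn3S) {phi : L →+ (P → ℤ)} {D : AO O L} {S : L} {i0 : P} {eta : (RO O)ˣ}
    {h : co phi i0 S = 1} {c : RO O} {n : ℕ} {G : Fin n → AO O (Ker (co phi i0))} {l : Fin n}
    {b : Ker (co phi i0)} {j : P} {e : (RO O)ˣ} {hj : co (phK phi (co phi i0)) j b = 1}
    {F : AO O (Ker (co (phK phi (co phi i0)) j))}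
    (H : ResF phi D S i0 eta h c n G l b j e hj F)
    (m : ℤ) (q f : O[X]) (hq : D.coeff 0 = LaurentPolynomial.T m * toLaurent q)
    (hf : (eta : RO O) * D.coeff S = LaurentPolynomial.T m * toLaurent f)
    (hqf : ZF (q.map Coef.emb)) (hvf : ZF ((q + f).map Coef.emb))
    (hbig : 2 * ((Coef.emb (q.coeff 0) : ℂ) *
      (starRingEnd ℂ) (Coef.emb ((q + f).coeff 0))).re ≤
        3 * ‖(Coef.emb ((q + f).coeff 0) : ℂ)‖ ^ 2) :
    F = 1 ∨ ∃ (t : RO O) (n : ℕ) (c : ℝ), Exh t q (q + f) n c := by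
  have fd := H.qc.fd
  obtain ⟨d0, -, -, -, -, edge⟩ := hE2 O P L phi D fd.cc.dd fd.cc.two
  have eS := (edge S fd.cc.ray).1
  obtain ⟨g, hg⟩ : ∃ g : RO O, g = c * (G l).coeff 0 := ⟨_, rfl⟩
  have hg0 : g ≠ 0 := by rw [hg]; exact mul_ne_zero fd.c0 H.qc.sp.u0.ne_zero
  have hV : D.coeff 0 + (eta : RO O) * D.coeff S = LaurentPolynomial.T m * toLaurent (q + f) := by
    rw [hq, hf, map_add, mul_add]
  have evD : ∀ z : Circle, evR z (D.coeff 0) =
      (z : ℂ) ^ m * (q.map (Coef.emb : O →+* ℂ)).eval (z : ℂ) := by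
    intro z
    rw [hq, ev_T_mul]
  have evS : ∀ z : Circle, evR z ((eta : RO O) * D.coeff S) =
      (z : ℂ) ^ m * (f.map (Coef.emb : O →+* ℂ)).eval (z : ℂ) := by
    intro z
    rw [hf, ev_T_mul]
  have qz1 : ∀ z : ℂ, ‖z‖ = 1 → (q.map (Coef.emb : O →+* ℂ)).eval z ≠ 0 := by
    intro z hz
    obtain ⟨w, rfl⟩ := H93.exists_circle hz
    have h1 := d0 w
    rw [evD w] at h1
    exact right_ne_zero_of_mul h1
  have qz : ∀ z : ℂ, ‖z‖ ≤ 1 → (q.map (Coef.emb : O →+* ℂ)).eval z ≠ 0 := by
    intro z hz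
    rcases hz.lt_or_eq with h1 | h1
    · exact hqf z h1
    · exact qz1 z h1
  have le1 : ∀ z : ℂ, ‖z‖ = 1 → ‖(f.map (Coef.emb : O →+* ℂ)).eval z‖ ≤
      ‖(q.map (Coef.emb : O →+* ℂ)).eval z‖ := by
    intro z hz
    obtain ⟨w, rfl⟩ := H93.exists_circle hz
    have h1 := eS w
    have h2 : ‖evR w ((eta : RO O) * D.coeff S)‖ = ‖evR w (D.coeff S)‖ := by
      rw [map_mul, norm_mul, (hEv O).2.1 w _ eta.isUnit, one_mul]
    rw [← h2, evS w, evD w, norm_mul, norm_mul, norm_circle, one_mul, one_mul] at h1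
    exact h1
  have trsh : rsh (F.coeff 0) = F.coeff 0 := by
    have h1 := sharp_coeff' F 0
    rw [H.sym, neg_zero] at h1
    exact h1.symm
  have tim : ∀ z : Circle, (evR z (F.coeff 0)).im = 0 := by
    intro z
    have h1 := (hEv O).2.2.1 z (F.coeff 0)
    rw [trsh] at h1
    exact Complex.conj_eq_iff_im.mp h1.symm
  have tnn : NnR (F.coeff 0) := by
    intro z
    refine ⟨tim z, ?_⟩
    by_cases h1 : spec z F = 0
    · have h2 : evR z (F.coeff 0) = 0 := by
        rw [← spec_coeff, h1]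
        rfl
      rw [h2]
      exact le_refl _
    · have h2 := (hNn _ (spec z F) h1 (fun u => H.nnt z u)).1
      rw [spec_coeff] at h2
      exact h2.le
  have hcont : ∀ p : RO O, Continuous fun z : Circle => evR z p := (hEv O).2.2.2
  have hineq : ∀ z : Circle, (evR z (F.coeff 0)).re *
      ‖evR z (D.coeff 0 + (eta : RO O) * D.coeff S)‖ ^ 2 ≤
      2 * (evR z (D.coeff 0) *
          (starRingEnd ℂ) (evR z (D.coeff 0 + (eta : RO O) * D.coeff S))).re -
        ‖evR z (D.coeff 0 + (eta : RO O) * D.coeff S)‖ ^ 2 := by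
    apply le_of_dense hZ g hg0
    · exact (Complex.continuous_re.comp (hcont _)).mul ((hcont _).norm.pow 2)
    · exact (continuous_const.mul (Complex.continuous_re.comp ((hcont _).mul
        (Complex.continuous_conj.comp (hcont _))))).sub ((hcont _).norm.pow 2)
    · intro z hz
      have h1 := hQm O P L phi D S i0 eta h c n G l b j e hj _ H.qc z
      have h2 : (cst (c * (G l).coeff 0) * F).coeff 0 = g * F.coeff 0 := by
        rw [hg, H71.cst_mul_coeff]
      rw [h2, ← hg] at h1
      have h3 : (evR z (g * F.coeff 0) * (starRingEnd ℂ) (evR z g)).re =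
          ‖evR z g‖ ^ 2 * (evR z (F.coeff 0)).re := by
        have h4 : evR z (g * F.coeff 0) * (starRingEnd ℂ) (evR z g) =
            ((‖evR z g‖ ^ 2 : ℝ) : ℂ) * evR z (F.coeff 0) := by
          rw [map_mul, mul_comm (evR z g), mul_assoc, Complex.mul_conj,
            Complex.normSq_eq_norm_sq, mul_comm]
        rw [h4, Complex.re_ofReal_mul]
      rw [h3] at h1
      have h5 : 0 < ‖evR z g‖ ^ 2 := pow_pos (norm_pos_iff.mpr hz) 2
      have h6 : ‖evR z g‖ ^ 2 * ((evR z (F.coeff 0)).re *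
          ‖evR z (D.coeff 0 + (eta : RO O) * D.coeff S)‖ ^ 2) ≤ ‖evR z g‖ ^ 2 *
          (2 * (evR z (D.coeff 0) *
          (starRingEnd ℂ) (evR z (D.coeff 0 + (eta : RO O) * D.coeff S))).re -
        ‖evR z (D.coeff 0 + (eta : RO O) * D.coeff S)‖ ^ 2) := by
        linarith
      exact le_of_mul_le_mul_left h6 h5
  have hineq' : ∀ z : Circle, (evR z (F.coeff 0)).re *
      ‖((q + f).map (Coef.emb : O →+* ℂ)).eval (z : ℂ)‖ ^ 2 ≤
      2 * ((q.map (Coef.emb : O →+* ℂ)).eval (z : ℂ) *
        (starRingEnd ℂ) (((q + f).map (Coef.emb : O →+* ℂ)).eval (z : ℂ))).re -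
        ‖((q + f).map (Coef.emb : O →+* ℂ)).eval (z : ℂ)‖ ^ 2 := by
    intro z
    have h1 := hineq z
    rw [hV, hq, ev_T_mul, ev_T_mul, circ_mul_conj, norm_mul, norm_circle, one_mul] at h1
    exact h1
  rcases t03w hNr hHp (F.coeff 0) q f H.t0 tnn qz hvf le1 hineq' hbig with t1 | ⟨n', c', hex⟩
  · exact Or.inl (hTa O _ F H.nnt t1)
  · exact Or.inr ⟨_, n', c', hex⟩

end

/-! ## A rational element -/

/-- An element of `RO ℤ` which is an integral polynomial up to a unit of `RO Eis`. -/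
theorem unit_rat (hU : UnitRS) {q : RO ℤ} {om : (RO Eis)ˣ} {r : ℤ[X]} (hr : r.coeff 0 ≠ 0)
    (h : bcR q = (om : RO Eis) * toLaurent (pE r)) :
    ∃ e : (RO ℤ)ˣ, (e : RO ℤ) * q = -toLaurent r := by
  obtain ⟨k, s, hs, hom⟩ := (hU Eis _).mp om.isUnit
  have hr0 : (pE r).coeff 0 ≠ 0 := by
    rw [BP57.pE_coeff]
    intro h1
    apply hr
    have h2 := congrArg (Coef.emb : Eis →+* ℂ) h1
    rw [embN, map_zero] at h2
    exact_mod_cast h2
  have hs0 : s ≠ 0 := hs.ne_zero
  have hq0 : q ≠ 0 := by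
    rintro rfl
    rw [map_zero] at h
    have h1 := (mul_eq_zero.mp h.symm).resolve_left om.ne_zero
    apply hr0
    have h2 : pE r = 0 := by
      apply toLaurent_injective
      rw [h1, map_zero]
    rw [h2, coeff_zero]
  obtain ⟨m, q', hq'0, hq'⟩ := H70.normalO q hq0
  have hq'1 : (pE q').coeff 0 ≠ 0 := by
    rw [BP57.pE_coeff]
    intro h1
    apply hq'0
    have h2 := congrArg (Coef.emb : Eis →+* ℂ) h1
    rw [embN, map_zero] at h2
    exact_mod_cast h2
  have h1 : LaurentPolynomial.T m * toLaurent (pE q') =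
      LaurentPolynomial.T k * toLaurent (C s * pE r) := by
    rw [map_mul, toLaurent_C, ← mul_assoc, ← hom.trans (mul_comm _ _), ← h, hq', map_mul, bcR_T,
      bcR_L]
  obtain ⟨-, h2⟩ := H09.nf_unique m k (pE q') (C s * pE r) hq'1 (by
    rw [coeff_C_mul]; exact mul_ne_zero hs0 hr0) h1
  -- `s = ± 1`
  have h3 : ((q'.coeff 0 : ℤ) : Eis) = s * ((r.coeff 0 : ℤ) : Eis) := by
    have h4 := congrArg (fun f : Eis[X] => f.coeff 0) h2
    simp only [coeff_C_mul, BP57.pE_coeff] at h4
    exact h4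
  have hsn : ‖(Coef.emb s : ℂ)‖ = 1 := BP57.norm_unit hs.unit
  have h4 : |q'.coeff 0| = |r.coeff 0| := by
    have h5 := congrArg (fun x : Eis => ‖(Coef.emb x : ℂ)‖) h3
    simp only [map_mul, norm_mul, hsn, one_mul, embN, Complex.norm_intCast] at h5
    exact_mod_cast h5
  have hs1 : ∃ σ : ℤ, (σ = 1 ∨ σ = -1) ∧ s = ((σ : ℤ) : Eis) := by
    have hrE : ((r.coeff 0 : ℤ) : Eis) ≠ 0 := by
      rw [← BP57.pE_coeff]
      exact hr0
    rcases abs_eq_abs.mp h4 with h5 | h5
    · refine ⟨1, Or.inl rfl, ?_⟩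
      rw [h5] at h3
      have h6 : (1 : Eis) * ((r.coeff 0 : ℤ) : Eis) = s * ((r.coeff 0 : ℤ) : Eis) := by
        rw [one_mul]; exact h3
      rw [← mul_right_cancel₀ hrE h6]
      push_cast
      rfl
    · refine ⟨-1, Or.inr rfl, ?_⟩
      rw [h5] at h3
      have h6 : (-1 : Eis) * ((r.coeff 0 : ℤ) : Eis) = s * ((r.coeff 0 : ℤ) : Eis) := by
        rw [← h3]; push_cast; ring
      rw [← mul_right_cancel₀ hrE h6]
      push_cast
      rfl
  obtain ⟨σ, hσ, hsσ⟩ := hs1
  have h5 : q' = C σ * r := by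
    apply pE_inj
    rw [h2, hsσ]
    simp only [pE, Polynomial.map_mul, map_C]
    rfl
  have hσ2 : σ * σ = 1 := by
    rcases hσ with h6 | h6 <;> rw [h6] <;> norm_num
  have hu : IsUnit (-(LaurentPolynomial.C σ * LaurentPolynomial.T (-m)) : RO ℤ) := by
    apply IsUnit.neg
    apply IsUnit.mul
    · exact IsUnit.of_mul_eq_one (LaurentPolynomial.C σ) (by rw [← map_mul, hσ2, map_one])
    · exact LaurentPolynomial.isUnit_T (-m)
  refine ⟨hu.unit, ?_⟩
  rw [IsUnit.unit_spec, hq', h5, map_mul, toLaurent_C]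
  have h7 : (LaurentPolynomial.T (-m) : RO ℤ) * LaurentPolynomial.T m = 1 := by
    rw [← LaurentPolynomial.T_add, neg_add_cancel, LaurentPolynomial.T_zero]
  have h8 : (LaurentPolynomial.C σ : RO ℤ) * LaurentPolynomial.C σ = 1 := by
    rw [← map_mul, hσ2, map_one]
  linear_combination (-(LaurentPolynomial.C σ * LaurentPolynomial.C σ) * toLaurent r) * h7 -
    toLaurent r * h8

/-! ## The ray -/

section

variable {P L : Type} [Fintype P] [DecidableEq P] [AddCommGroup L] [Module.Free ℤ L]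
    [Module.Finite ℤ L]

/-- **The ray `X` of `V_b`.** -/
theorem vray (hV : VcoS) (hU : UnitRS) {phi : L →+ (P → ℤ)} {E : AO ℤ L} {T b : L} {iT ib : P}
    {hiT : co phi iT T = 1} (hib : co phi ib b = 1) (hTib : phi T ib = 0) {eT eb : (RO ℤ)ˣ}
    (hD : DD phi E) (hm : Mut E T b eT eb) {et : Eis} (he : Et et) {k0 k1 : (RO Eis)ˣ}
    (hk1 : (k1 : RO Eis) = LaurentPolynomial.C et * bcR (eb : RO ℤ))
    {b' : Ker (co phi iT)} (hb' : (b' : L) = b) {hj0 : co (phO phi T iT) ib b' = 1} {c : RO Eis}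
    {n : ℕ} {G : Fin n → AO Eis (Ker (co (phO phi T iT) ib))} {l : Fin n}
    {x : Ker (co (phO phi T iT) ib)} {jx : P} {e : (RO Eis)ˣ}
    {hjx : co (phK (phO phi T iT) (co (phO phi T iT) ib)) jx x = 1}
    (H : ResF (phO phi T iT) (cl (co phi iT) T hiT k0 (bc E)) b' ib k1 hj0 c n G l x jx e hjx 1)
    {w : (RO ℤ)ˣ} {p : ℤ[X]} {N : ℕ} (hN : 3 ≤ N)
    (hp : (w : RO ℤ) * E.coeff 0 = toLaurent p) (hp0 : p.coeff 0 = N)
    (hgb : (w : RO ℤ) * ((eb : RO ℤ) * E.coeff b) = -1)
    (hH0 : ((bcU w : (RO Eis)ˣ) : RO Eis) * (cl (co phi iT) T hiT k0 (bc E)).coeff 0 =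
      toLaurent (pE p - C et))
    (hHb : ((bcU w : (RO Eis)ˣ) : RO Eis) *
      ((k1 : RO Eis) * (cl (co phi iT) T hiT k0 (bc E)).coeff b') = -1) :
    ∃ (X : Ker (co phi ib)) (e2 : (RO ℤ)ˣ), Ray (cl (co phi ib) b hib eb E) X ∧
      (w : RO ℤ) * (cl (co phi ib) b hib eb E).coeff 0 = toLaurent (p - 1) ∧
      (w : RO ℤ) * ((e2 : RO ℤ) * (cl (co phi ib) b hib eb E).coeff X) = -toLaurent (p - 2) := by
  classical
  obtain ⟨U, -, hpr⟩ := H.parts
  have hDb := hD.bin
  have hHbin := H.qc.fd.cc.dd.bin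
  obtain ⟨Hh, hHd⟩ : ∃ Hh, Hh = cl (co phi iT) T hiT k0 (bc E) := ⟨_, rfl⟩
  have hray := H.qc.fd.cc.ray
  have hjO := H.qc.sp.jO
  rw [← hHd] at hpr hHbin hH0 hHb hray
  -- ports
  have psib : phi (b' : L) iT = 0 := b'.2
  have hbT : phi b iT = 0 := by rw [← hb']; exact psib
  have pT : ∀ i, phO phi T iT b' i = if phi T i = 0 then phi (b' : L) i else 0 := fun i => rfl
  have pO : ∀ (a : Ker (co phi iT)) (i : P), phO phi T iT a i =
      if phi T i = 0 then phi (a : L) i else 0 := fun a i => rfl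
  -- coefficients
  have cH : ∀ a : Ker (co phi iT), Hh.coeff a =
      bcR (E.coeff (a : L)) + (k0 : RO Eis) * bcR (E.coeff ((a : L) + T)) := by
    intro a
    rw [hHd, H36.clc (co phi iT) T hiT k0 (bc E) (fun a ha => by
      rw [supp_bc] at ha
      exact hDb a ha iT), bc_co, bc_co]
  have cV : ∀ a : Ker (co (phO phi T iT) ib), (cl (co (phO phi T iT) ib) b' hj0 k1 Hh).coeff a =
      Hh.coeff (a : Ker (co phi iT)) + (k1 : RO Eis) * Hh.coeff ((a : Ker (co phi iT)) + b') := by
    intro a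
    exact H36.clc (co (phO phi T iT) ib) b' hj0 k1 Hh (fun a ha => hHbin a ha ib) a
  obtain ⟨vb, hvb⟩ : ∃ vb : L → RO ℤ, ∀ y, vb y = E.coeff y + (eb : RO ℤ) * E.coeff (y + b) :=
    ⟨_, fun _ => rfl⟩
  have cVb : ∀ a : Ker (co phi ib), (cl (co phi ib) b hib eb E).coeff a = vb (a : L) := by
    intro a
    rw [hvb, H36.clc (co phi ib) b hib eb E (fun a ha => hDb a ha ib)]
  have hCm : (LaurentPolynomial.C (1 - et) : RO Eis) * LaurentPolynomial.C et = 1 := by
    rw [← map_mul, mul_comm, BP57.et_mul he, map_one]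
  have hC : (LaurentPolynomial.C et : RO Eis) + LaurentPolynomial.C (1 - et) = 1 := by
    rw [← map_add, add_sub_cancel, map_one]
  have hku : (LaurentPolynomial.C (1 - et) : RO Eis) * (k1 : RO Eis) = bcR (eb : RO ℤ) := by
    rw [hk1, ← mul_assoc, hCm, one_mul]
  -- `W`
  obtain ⟨W, hW⟩ : ∃ W : Ker (co (phO phi T iT) ib) → RO Eis, ∀ a, W a =
      LaurentPolynomial.C et * Hh.coeff (a : Ker (co phi iT)) +
        LaurentPolynomial.C (1 - et) * (cl (co (phO phi T iT) ib) b' hj0 k1 Hh).coeff a :=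
    ⟨_, fun _ => rfl⟩
  have W1 : ∀ a : Ker (co (phO phi T iT) ib), W a =
      bcR (vb ((a : Ker (co phi iT)) : L)) +
        (k0 : RO Eis) * bcR (vb (((a : Ker (co phi iT)) : L) + T)) := by
    intro a
    have h1 : ((((a : Ker (co phi iT)) + b' : Ker (co phi iT))) : L) =
        ((a : Ker (co phi iT)) : L) + b := by rw [Submodule.coe_add, hb']
    rw [hW, cV, cH (a : Ker (co phi iT)), cH ((a : Ker (co phi iT)) + b'), h1, hvb, hvb,
      map_add bcR, map_add bcR, map_mul bcR, map_mul bcR]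
    have h2 : ((a : Ker (co phi iT)) : L) + b + T = ((a : Ker (co phi iT)) : L) + T + b := by abel
    rw [h2, ← hku]
    linear_combination (bcR (E.coeff ((a : Ker (co phi iT)) : L)) +
      (k0 : RO Eis) * bcR (E.coeff (((a : Ker (co phi iT)) : L) + T))) * hC
  -- `T` is outside the space of `V_b`
  have hbS := hDb b hm.r1.1
  obtain ⟨-, -, -, -, v5⟩ := hV ℤ P L phi E b eb hD.inj hDb hbS hm.r1.2.1
  have inUS : ∀ y : L, phi y ib = 0 → vb y ≠ 0 → y ∈ US eb b E := by
    intro y hy h1
    refine ⟨1, one_ne_zero, ?_⟩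
    rw [one_smul]
    apply Submodule.subset_span
    right
    change vco eb b E y ≠ 0
    have h2 := v5 ib hib ⟨y, hy⟩
    rw [cVb] at h2
    rw [← h2]
    exact h1
  have hTU := hm.m1
  have key1 : ∀ y : L, phi y ib = 0 → vb y ≠ 0 → vb (y + T) = 0 := by
    intro y hy h1
    by_contra h2
    apply hTU
    have h3 := inUS y hy h1
    have h4 := inUS (y + T) (by rw [map_add, Pi.add_apply, hy, hTib, add_zero]) h2
    have h5 := Submodule.sub_mem _ h4 h3
    rwa [add_sub_cancel_left] at h5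
  have vbT : vb T = 0 := by
    by_contra h1
    exact hTU (inUS T hTib h1)
  -- the parts of `W`
  have eI : (e : RO Eis) * ((e⁻¹ : (RO Eis)ˣ) : RO Eis) = 1 := Units.mul_inv e
  have Wr : ∀ r : Ker (co (phK (phO phi T iT) (co (phO phi T iT) ib)) jx),
      W (r : Ker (co (phO phi T iT) ib)) = LaurentPolynomial.C et *
        Hh.coeff ((r : Ker (co (phO phi T iT) ib)) : Ker (co phi iT)) +
        LaurentPolynomial.C (1 - et) * U.coeff r := by
    intro r
    rw [hW, (hpr r).1]
  have Wx : ∀ r : Ker (co (phK (phO phi T iT) (co (phO phi T iT) ib)) jx),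
      (e : RO Eis) * W ((r : Ker (co (phO phi T iT) ib)) + x) = LaurentPolynomial.C et *
        (U.coeff r - Hh.coeff ((r : Ker (co (phO phi T iT) ib)) : Ker (co phi iT))) -
        LaurentPolynomial.C (1 - et) * U.coeff r := by
    intro r
    have h1 := (hpr r).2.2
    rw [one_mul] at h1
    rw [hW, (hpr r).2.1]
    linear_combination LaurentPolynomial.C et * h1 -
      LaurentPolynomial.C (1 - et) * U.coeff r * eI
  -- the class of `x`
  have hU0 : ((bcU w : (RO Eis)ˣ) : RO Eis) * U.coeff 0 = toLaurent (pE p - C et) - 1 := by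
    have h1 := (hpr 0).1
    have h00 : ((0 : Ker (co (phK (phO phi T iT) (co (phO phi T iT) ib)) jx)) :
      Ker (co (phO phi T iT) ib)) = 0 := rfl
    have h01 : ((0 : Ker (co (phO phi T iT) ib)) : Ker (co phi iT)) = 0 := rfl
    rw [h00, cV, h01, zero_add] at h1
    rw [← h1, mul_add, hH0, hHb]
    ring
  have hWx0 : (e : RO Eis) * (((bcU w : (RO Eis)ˣ) : RO Eis) * W x) =
      -(LaurentPolynomial.C (1 - et) * toLaurent (pE (p - 2))) := by
    have h1 := Wx 0
    have h00 : ((0 : Ker (co (phK (phO phi T iT) (co (phO phi T iT) ib)) jx)) :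
      Ker (co (phO phi T iT) ib)) = 0 := rfl
    have h01 : ((0 : Ker (co (phO phi T iT) ib)) : Ker (co phi iT)) = 0 := rfl
    rw [h00, h01, zero_add] at h1
    have h2' : (2 : ℤ[X]).map (Int.castRingHom Eis) = 2 := by
      exact_mod_cast Polynomial.map_natCast (Int.castRingHom Eis) 2
    have h2 : (pE (p - 2) : Eis[X]) = pE p - 2 := by
      rw [pE, Polynomial.map_sub, h2']
    have h3 : (toLaurent (pE p - 2) : RO Eis) = toLaurent (pE p) - 2 := by
      have h4 : (toLaurent (2 : Eis[X]) : RO Eis) = 2 := by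
        have h5 := map_natCast (toLaurent : Eis[X] →+* RO Eis) 2
        exact_mod_cast h5
      rw [map_sub, h4]
    rw [map_sub toLaurent, toLaurent_C] at hH0 hU0
    rw [h2, h3]
    linear_combination ((bcU w : (RO Eis)ˣ) : RO Eis) * h1 +
      (LaurentPolynomial.C et - LaurentPolynomial.C (1 - et)) * hU0 -
      LaurentPolynomial.C et * hH0 + hCm - hC
  -- ports of `x`
  have hxj : phi (((x : Ker (co (phO phi T iT) ib)) : Ker (co phi iT)) : L) jx = 1 ∧
      phi T jx = 0 := by
    have h1 : phO phi T iT (x : Ker (co phi iT)) jx = 1 := hjx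
    rw [pO] at h1
    by_cases h2 : phi T jx = 0
    · rw [if_pos h2] at h1
      exact ⟨h1, h2⟩
    · rw [if_neg h2] at h1
      exact absurd h1 (by norm_num)
  have hbj : phO phi T iT b' jx = 0 := (Finset.mem_filter.mp hjO).2
  have hmK : ∀ a : Ker (co (phO phi T iT) ib), phi ((a : Ker (co phi iT)) : L) ib = 0 := by
    intro a
    have h1 : phO phi T iT (a : Ker (co phi iT)) ib = 0 := a.2
    rw [pO, if_pos hTib] at h1
    exact h1
  -- the exposing functional
  obtain ⟨-, -, lam, lamS, lamp⟩ := hray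
  have z1 : ∀ r : Ker (co (phK (phO phi T iT) (co (phO phi T iT) ib)) jx), r ≠ 0 →
      Hh.coeff ((r : Ker (co (phO phi T iT) ib)) : Ker (co phi iT)) ≠ 0 →
      0 < lam ((r : Ker (co (phO phi T iT) ib)) : Ker (co phi iT)) := by
    intro r h2 h3
    refine lamp _ h3 (fun h5 => h2 (Subtype.ext (Subtype.ext h5))) (fun h5 => ?_)
    have h6 := mem_Ker.mp (r : Ker (co (phO phi T iT) ib)).2
    rw [h5, hj0] at h6
    exact one_ne_zero h6
  have z2 : ∀ r : Ker (co (phK (phO phi T iT) (co (phO phi T iT) ib)) jx), r ≠ 0 →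
      U.coeff r ≠ 0 → 0 < lam ((r : Ker (co (phO phi T iT) ib)) : Ker (co phi iT)) := by
    intro r h2 h3
    by_cases h4 : Hh.coeff ((r : Ker (co (phO phi T iT) ib)) : Ker (co phi iT)) = 0
    · rw [← (hpr r).1, cV, h4, zero_add] at h3
      have h5 := right_ne_zero_of_mul h3
      have h6 := lamp _ h5 (fun h7 => by
        have h8 := mem_Ker.mp (r : Ker (co (phO phi T iT) ib)).2
        have h9 := congrArg (co (phO phi T iT) ib) h7
        rw [map_add, h8, hj0, map_zero] at h9
        norm_num at h9) (fun h7 => by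
        apply h2
        apply Subtype.ext
        apply Subtype.ext
        exact add_right_cancel (h7.trans (zero_add b').symm))
      rw [map_add, lamS, add_zero] at h6
      exact h6
    · exact z1 r h2 h4
  obtain ⟨lam', hlam'⟩ : ∃ lam' : Ker (co phi iT) →+ ℤ, ∀ a, lam' a =
      lam a - lam (x : Ker (co phi iT)) * phO phi T iT a jx := by
    refine ⟨lam - (AddMonoidHom.mulLeft (lam (x : Ker (co phi iT)))).comp (co (phO phi T iT) jx),
      fun a => rfl⟩
  -- exponents of `W`
  have expW : ∀ a : Ker (co (phO phi T iT) ib), W a ≠ 0 → a ≠ 0 → a ≠ x →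
      0 < lam' (a : Ker (co phi iT)) := by
    intro a ha h0 hx
    have hport : phO phi T iT (a : Ker (co phi iT)) jx = 0 ∨
        phO phi T iT (a : Ker (co phi iT)) jx = 1 := by
      by_cases h1 : Hh.coeff (a : Ker (co phi iT)) = 0
      · have h2 : Hh.coeff ((a : Ker (co phi iT)) + b') ≠ 0 := by
          intro h3
          apply ha
          rw [hW, cV, h1, h3]
          ring
        have h3 := hHbin _ h2 jx
        rw [map_add, Pi.add_apply, hbj, add_zero] at h3
        exact h3
      · exact hHbin _ h1 jx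
    rcases hport with h1 | h1
    · have hr : a ∈ Ker (co (phK (phO phi T iT) (co (phO phi T iT) ib)) jx) := mem_Ker.mpr h1
      rw [hlam', h1, mul_zero, sub_zero]
      by_cases h2 : Hh.coeff (a : Ker (co phi iT)) = 0
      · have h3 := Wr ⟨a, hr⟩
        apply z2 ⟨a, hr⟩ (fun h4 => h0 (congrArg Subtype.val h4))
        intro h4
        apply ha
        rw [h3, h4]
        change LaurentPolynomial.C et * Hh.coeff (a : Ker (co phi iT)) + _ = 0
        rw [h2, mul_zero, mul_zero, add_zero]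
      · exact z1 ⟨a, hr⟩ (fun h4 => h0 (congrArg Subtype.val h4)) h2
    · have hr : a - x ∈ Ker (co (phK (phO phi T iT) (co (phO phi T iT) ib)) jx) := by
        rw [mem_Ker, map_sub, hjx]
        change phO phi T iT (a : Ker (co phi iT)) jx - 1 = 0
        rw [h1, sub_self]
      have hl : lam' (a : Ker (co phi iT)) = lam ((a - x : Ker (co (phO phi T iT) ib)) :
          Ker (co phi iT)) := by
        rw [hlam', h1, mul_one, Submodule.coe_sub, map_sub]
      rw [hl]
      have h3 := Wx ⟨a - x, hr⟩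
      have h5 : ((⟨a - x, hr⟩ : Ker (co (phK (phO phi T iT) (co (phO phi T iT) ib)) jx)) :
        Ker (co (phO phi T iT) ib)) + x = a := sub_add_cancel a x
      rw [h5] at h3
      have hne : (⟨a - x, hr⟩ : Ker (co (phK (phO phi T iT) (co (phO phi T iT) ib)) jx)) ≠ 0 :=
        fun h4 => hx (sub_eq_zero.mp (congrArg Subtype.val h4))
      by_cases h2 : Hh.coeff ((a - x : Ker (co (phO phi T iT) ib)) : Ker (co phi iT)) = 0
      · apply z2 ⟨a - x, hr⟩ hne
        intro h4
        apply ha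
        have h6 : (e : RO Eis) * W a = 0 := by
          rw [h3, h4]
          change LaurentPolynomial.C et *
            (0 - Hh.coeff ((a - x : Ker (co (phO phi T iT) ib)) : Ker (co phi iT))) - _ = 0
          rw [h2]
          ring
        exact (mul_eq_zero.mp h6).resolve_left e.ne_zero
      · exact z1 ⟨a - x, hr⟩ hne h2
  -- the exponent `X`
  have hp2 : (p - 2).coeff 0 ≠ 0 := by
    rw [coeff_sub, hp0]
    have h1 : (2 : ℤ[X]).coeff 0 = 2 := by simp
    rw [h1]
    omega
  have hp2' : pE (p - 2) ≠ 0 := by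
    intro h1
    apply hp2
    have h2 : p - 2 = 0 := by
      apply pE_inj
      rw [h1, pE, Polynomial.map_zero]
    rw [h2, coeff_zero]
  have hxib : phi (((x : Ker (co (phO phi T iT) ib)) : Ker (co phi iT)) : L) ib = 0 := hmK x
  have hxiT : phi (((x : Ker (co (phO phi T iT) ib)) : Ker (co phi iT)) : L) iT = 0 :=
    (x : Ker (co phi iT)).2
  obtain ⟨s, hs, om, hom⟩ : ∃ s : ℤ, (s = 0 ∨ s = 1) ∧ ∃ om : (RO Eis)ˣ,
      bcR ((w : RO ℤ) * vb (((x : Ker (co phi iT)) : L) + s • T)) =
        (om : RO Eis) * toLaurent (pE (p - 2)) := by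
    have hW0 := W1 x
    have hcu : IsUnit (-(LaurentPolynomial.C (1 - et) : RO Eis)) :=
      IsUnit.neg (IsUnit.of_mul_eq_one _ hCm)
    by_cases h1 : vb ((x : Ker (co phi iT)) : L) = 0
    · refine ⟨1, Or.inr rfl, hcu.unit * e⁻¹ * k0⁻¹, ?_⟩
      rw [h1, map_zero, zero_add] at hW0
      rw [one_smul, map_mul, Units.val_mul, Units.val_mul, IsUnit.unit_spec]
      rw [hW0] at hWx0
      have h2 : ((bcU w : (RO Eis)ˣ) : RO Eis) = bcR (w : RO ℤ) := rfl
      rw [h2] at hWx0
      have h3 : ((k0⁻¹ : (RO Eis)ˣ) : RO Eis) * (k0 : RO Eis) = 1 := Units.inv_mul k0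
      have h4 : ((e⁻¹ : (RO Eis)ˣ) : RO Eis) * (e : RO Eis) = 1 := Units.inv_mul e
      linear_combination ((e⁻¹ : (RO Eis)ˣ) : RO Eis) * ((k0⁻¹ : (RO Eis)ˣ) : RO Eis) * hWx0 -
        bcR (w : RO ℤ) * bcR (vb (((x : Ker (co phi iT)) : L) + T)) *
          ((e⁻¹ : (RO Eis)ˣ) : RO Eis) * (e : RO Eis) * h3 -
        bcR (w : RO ℤ) * bcR (vb (((x : Ker (co phi iT)) : L) + T)) * h4
    · refine ⟨0, Or.inl rfl, hcu.unit * e⁻¹, ?_⟩
      rw [key1 _ hxib h1, map_zero, mul_zero, add_zero] at hW0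
      rw [zero_smul, add_zero, map_mul, Units.val_mul, IsUnit.unit_spec]
      rw [hW0] at hWx0
      have h2 : ((bcU w : (RO Eis)ˣ) : RO Eis) = bcR (w : RO ℤ) := rfl
      rw [h2] at hWx0
      have h4 : ((e⁻¹ : (RO Eis)ˣ) : RO Eis) * (e : RO Eis) = 1 := Units.inv_mul e
      linear_combination ((e⁻¹ : (RO Eis)ˣ) : RO Eis) * hWx0 -
        bcR (w : RO ℤ) * bcR (vb ((x : Ker (co phi iT)) : L)) * h4
  obtain ⟨e2, he2⟩ := unit_rat hU hp2 hom
  obtain ⟨X, hX⟩ : ∃ X : Ker (co phi ib), (X : L) = ((x : Ker (co phi iT)) : L) + s • T := by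
    refine ⟨⟨((x : Ker (co phi iT)) : L) + s • T, ?_⟩, rfl⟩
    rw [mem_Ker]
    change phi (((x : Ker (co phi iT)) : L) + s • T) ib = 0
    rw [map_add, map_zsmul, Pi.add_apply, Pi.smul_apply, hxib, hTib, smul_zero, add_zero]
  have hXv : (w : RO ℤ) * ((e2 : RO ℤ) * (cl (co phi ib) b hib eb E).coeff X) =
      -toLaurent (p - 2) := by
    rw [cVb, hX, ← he2]
    ring
  refine ⟨X, e2, ⟨?_, ?_, ?_⟩, ?_, hXv⟩
  · intro h1
    rw [h1, mul_zero, mul_zero] at hXv
    have h2 : p - 2 = 0 := by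
      apply toLaurent_injective
      rw [map_zero]
      exact neg_eq_zero.mp hXv.symm
    exact hp2 (by rw [h2, coeff_zero])
  · intro h1
    have h2 : phi (X : L) jx = 0 := by rw [h1]; exact congrFun (map_zero phi) jx
    rw [hX, map_add, map_zsmul, Pi.add_apply, Pi.smul_apply, hxj.1, hxj.2, smul_zero, add_zero] at h2
    exact one_ne_zero h2
  · refine ⟨(lam'.comp (prj (co phi iT) T hiT)).comp (incl (Ker (co phi ib))), ?_, ?_⟩
    · change lam' (prj (co phi iT) T hiT (X : L)) = 0
      have h1 : prj (co phi iT) T hiT (X : L) = (x : Ker (co phi iT)) := by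
        apply Subtype.ext
        rw [prj_coe, hX]
        have h2 : co phi iT (((x : Ker (co phi iT)) : L) + s • T) = s := by
          change phi (((x : Ker (co phi iT)) : L) + s • T) iT = s
          have h3 : phi T iT = 1 := hiT
          rw [map_add, map_zsmul, Pi.add_apply, Pi.smul_apply, hxiT, h3, zero_add, smul_eq_mul,
            mul_one]
        rw [h2, add_sub_cancel_right]
      rw [h1, hlam']
      have h2 : phO phi T iT (x : Ker (co phi iT)) jx = 1 := hjx
      rw [h2, mul_one, sub_self]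
    · intro a ha h0 hne
      change 0 < lam' (prj (co phi iT) T hiT (a : L))
      have hva : vb (a : L) ≠ 0 := by
        rw [← cVb]
        exact ha
      have haib : phi (a : L) ib = 0 := a.2
      have hport : phi (a : L) iT = 0 ∨ phi (a : L) iT = 1 := by
        by_cases h1 : E.coeff (a : L) = 0
        · have h2 : E.coeff ((a : L) + b) ≠ 0 := by
            intro h3
            apply hva
            rw [hvb, h1, h3, mul_zero, add_zero]
          have h3 := hDb _ h2 iT
          rw [map_add, Pi.add_apply, hbT, add_zero] at h3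
          exact h3
        · exact hDb _ h1 iT
      obtain ⟨k, hk, hkT⟩ : ∃ k : ℤ, (k = 0 ∨ k = 1) ∧ phi (a : L) iT = k := ⟨_, hport, rfl⟩
      have hr1L : ((prj (co phi iT) T hiT (a : L) : Ker (co phi iT)) : L) = (a : L) - k • T := by
        rw [prj_coe]
        have h2 : co phi iT (a : L) = k := hkT
        rw [h2]
      have hr1 : prj (co phi iT) T hiT (a : L) ∈ Ker (co (phO phi T iT) ib) := by
        rw [mem_Ker]
        change phO phi T iT (prj (co phi iT) T hiT (a : L)) ib = 0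
        rw [pO, if_pos hTib, hr1L, map_sub, map_zsmul, Pi.sub_apply, Pi.smul_apply, haib, hTib,
          smul_zero, sub_zero]
      have hWne : W ⟨prj (co phi iT) T hiT (a : L), hr1⟩ ≠ 0 := by
        rw [W1]
        change bcR (vb ((prj (co phi iT) T hiT (a : L) : Ker (co phi iT)) : L)) + (k0 : RO Eis) *
          bcR (vb (((prj (co phi iT) T hiT (a : L) : Ker (co phi iT)) : L) + T)) ≠ 0
        rw [hr1L]
        rcases hk with h1 | h1
        · rw [h1, zero_smul, sub_zero, key1 (a : L) haib hva, map_zero, mul_zero, add_zero]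
          intro h2
          exact hva (bcR_inj (by rw [h2, map_zero]))
        · rw [h1, one_smul, sub_add_cancel]
          have h2 : vb ((a : L) - T) = 0 := by
            by_contra h3
            have h4 := key1 ((a : L) - T) (by
              rw [map_sub, Pi.sub_apply, haib, hTib, sub_zero]) h3
            rw [sub_add_cancel] at h4
            exact hva h4
          rw [h2, map_zero, zero_add]
          intro h3
          have h4 := (mul_eq_zero.mp h3).resolve_left k0.ne_zero
          exact hva (bcR_inj (by rw [h4, map_zero]))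
      apply expW ⟨prj (co phi iT) T hiT (a : L), hr1⟩ hWne
      · intro h1
        have h2 : ((prj (co phi iT) T hiT (a : L) : Ker (co phi iT)) : L) = 0 := by
          have h3 := congrArg Subtype.val h1
          exact congrArg Subtype.val h3
        rw [hr1L, sub_eq_zero] at h2
        rcases hk with h3 | h3
        · rw [h3, zero_smul] at h2
          exact h0 (Subtype.ext h2)
        · rw [h3, one_smul] at h2
          rw [h2] at hva
          exact hva vbT
      · intro h1
        have h2 : ((prj (co phi iT) T hiT (a : L) : Ker (co phi iT)) : L) =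
            ((x : Ker (co phi iT)) : L) := by
          have h3 := congrArg Subtype.val h1
          exact congrArg Subtype.val h3
        rw [hr1L, sub_eq_iff_eq_add] at h2
        apply hne
        apply Subtype.ext
        rw [h2, hX]
        -- both `x + k T` and `x + s T` are exponents
        have h3 : vb (((x : Ker (co phi iT)) : L) + s • T) ≠ 0 := by
          intro h4
          have h5 := cVb X
          rw [hX, h4] at h5
          rw [h5, mul_zero, mul_zero] at hXv
          have h6 : p - 2 = 0 := by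
            apply toLaurent_injective
            rw [map_zero]
            exact neg_eq_zero.mp hXv.symm
          exact hp2 (by rw [h6, coeff_zero])
        rw [h2] at hva
        rcases hk with h4 | h4 <;> rcases hs with h5 | h5 <;> rw [h4, h5] <;>
          rw [h4] at hva <;> rw [h5] at h3
        · exfalso
          rw [zero_smul, add_zero] at hva
          rw [one_smul] at h3
          exact h3 (key1 _ hxib hva)
        · exfalso
          rw [zero_smul, add_zero] at h3
          rw [one_smul] at hva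
          exact hva (key1 _ hxib h3)
  · rw [cVb]
    have h1 : ((0 : Ker (co phi ib)) : L) = 0 := rfl
    rw [h1, hvb, zero_add, mul_add, hp, hgb, map_sub, map_one, sub_eq_add_neg]

end

end Pool.Agent.B5.BP90
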